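import Pool.Agent.Lib.MP_81cdd9_nt.HZ.G4

/-! Parity words with a deep dip are rare. -/

set_option autoImplicit false

namespace Pool.Agent.MP81cdd9.NR

open Finset Pool.Agent.MP81cdd9.HZ

/-- The parity word `S` has a dip of depth `4 b` before or at time `L`. -/
def Dip (b L : ℕ) (S : Finset ℕ) : Prop := ∃ i ≤ L, 5 ^ cnt S i * 2 ^ (4 * b) ≤ 2 ^ i

theorem sum_weight (L i : ℕ) (hi : i ≤ L) (r : ℝ) :
    ∑ S ∈ (range L).powerset, r ^ cnt S i = (1 + r) ^ i * 2 ^ (L - i) := by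
  have h1 : ∀ S ∈ (range L).powerset, r ^ cnt S i = ∏ j ∈ S, (if j < i then r else 1) := by
    intro S _
    rw [Finset.prod_ite, Finset.prod_const, Finset.prod_const_one, mul_one]
    rfl
  rw [Finset.sum_congr rfl h1]
  rw [← Finset.prod_one_add]
  have h2 : ∏ j ∈ range L, (1 + if j < i then r else 1) =
      (∏ j ∈ range i, (1 + r)) * ∏ j ∈ Finset.Ico i L, (2 : ℝ) := by
    rw [← Finset.prod_range_mul_prod_Ico _ hi]
    congr 1
    · refine Finset.prod_congr rfl fun j hj => ?_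
      rw [if_pos (Finset.mem_range.1 hj)]
    · refine Finset.prod_congr rfl fun j hj => ?_
      rw [if_neg (not_lt.2 (Finset.mem_Ico.1 hj).1)]
      norm_num
  rw [h2]
  simp

/-- For one `i`. -/
theorem card_dip_one (b L i : ℕ) (hi : i ≤ L) :
    (((range L).powerset.filter (fun S => 5 ^ cnt S i * 2 ^ (4 * b) ≤ 2 ^ i)).card : ℝ) * 2 ^ b ≤ 2 ^ L := by
  set A := (range L).powerset.filter (fun S => 5 ^ cnt S i * 2 ^ (4 * b) ≤ 2 ^ i) with hA
  have hw : ∀ S ∈ A, (2 : ℝ) ^ b ≤ (1.19 : ℝ) ^ i * 0.669 ^ cnt S i := by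
    intro S hS
    have h1 : 5 ^ cnt S i * 2 ^ (4 * b) ≤ 2 ^ i := (Finset.mem_filter.1 hS).2
    have h2 : (5 : ℝ) ^ cnt S i * 2 ^ (4 * b) ≤ 2 ^ i := by exact_mod_cast h1
    have h3 : ((2 : ℝ) ^ b) ^ 4 ≤ ((1.19 : ℝ) ^ i * 0.669 ^ cnt S i) ^ 4 := by
      have h4 : ((2 : ℝ) ^ b) ^ 4 = 2 ^ (4 * b) := by rw [← pow_mul]; ring_nf
      have h5 : ((1.19 : ℝ) ^ i * 0.669 ^ cnt S i) ^ 4 = ((1.19 : ℝ) ^ 4) ^ i * ((0.669 : ℝ) ^ 4) ^ cnt S i := by
        rw [mul_pow, ← pow_mul, ← pow_mul, ← pow_mul, ← pow_mul, mul_comm i, mul_comm (cnt S i)]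
      have h6 : (2 : ℝ) ^ i ≤ ((1.19 : ℝ) ^ 4) ^ i := pow_le_pow_left₀ (by norm_num) (by norm_num) _
      have h7 : (1 / 5 : ℝ) ^ cnt S i ≤ ((0.669 : ℝ) ^ 4) ^ cnt S i := pow_le_pow_left₀ (by norm_num) (by norm_num) _
      have h8 : (2 : ℝ) ^ (4 * b) ≤ 2 ^ i * (1 / 5) ^ cnt S i := by
        rw [one_div, inv_pow, ← div_eq_mul_inv, le_div_iff₀ (by positivity)]
        linarith
      rw [h4, h5]
      exact h8.trans (mul_le_mul h6 h7 (by positivity) (by positivity))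
    exact le_of_pow_le_pow_left₀ (by norm_num) (by positivity) h3
  have h2 : (A.card : ℝ) * 2 ^ b ≤ ∑ S ∈ A, (1.19 : ℝ) ^ i * 0.669 ^ cnt S i := by
    rw [← nsmul_eq_mul, ← Finset.sum_const]
    exact Finset.sum_le_sum hw
  have h3 : ∑ S ∈ A, (1.19 : ℝ) ^ i * 0.669 ^ cnt S i ≤ ∑ S ∈ (range L).powerset, (1.19 : ℝ) ^ i * 0.669 ^ cnt S i :=
    Finset.sum_le_sum_of_subset_of_nonneg (Finset.filter_subset _ _) (fun S _ _ => by positivity)
  have h4 : ∑ S ∈ (range L).powerset, (1.19 : ℝ) ^ i * 0.669 ^ cnt S i = ((1.19 : ℝ) * (1 + 0.669)) ^ i * 2 ^ (L - i) := by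
    rw [← Finset.mul_sum, sum_weight L i hi, mul_pow]
    ring
  have h5 : ((1.19 : ℝ) * (1 + 0.669)) ^ i * 2 ^ (L - i) ≤ 2 ^ i * 2 ^ (L - i) :=
    mul_le_mul_of_nonneg_right (pow_le_pow_left₀ (by norm_num) (by norm_num) _) (by positivity)
  have h6 : (2 : ℝ) ^ i * 2 ^ (L - i) = 2 ^ L := by rw [← pow_add]; congr 1; omega
  linarith

open Classical in
theorem card_dip (b L : ℕ) :
    (((range L).powerset.filter (Dip b L)).card : ℝ) * 2 ^ b ≤ (L + 1) * 2 ^ L := by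
  have h1 : (range L).powerset.filter (Dip b L) ⊆ (range (L + 1)).biUnion
      (fun i => (range L).powerset.filter (fun S => 5 ^ cnt S i * 2 ^ (4 * b) ≤ 2 ^ i)) := by
    intro S hS
    obtain ⟨hS1, i, hi, h⟩ := Finset.mem_filter.1 hS
    exact Finset.mem_biUnion.2 ⟨i, Finset.mem_range.2 (by omega), Finset.mem_filter.2 ⟨hS1, h⟩⟩
  have h2 := (Finset.card_le_card h1).trans Finset.card_biUnion_le
  have h3 : (((range L).powerset.filter (Dip b L)).card : ℝ) ≤ ∑ i ∈ range (L + 1),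
      (((range L).powerset.filter (fun S => 5 ^ cnt S i * 2 ^ (4 * b) ≤ 2 ^ i)).card : ℝ) := by
    exact_mod_cast h2
  calc (((range L).powerset.filter (Dip b L)).card : ℝ) * 2 ^ b
      ≤ (∑ i ∈ range (L + 1), (((range L).powerset.filter (fun S => 5 ^ cnt S i * 2 ^ (4 * b) ≤ 2 ^ i)).card : ℝ)) * 2 ^ b :=
        mul_le_mul_of_nonneg_right h3 (by positivity)
    _ = ∑ i ∈ range (L + 1), (((range L).powerset.filter (fun S => 5 ^ cnt S i * 2 ^ (4 * b) ≤ 2 ^ i)).card : ℝ) * 2 ^ b := by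
        rw [Finset.sum_mul]
    _ ≤ ∑ i ∈ range (L + 1), (2 : ℝ) ^ L :=
        Finset.sum_le_sum fun i hi => card_dip_one b L i (by have := Finset.mem_range.1 hi; omega)
    _ = (L + 1) * 2 ^ L := by simp

open Classical in
/-- In an interval of length `2 ^ L` every parity word occurs at most once. -/
theorem transfer' (L : ℕ) (m : ℤ) (F : Finset ℕ → Prop) :
    ((Ico m (m + 2 ^ L)).filter (fun n => F (par L n))).card ≤ ((range L).powerset.filter F).card := by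
  refine Finset.card_le_card_of_injOn (par L) ?_ ?_
  · intro n hn
    simp only [coe_filter, Set.mem_ofPred_eq] at hn ⊢
    refine ⟨?_, hn.2⟩
    rw [Finset.mem_powerset]
    exact Finset.filter_subset _ _
  · intro n hn n' hn' h
    simp only [coe_filter, Set.mem_ofPred_eq, mem_Ico] at hn hn'
    obtain ⟨t, ht⟩ := par_inj L n n' h
    have hp : (0 : ℤ) < 2 ^ L := by positivity
    have h2 : |n - n'| < 2 ^ L := by
      rw [abs_lt]
      constructor <;> linarith [hn.1.1, hn.1.2, hn'.1.1, hn'.1.2]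
    have h3 : t = 0 := by
      by_contra hne
      have h4 : 1 ≤ |t| := Int.one_le_abs hne
      rw [ht, abs_mul, abs_of_pos hp] at h2
      nlinarith
    rw [h3, mul_zero] at ht
    linarith

open Classical in
/-- The integers of size about `2 ^ L` with a dip. -/
noncomputable def BadY (b L : ℕ) : Finset ℤ :=
  (Ioo (-(2 : ℤ) ^ (L + 1)) (2 ^ (L + 1))).filter (fun y => 2 ^ L ≤ |y| ∧ Dip b L (par L y))

open Classical in
theorem mem_BadY {b L : ℕ} {y : ℤ} : y ∈ BadY b L ↔ 2 ^ L ≤ |y| ∧ |y| < 2 ^ (L + 1) ∧ Dip b L (par L y) := by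
  unfold BadY
  rw [Finset.mem_filter, Finset.mem_Ioo, abs_lt]
  tauto

theorem card_BadY (b L : ℕ) : ((BadY b L).card : ℝ) * 2 ^ b ≤ 2 * ((L + 1) * 2 ^ L) := by
  classical
  have h1 : BadY b L ⊆ (Ico ((2 : ℤ) ^ L) (2 ^ L + 2 ^ L)).filter (fun n => Dip b L (par L n)) ∪
      (Ico (-(2 : ℤ) ^ (L + 1) + 1) (-(2 : ℤ) ^ (L + 1) + 1 + 2 ^ L)).filter (fun n => Dip b L (par L n)) := by
    intro y hy
    obtain ⟨h1, h2, h3⟩ := mem_BadY.1 hy
    rw [Finset.mem_union, Finset.mem_filter, Finset.mem_filter, Finset.mem_Ico, Finset.mem_Ico]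
    have h4 : (2 : ℤ) ^ (L + 1) = 2 * 2 ^ L := by ring
    rw [abs_lt] at h2
    rcases le_abs.1 h1 with h5 | h5
    · left; exact ⟨⟨h5, by linarith [h2.2]⟩, h3⟩
    · right; exact ⟨⟨by linarith [h2.1], by linarith⟩, h3⟩
  have h2 := (Finset.card_le_card h1).trans (Finset.card_union_le _ _)
  have h3 := h2.trans (add_le_add (transfer' L _ (Dip b L)) (transfer' L _ (Dip b L)))
  have h4 : ((BadY b L).card : ℝ) ≤ 2 * (((range L).powerset.filter (Dip b L)).card : ℝ) := by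
    have : ((BadY b L).card : ℝ) ≤ (((range L).powerset.filter (Dip b L)).card : ℝ) + (((range L).powerset.filter (Dip b L)).card : ℝ) := by
      exact_mod_cast h3
    linarith
  have h5 := card_dip b L
  have h6 : (0 : ℝ) ≤ 2 ^ b := by positivity
  nlinarith

end Pool.Agent.MP81cdd9.NR
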