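import Pool.Agent.Lib.MP_81cdd9_nt.NR.A

/-! Near-injectivity at record times. -/

set_option autoImplicit false

namespace Pool.Agent.MP81cdd9.NR

open Finset Pool.Agent.MP81cdd9.HZ

/-- The number of odd terms before time `k`. -/
def cc (n : ℤ) (k : ℕ) : ℕ := cnt (par k n) k

/-- `2 ^ k T ^ k n = 5 ^ cc (n + GG)`. -/
noncomputable def GG (n : ℤ) : ℕ → ℝ
  | 0 => 0
  | k + 1 => GG n k + if (T^[k] n) % 2 = 1 then 2 ^ k / 5 ^ (cc n k + 1) else 0

theorem cc_eq (n : ℤ) {k L : ℕ} (h : k ≤ L) : cnt (par L n) k = cc n k := by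
  unfold cc cnt par
  congr 1
  ext i
  simp only [Finset.mem_filter, Finset.mem_range]
  constructor
  · rintro ⟨⟨_, h2⟩, h3⟩; exact ⟨⟨h3, h2⟩, h3⟩
  · rintro ⟨⟨_, h2⟩, h3⟩; exact ⟨⟨by omega, h2⟩, h3⟩

theorem cc_zero (n : ℤ) : cc n 0 = 0 := by simp [cc, cnt]

theorem cc_succ (n : ℤ) (k : ℕ) : cc n (k + 1) = cc n k + if (T^[k] n) % 2 = 1 then 1 else 0 := by
  have h := cnt_succ (par (k + 1) n) k
  rw [cc_eq n (Nat.le_succ k)] at h
  unfold cc at h ⊢
  rw [h]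
  congr 1
  have : k ∈ par (k + 1) n ↔ (T^[k] n) % 2 = 1 := by
    unfold par
    rw [Finset.mem_filter, Finset.mem_range]
    exact ⟨fun h => h.2, fun h => ⟨Nat.lt_succ_self k, h⟩⟩
  simp only [this]

theorem cc_le (n : ℤ) (k : ℕ) : cc n k ≤ k := by
  induction k with
  | zero => rw [cc_zero]
  | succ k ih => rw [cc_succ]; split_ifs <;> omega

theorem key (n : ℤ) (k : ℕ) : (2 : ℝ) ^ k * (T^[k] n : ℤ) = 5 ^ cc n k * (n + GG n k) := by
  induction k with
  | zero => simp [cc_zero, GG]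
  | succ k ih =>
    rw [Function.iterate_succ_apply', cc_succ, GG]
    have h2 := two_T (T^[k] n)
    split_ifs at h2 ⊢ with hodd
    · have h3 : (2 : ℝ) * (T (T^[k] n) : ℤ) = 5 * (T^[k] n : ℤ) + 1 := by exact_mod_cast h2
      calc (2 : ℝ) ^ (k + 1) * (T (T^[k] n) : ℤ) = 2 ^ k * (2 * (T (T^[k] n) : ℤ)) := by ring
        _ = 5 * (2 ^ k * (T^[k] n : ℤ)) + 2 ^ k := by rw [h3]; ring
        _ = 5 * (5 ^ cc n k * (n + GG n k)) + 2 ^ k := by rw [ih]
        _ = 5 ^ (cc n k + 1) * (n + (GG n k + 2 ^ k / 5 ^ (cc n k + 1))) := by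
            field_simp
            ring
    · have h3 : (2 : ℝ) * (T (T^[k] n) : ℤ) = (T^[k] n : ℤ) := by exact_mod_cast h2
      calc (2 : ℝ) ^ (k + 1) * (T (T^[k] n) : ℤ) = 2 ^ k * (2 * (T (T^[k] n) : ℤ)) := by ring
        _ = 5 ^ cc n k * (n + GG n k) := by rw [h3, ih]
        _ = 5 ^ (cc n k + 0) * (n + (GG n k + 0)) := by simp

theorem GG_mono (n : ℤ) {k l : ℕ} (h : k ≤ l) : GG n k ≤ GG n l := by
  induction l, h using Nat.le_induction with
  | base => exact le_rfl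
  | succ l _ ih =>
    rw [GG]
    split_ifs
    · have : (0 : ℝ) ≤ 2 ^ l / 5 ^ (cc n l + 1) := by positivity
      linarith
    · linarith

theorem GG_nonneg (n : ℤ) (k : ℕ) : 0 ≤ GG n k := by
  have := GG_mono n (Nat.zero_le k)
  simpa [GG] using this

/-- The size of `GG` if all the values are at least `y`. -/
theorem GG_le (n : ℤ) (t : ℕ) {y : ℝ} (hy : 0 < y) (hmin : ∀ l < t, y ≤ |(T^[l] n : ℤ)|) (hty : (t : ℝ) ≤ y) :
    GG n t ≤ t / (4 * y) * |(n : ℝ)| := by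
  have h1 : ∀ l ≤ t, GG n l ≤ l / (5 * y) * (|(n : ℝ)| + GG n t) := by
    intro l hl
    induction l with
    | zero => simp [GG]
    | succ l ih =>
      have ih' := ih (by omega)
      have hG := GG_nonneg n t
      have hpos : 0 ≤ 1 / (5 * y) * (|(n : ℝ)| + GG n t) := by positivity
      rw [GG]
      have e : ((l + 1 : ℕ) : ℝ) / (5 * y) * (|(n : ℝ)| + GG n t) =
          l / (5 * y) * (|(n : ℝ)| + GG n t) + 1 / (5 * y) * (|(n : ℝ)| + GG n t) := by
        push_cast; ring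
      rw [e]
      refine add_le_add ih' ?_
      split_ifs
      · have hk := key n l
        have habs : (2 : ℝ) ^ l * |((T^[l] n : ℤ) : ℝ)| = 5 ^ cc n l * |(n : ℝ) + GG n l| := by
          rw [← abs_of_pos (show (0 : ℝ) < 2 ^ l by positivity), ← abs_mul, hk, abs_mul,
            abs_of_pos (show (0 : ℝ) < 5 ^ cc n l by positivity)]
        have hy1 : y ≤ |((T^[l] n : ℤ) : ℝ)| := by
          have := hmin l (by omega)
          exact_mod_cast this
        have h3 : |(n : ℝ) + GG n l| ≤ |(n : ℝ)| + GG n t := by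
          refine (abs_add_le _ _).trans ?_
          rw [abs_of_nonneg (GG_nonneg n l)]
          have := GG_mono n (show l ≤ t by omega)
          linarith
        have h4 : (2 : ℝ) ^ l * y ≤ 5 ^ cc n l * (|(n : ℝ)| + GG n t) := by
          calc (2 : ℝ) ^ l * y ≤ 2 ^ l * |((T^[l] n : ℤ) : ℝ)| := mul_le_mul_of_nonneg_left hy1 (by positivity)
            _ = 5 ^ cc n l * |(n : ℝ) + GG n l| := habs
            _ ≤ 5 ^ cc n l * (|(n : ℝ)| + GG n t) := mul_le_mul_of_nonneg_left h3 (by positivity)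
        rw [pow_succ, div_le_iff₀ (by positivity)]
        have h5 : 1 / (5 * y) * (|(n : ℝ)| + GG n t) * (5 ^ cc n l * 5) = 5 ^ cc n l * (|(n : ℝ)| + GG n t) / y := by
          field_simp
        rw [h5, le_div_iff₀ hy]
        exact h4
      · exact hpos
  have h2 := h1 t le_rfl
  have hG := GG_nonneg n t
  have h3 : (t : ℝ) / (5 * y) ≤ 1 / 5 := by
    rw [div_le_div_iff₀ (by positivity) (by norm_num)]
    linarith
  have h4 : (t : ℝ) / (5 * y) * GG n t ≤ 1 / 5 * GG n t := mul_le_mul_of_nonneg_right h3 hG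
  have h5 : (t : ℝ) / (4 * y) * |(n : ℝ)| = 5 / 4 * (t / (5 * y) * |(n : ℝ)|) := by
    field_simp
  rw [h5]
  linarith

/-- A set of integers in an interval of length `Δ` has at most `Δ + 1` elements. -/
theorem card_interval (A : Finset ℤ) (x Δ : ℝ) (hΔ : 0 ≤ Δ) (h : ∀ n ∈ A, x - Δ ≤ n ∧ (n : ℝ) ≤ x) :
    (A.card : ℝ) ≤ Δ + 1 := by
  have h1 : A ⊆ Finset.Icc ⌈x - Δ⌉ ⌊x⌋ := by
    intro n hn
    obtain ⟨h2, h3⟩ := h n hn
    exact Finset.mem_Icc.2 ⟨Int.ceil_le.2 h2, Int.le_floor.2 h3⟩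
  have h2 := Finset.card_le_card h1
  rw [Int.card_Icc] at h2
  have h3 : ((⌊x⌋ + 1 - ⌈x - Δ⌉).toNat : ℝ) ≤ Δ + 1 := by
    rcases le_total 0 (⌊x⌋ + 1 - ⌈x - Δ⌉) with h4 | h4
    · have h5 : ((⌊x⌋ + 1 - ⌈x - Δ⌉).toNat : ℝ) = ((⌊x⌋ + 1 - ⌈x - Δ⌉ : ℤ) : ℝ) := by
        exact_mod_cast Int.toNat_of_nonneg h4
      rw [h5]
      push_cast
      have h6 := Int.floor_le x
      have h7 := Int.le_ceil (x - Δ)
      linarith
    · rw [Int.toNat_of_nonpos h4]
      simp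
      linarith
  exact le_trans (by exact_mod_cast h2) h3

end Pool.Agent.MP81cdd9.NR
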