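import Pool.Agent.Lib.MP_81cdd9_nt.NR.B

/-! Few trajectories have a dip after a record. -/

set_option autoImplicit false

namespace Pool.Agent.MP81cdd9.NR

open Finset Pool.Agent.MP81cdd9.HZ

/-- The value at time `t` is the smallest so far. -/
def Rec (n : ℤ) (t : ℕ) : Prop := ∀ i ≤ t, |T^[t] n| ≤ |T^[i] n|

open Classical in
/-- The `n` with a record `Y` at time `t` and `o` odd terms before. -/
noncomputable def At (K t o : ℕ) (Y : ℤ) : Finset ℤ :=
  (Ioo (-(2 : ℤ) ^ (K + 1)) (2 ^ (K + 1))).filter (fun n => 2 ^ K ≤ |n| ∧ T^[t] n = Y ∧ cc n t = o ∧ Rec n t)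

open Classical in
/-- The `n` with a dip after a record of size at least `2 ^ h` until time `H`. -/
noncomputable def Bad (K H b h : ℕ) : Finset ℤ :=
  (Ioo (-(2 : ℤ) ^ (K + 1)) (2 ^ (K + 1))).filter (fun n => 2 ^ K ≤ |n| ∧
    ∃ t ≤ H, Rec n t ∧ ∃ L, h ≤ L ∧ T^[t] n ∈ BadY b L)

open Classical in
theorem mem_At {K t o : ℕ} {Y n : ℤ} : n ∈ At K t o Y ↔
    |n| < 2 ^ (K + 1) ∧ 2 ^ K ≤ |n| ∧ T^[t] n = Y ∧ cc n t = o ∧ Rec n t := by
  unfold At
  rw [Finset.mem_filter, Finset.mem_Ioo, abs_lt]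

open Classical in
theorem mem_Bad {K H b h : ℕ} {n : ℤ} : n ∈ Bad K H b h ↔
    |n| < 2 ^ (K + 1) ∧ 2 ^ K ≤ |n| ∧ ∃ t ≤ H, Rec n t ∧ ∃ L, h ≤ L ∧ T^[t] n ∈ BadY b L := by
  unfold Bad
  rw [Finset.mem_filter, Finset.mem_Ioo, abs_lt]

theorem card_At (K t o : ℕ) (Y : ℤ) (hY : Y ≠ 0) (ht : (t : ℝ) ≤ |(Y : ℝ)|) :
    ((At K t o Y).card : ℝ) ≤ (t + 2) * 2 ^ K / |(Y : ℝ)| := by
  have hY0 : (0 : ℝ) < |(Y : ℝ)| := abs_pos.2 (by exact_mod_cast hY)
  rcases (At K t o Y).eq_empty_or_nonempty with h0 | ⟨n0, hn0⟩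
  · rw [h0, Finset.card_empty, Nat.cast_zero]
    positivity
  have hn0' := mem_At.1 hn0
  have hYK : |(Y : ℝ)| ≤ 2 * 2 ^ K := by
    have h1 : |Y| ≤ |n0| := by
      have := hn0'.2.2.2.2 0 (Nat.zero_le _)
      rw [hn0'.2.2.1] at this
      simpa using this
    have h2 : |Y| ≤ 2 ^ (K + 1) := h1.trans hn0'.1.le
    have h3 : (|Y| : ℝ) ≤ 2 ^ (K + 1) := by exact_mod_cast h2
    rw [pow_succ] at h3
    linarith
  have h1 := card_interval (At K t o Y) (2 ^ t * (Y : ℝ) / 5 ^ o) (t / (4 * |(Y : ℝ)|) * 2 ^ (K + 1)) (by positivity) (by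
    intro n hn
    obtain ⟨h1, h2, h3, h4, h5⟩ := mem_At.1 hn
    have hk := key n t
    rw [h3, h4] at hk
    have hx : 2 ^ t * (Y : ℝ) / 5 ^ o = n + GG n t := by
      rw [hk]; field_simp
    have hG0 := GG_nonneg n t
    have hG := GG_le n t hY0 (fun l hl => by
      have := h5 l hl.le
      rw [h3] at this
      exact_mod_cast this) ht
    have hn1 : |(n : ℝ)| ≤ 2 ^ (K + 1) := by
      have : (|n| : ℤ) ≤ 2 ^ (K + 1) := h1.le
      exact_mod_cast this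
    have hG' : GG n t ≤ t / (4 * |(Y : ℝ)|) * 2 ^ (K + 1) :=
      hG.trans (mul_le_mul_of_nonneg_left hn1 (by positivity))
    rw [hx]
    constructor <;> linarith)
  refine h1.trans ?_
  rw [le_div_iff₀ hY0]
  have h2 : (t / (4 * |(Y : ℝ)|) * 2 ^ (K + 1) + 1) * |(Y : ℝ)| = t / 2 * 2 ^ K + |(Y : ℝ)| := by
    rw [pow_succ]
    field_simp
    ring
  rw [h2]
  have h3 : (0 : ℝ) ≤ t * 2 ^ K := by positivity
  linarith

theorem card_Bad (K H b h : ℕ) (hH : (H : ℝ) ≤ 2 ^ h) :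
    ((Bad K H b h).card : ℝ) * 2 ^ b ≤ 2 * (K + 1) ^ 2 * (H + 2) ^ 3 * 2 ^ K := by
  classical
  have hsub : Bad K H b h ⊆ (range (H + 1)).biUnion (fun t => (range (H + 1)).biUnion (fun o =>
      (Finset.Icc h K).biUnion (fun L => (BadY b L).biUnion (fun Y => At K t o Y)))) := by
    intro n hn
    obtain ⟨h1, h2, t, ht, hrec, L, hL, hY⟩ := mem_Bad.1 hn
    have hYL := mem_BadY.1 hY
    have h3 : |T^[t] n| ≤ |n| := by simpa using hrec 0 (Nat.zero_le _)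
    have hLK : L ≤ K := by
      by_contra hcon
      push Not at hcon
      have h4 : (2 : ℤ) ^ (K + 1) ≤ 2 ^ L := pow_le_pow_right₀ (by norm_num) hcon
      linarith [hYL.1]
    refine Finset.mem_biUnion.2 ⟨t, Finset.mem_range.2 (by omega), Finset.mem_biUnion.2 ⟨cc n t, ?_,
      Finset.mem_biUnion.2 ⟨L, Finset.mem_Icc.2 ⟨hL, hLK⟩, Finset.mem_biUnion.2 ⟨T^[t] n, hY, mem_At.2 ⟨h1, h2, rfl, rfl, hrec⟩⟩⟩⟩⟩
    have := cc_le n t
    exact Finset.mem_range.2 (by omega)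
  have hL : ∀ t ∈ range (H + 1), ∀ o : ℕ, ∀ L ∈ Finset.Icc h K,
      (((BadY b L).biUnion (fun Y => At K t o Y)).card : ℝ) * 2 ^ b ≤ 2 * (K + 1) * (H + 2) * 2 ^ K := by
    intro t ht o L hL
    have htH : (t : ℝ) ≤ H := by
      have := Finset.mem_range.1 ht
      exact_mod_cast (by omega : t ≤ H)
    have hLm := Finset.mem_Icc.1 hL
    have h1 : (((BadY b L).biUnion (fun Y => At K t o Y)).card : ℝ) ≤ ∑ Y ∈ BadY b L, ((At K t o Y).card : ℝ) := by
      exact_mod_cast Finset.card_biUnion_le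
    have h2 : ∀ Y ∈ BadY b L, ((At K t o Y).card : ℝ) ≤ (H + 2) * 2 ^ K / 2 ^ L := by
      intro Y hY
      have hYL := mem_BadY.1 hY
      have hp : (0 : ℤ) < 2 ^ L := by positivity
      have hY0 : Y ≠ 0 := by
        rintro rfl
        simp at hYL
        linarith [hYL.1]
      have hYr : (2 : ℝ) ^ L ≤ |(Y : ℝ)| := by exact_mod_cast hYL.1
      have hhL : (2 : ℝ) ^ h ≤ 2 ^ L := pow_le_pow_right₀ (by norm_num) hLm.1
      refine (card_At K t o Y hY0 (htH.trans (hH.trans (hhL.trans hYr)))).trans ?_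
      apply div_le_div₀ (by positivity) _ (by positivity) hYr
      apply mul_le_mul_of_nonneg_right _ (by positivity)
      linarith
    have h3 : ∑ Y ∈ BadY b L, ((At K t o Y).card : ℝ) ≤ ((BadY b L).card : ℝ) * ((H + 2) * 2 ^ K / 2 ^ L) := by
      rw [← nsmul_eq_mul, ← Finset.sum_const]
      exact Finset.sum_le_sum h2
    have h4 := card_BadY b L
    have hLK : (L : ℝ) ≤ K := by exact_mod_cast hLm.2
    calc (((BadY b L).biUnion (fun Y => At K t o Y)).card : ℝ) * 2 ^ b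
        ≤ (((BadY b L).card : ℝ) * ((H + 2) * 2 ^ K / 2 ^ L)) * 2 ^ b :=
          mul_le_mul_of_nonneg_right (h1.trans h3) (by positivity)
      _ = (((BadY b L).card : ℝ) * 2 ^ b) * ((H + 2) * 2 ^ K / 2 ^ L) := by ring
      _ ≤ (2 * ((L + 1) * 2 ^ L)) * ((H + 2) * 2 ^ K / 2 ^ L) :=
          mul_le_mul_of_nonneg_right h4 (by positivity)
      _ = 2 * (L + 1) * (H + 2) * 2 ^ K := by field_simp
      _ ≤ 2 * (K + 1) * (H + 2) * 2 ^ K := by
          apply mul_le_mul_of_nonneg_right _ (by positivity)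
          apply mul_le_mul_of_nonneg_right _ (by positivity)
          linarith
  have hM0 : (0 : ℝ) ≤ 2 * (K + 1) * (H + 2) * 2 ^ K := by positivity
  have hsum : ∀ {ι : Type} (s : Finset ι) (f : ι → Finset ℤ) (M : ℝ), (∀ i ∈ s, ((f i).card : ℝ) * 2 ^ b ≤ M) →
      ((s.biUnion f).card : ℝ) * 2 ^ b ≤ s.card * M := by
    intro ι s f M hf
    have h1 : ((s.biUnion f).card : ℝ) ≤ ∑ i ∈ s, ((f i).card : ℝ) := by exact_mod_cast Finset.card_biUnion_le
    calc ((s.biUnion f).card : ℝ) * 2 ^ b ≤ (∑ i ∈ s, ((f i).card : ℝ)) * 2 ^ b :=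
          mul_le_mul_of_nonneg_right h1 (by positivity)
      _ = ∑ i ∈ s, ((f i).card : ℝ) * 2 ^ b := by rw [Finset.sum_mul]
      _ ≤ ∑ i ∈ s, M := Finset.sum_le_sum hf
      _ = s.card * M := by rw [Finset.sum_const, nsmul_eq_mul]
  have hLs : ∀ t ∈ range (H + 1), ∀ o ∈ range (H + 1),
      (((Finset.Icc h K).biUnion (fun L => (BadY b L).biUnion (fun Y => At K t o Y))).card : ℝ) * 2 ^ b ≤
        (K + 1) * (2 * (K + 1) * (H + 2) * 2 ^ K) := by
    intro t ht o _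
    refine (hsum _ _ _ (hL t ht o)).trans ?_
    apply mul_le_mul_of_nonneg_right _ hM0
    rw [Nat.card_Icc]
    have : K + 1 - h ≤ K + 1 := by omega
    exact_mod_cast this
  have hos : ∀ t ∈ range (H + 1), (((range (H + 1)).biUnion (fun o => (Finset.Icc h K).biUnion (fun L =>
      (BadY b L).biUnion (fun Y => At K t o Y)))).card : ℝ) * 2 ^ b ≤ (H + 1) * ((K + 1) * (2 * (K + 1) * (H + 2) * 2 ^ K)) := by
    intro t ht
    refine (hsum _ _ _ (hLs t ht)).trans (le_of_eq ?_)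
    rw [Finset.card_range]; push_cast; ring
  have hts := hsum (range (H + 1)) _ _ hos
  rw [Finset.card_range] at hts
  have h5 : ((Bad K H b h).card : ℝ) ≤ (((range (H + 1)).biUnion (fun t => (range (H + 1)).biUnion (fun o =>
      (Finset.Icc h K).biUnion (fun L => (BadY b L).biUnion (fun Y => At K t o Y))))).card : ℝ) := by
    exact_mod_cast Finset.card_le_card hsub
  refine (mul_le_mul_of_nonneg_right h5 (by positivity)).trans (hts.trans ?_)
  push_cast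
  have h6 : ((H : ℝ) + 1) * ((H + 1) * ((K + 1) * (2 * (K + 1) * (H + 2) * 2 ^ K))) =
      (2 * (K + 1) ^ 2 * (H + 2) * 2 ^ K) * (H + 1) ^ 2 := by ring
  have h7 : 2 * ((K : ℝ) + 1) ^ 2 * (H + 2) ^ 3 * 2 ^ K = (2 * (K + 1) ^ 2 * (H + 2) * 2 ^ K) * (H + 2) ^ 2 := by ring
  rw [h6, h7]
  apply mul_le_mul_of_nonneg_left _ (by positivity)
  have : (0 : ℝ) ≤ H := Nat.cast_nonneg _
  nlinarith

end Pool.Agent.MP81cdd9.NR
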