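import Pool.Agent.Lib.MP_81cdd9_nt.NR.C

/-! Without dips after records the minimum decreases slowly. -/

set_option autoImplicit false

namespace Pool.Agent.MP81cdd9.NR

open Finset Pool.Agent.MP81cdd9.HZ

/-- A step at most halves the absolute value. -/
theorem half_step (x : ℤ) : |x| ≤ 2 * |T x| := by
  have h := two_T x
  have h2 : 2 * |T x| = |2 * T x| := by rw [abs_mul]; simp
  rw [h2, h]
  split_ifs with hodd
  · rcases le_total 0 x with h0 | h0
    · rw [abs_of_nonneg h0, abs_of_nonneg (by linarith)]; linarith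
    · have hx : x ≤ -1 := by omega
      rw [abs_of_nonpos h0, abs_of_nonpos (by linarith)]; linarith
  · exact le_rfl

/-- The powers of two against the powers of five if there is no dip. -/
theorem no_dip {b L : ℕ} {y : ℤ} (h1 : 2 ^ L ≤ |y|) (h2 : |y| < 2 ^ (L + 1)) (h3 : y ∉ BadY b L) {i : ℕ} (hi : i ≤ L) :
    2 ^ i < 5 ^ cc y i * 2 ^ (4 * b) := by
  by_contra hcon
  push Not at hcon
  refine h3 (mem_BadY.2 ⟨h1, h2, i, hi, ?_⟩)
  rw [cc_eq y hi]
  exact hcon

/-- `GG` is small if there is no dip. -/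
theorem GG_no_dip {b L : ℕ} {y : ℤ} (h1 : 2 ^ L ≤ |y|) (h2 : |y| < 2 ^ (L + 1)) (h3 : y ∉ BadY b L) {i : ℕ} (hi : i ≤ L) :
    GG y i ≤ i * 2 ^ (4 * b) / 5 := by
  induction i with
  | zero => simp [GG]
  | succ i ih =>
    have ih' := ih (by omega)
    have h4 := no_dip h1 h2 h3 (show i ≤ L by omega)
    have h5 : (2 : ℝ) ^ i < 5 ^ cc y i * 2 ^ (4 * b) := by exact_mod_cast h4
    rw [GG]
    have h6 : (if (T^[i] y) % 2 = 1 then (2 : ℝ) ^ i / 5 ^ (cc y i + 1) else 0) ≤ 2 ^ (4 * b) / 5 := by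
      split_ifs
      · rw [pow_succ, div_le_div_iff₀ (by positivity) (by norm_num)]
        nlinarith
      · positivity
    push_cast
    have h7 : ((i : ℝ) + 1) * 2 ^ (4 * b) / 5 = i * 2 ^ (4 * b) / 5 + 2 ^ (4 * b) / 5 := by ring
    rw [h7]
    linarith

/-- The next `L` values are not much smaller. -/
theorem small_drop {b h L : ℕ} {y : ℤ} (h1 : 2 ^ L ≤ |y|) (h2 : |y| < 2 ^ (L + 1)) (h3 : y ∉ BadY b L) (hL : h ≤ L)
    (hb : h * 2 ^ (4 * b) ≤ 2 ^ h) {i : ℕ} (hi : i ≤ h) :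
    |y| ≤ 2 ^ (4 * b + 1) * |T^[i] y| := by
  have hG := GG_no_dip h1 h2 h3 (hi.trans hL)
  have hG0 := GG_nonneg y i
  have hk := key y i
  have hd := no_dip h1 h2 h3 (hi.trans hL)
  have hd' : (2 : ℝ) ^ i < 5 ^ cc y i * 2 ^ (4 * b) := by exact_mod_cast hd
  have hb' : (h : ℝ) * 2 ^ (4 * b) ≤ 2 ^ h := by exact_mod_cast hb
  have hih : (i : ℝ) ≤ h := by exact_mod_cast hi
  have h1' : (2 : ℝ) ^ L ≤ |(y : ℝ)| := by exact_mod_cast h1
  have hhL : (2 : ℝ) ^ h ≤ 2 ^ L := pow_le_pow_right₀ (by norm_num) hL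
  have hG2 : GG y i ≤ |(y : ℝ)| / 2 := by
    have h4 : (i : ℝ) * 2 ^ (4 * b) ≤ h * 2 ^ (4 * b) := mul_le_mul_of_nonneg_right hih (by positivity)
    linarith
  have h5 : |(y : ℝ)| / 2 ≤ |(y : ℝ) + GG y i| := by
    have h6 : |(y : ℝ)| ≤ |(y : ℝ) + GG y i| + |GG y i| := by
      have := abs_add_le ((y : ℝ) + GG y i) (-GG y i)
      rwa [add_neg_cancel_right, abs_neg] at this
    rw [abs_of_nonneg hG0] at h6
    linarith
  have h6 : (2 : ℝ) ^ i * |((T^[i] y : ℤ) : ℝ)| = 5 ^ cc y i * |(y : ℝ) + GG y i| := by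
    rw [← abs_of_pos (show (0 : ℝ) < 2 ^ i by positivity), ← abs_mul, hk, abs_mul,
      abs_of_pos (show (0 : ℝ) < 5 ^ cc y i by positivity)]
  have h7 : |(y : ℝ)| ≤ 2 ^ (4 * b + 1) * |((T^[i] y : ℤ) : ℝ)| := by
    have h8 : (2 : ℝ) ^ i * |(y : ℝ)| ≤ 2 ^ i * (2 ^ (4 * b + 1) * |((T^[i] y : ℤ) : ℝ)|) := by
      calc (2 : ℝ) ^ i * |(y : ℝ)| ≤ (5 ^ cc y i * 2 ^ (4 * b)) * |(y : ℝ)| :=
            mul_le_mul_of_nonneg_right hd'.le (abs_nonneg _)
        _ = 2 ^ (4 * b + 1) * (5 ^ cc y i * (|(y : ℝ)| / 2)) := by rw [pow_succ]; ring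
        _ ≤ 2 ^ (4 * b + 1) * (5 ^ cc y i * |(y : ℝ) + GG y i|) := by
            apply mul_le_mul_of_nonneg_left _ (by positivity)
            exact mul_le_mul_of_nonneg_left h5 (by positivity)
        _ = 2 ^ i * (2 ^ (4 * b + 1) * |((T^[i] y : ℤ) : ℝ)|) := by rw [← h6]; ring
    exact le_of_mul_le_mul_left h8 (by positivity)
  exact_mod_cast h7

/-- In every window of length `h` the minimum decreases at most by the factor `2 ^ (4 b + 2)`. -/
theorem descend {K H b h : ℕ} (hb : h * 2 ^ (4 * b) ≤ 2 ^ h) {n : ℤ} (h1 : 2 ^ K ≤ |n|) (h2 : |n| < 2 ^ (K + 1))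
    (hn : n ∉ Bad K H b h) (j : ℕ) (hj : (4 * b + 2) * j ≤ K - h + (4 * b + 1)) (hK : h ≤ K) :
    ∀ k ≤ j * h, k ≤ H → |n| ≤ 2 ^ ((4 * b + 2) * j) * |T^[k] n| := by
  classical
  induction j with
  | zero =>
    intro k hk _
    have : k = 0 := by omega
    subst this
    simp
  | succ j ih =>
    intro k hk hkH
    have hj' : (4 * b + 2) * j + 1 ≤ K - h := by
      have : (4 * b + 2) * (j + 1) = (4 * b + 2) * j + (4 * b + 2) := by ring
      omega
    have ih' := ih (by omega)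
    have e : (4 * b + 2) * (j + 1) = (4 * b + 2) * j + 1 + (4 * b + 1) := by ring
    by_cases hall : ∀ i ≤ k, |n| ≤ 2 ^ ((4 * b + 2) * j) * |T^[i] n|
    · refine (hall k le_rfl).trans ?_
      exact mul_le_mul_of_nonneg_right (pow_le_pow_right₀ (by norm_num) (by omega)) (abs_nonneg _)
    · push Not at hall
      obtain ⟨t, ht⟩ : ∃ t, t = Nat.find hall := ⟨_, rfl⟩
      have ht1 : t ≤ k ∧ 2 ^ ((4 * b + 2) * j) * |T^[t] n| < |n| := by rw [ht]; exact Nat.find_spec hall
      have htmin : ∀ i < t, |n| ≤ 2 ^ ((4 * b + 2) * j) * |T^[i] n| := by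
        intro i hi
        have h3 := Nat.find_min hall (ht ▸ hi)
        by_contra hcon
        push Not at hcon
        exact h3 ⟨by omega, hcon⟩
      have htj : j * h < t := by
        by_contra hcon
        push Not at hcon
        have := ih' t hcon (by omega)
        omega
      have ht0 : 0 < t := by omega
      have hpos : (0 : ℤ) < 2 ^ ((4 * b + 2) * j) := by positivity
      have hrec : Rec n t := by
        intro i hi
        rcases Nat.lt_or_eq_of_le hi with h3 | h3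
        · have h4 := htmin i h3
          have h5 := ht1.2
          by_contra hcon
          push Not at hcon
          have := mul_lt_mul_of_pos_left hcon hpos
          linarith
        · rw [h3]
      have hhalf : |n| ≤ 2 ^ ((4 * b + 2) * j + 1) * |T^[t] n| := by
        obtain ⟨s, rfl⟩ : ∃ s, t = s + 1 := ⟨t - 1, by omega⟩
        have h3 := htmin s (by omega)
        have h4 := half_step (T^[s] n)
        rw [← Function.iterate_succ_apply' T s n] at h4
        calc |n| ≤ 2 ^ ((4 * b + 2) * j) * |T^[s] n| := h3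
          _ ≤ 2 ^ ((4 * b + 2) * j) * (2 * |T^[s + 1] n|) := mul_le_mul_of_nonneg_left h4 hpos.le
          _ = 2 ^ ((4 * b + 2) * j + 1) * |T^[s + 1] n| := by rw [pow_succ]; ring
      obtain ⟨y, hy⟩ : ∃ y, y = T^[t] n := ⟨_, rfl⟩
      rw [← hy] at hhalf
      have hyh : (2 : ℤ) ^ h ≤ |y| := by
        have h3 : (2 : ℤ) ^ K ≤ 2 ^ ((4 * b + 2) * j + 1) * |y| := h1.trans hhalf
        have h4 : (2 : ℤ) ^ K = 2 ^ ((4 * b + 2) * j + 1) * 2 ^ (K - ((4 * b + 2) * j + 1)) := by
          rw [← pow_add]; congr 1; omega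
        rw [h4] at h3
        have h5 : (2 : ℤ) ^ (K - ((4 * b + 2) * j + 1)) ≤ |y| := le_of_mul_le_mul_left h3 (by positivity)
        exact (pow_le_pow_right₀ (by norm_num) (by omega)).trans h5
      have hy0 : y ≠ 0 := by
        rintro rfl
        rw [abs_zero] at hyh
        have : (0 : ℤ) < 2 ^ h := by positivity
        omega
      obtain ⟨L, hL⟩ : ∃ L, L = Nat.log 2 y.natAbs := ⟨_, rfl⟩
      have hL1 : (2 : ℤ) ^ L ≤ |y| := by
        rw [← Int.natCast_natAbs]
        have := Nat.pow_log_le_self 2 (Int.natAbs_ne_zero.2 hy0)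
        rw [← hL] at this
        exact_mod_cast this
      have hL2 : |y| < 2 ^ (L + 1) := by
        rw [← Int.natCast_natAbs]
        have := Nat.lt_pow_succ_log_self (b := 2) (by norm_num) y.natAbs
        rw [← hL] at this
        exact_mod_cast this
      have hhL : h ≤ L := by
        by_contra hcon
        push Not at hcon
        have : (2 : ℤ) ^ (L + 1) ≤ 2 ^ h := pow_le_pow_right₀ (by norm_num) hcon
        linarith
      have hgood : y ∉ BadY b L := by
        intro hbad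
        exact hn (mem_Bad.2 ⟨h2, h1, t, by omega, hrec, L, hhL, hy ▸ hbad⟩)
      have h5 := small_drop hL1 hL2 hgood hhL hb (i := k - t) (by
        have : (j + 1) * h = j * h + h := by ring
        omega)
      have h6 : T^[k - t] y = T^[k] n := by
        rw [hy, ← Function.iterate_add_apply]
        congr 2
        omega
      rw [h6] at h5
      calc |n| ≤ 2 ^ ((4 * b + 2) * j + 1) * |y| := hhalf
        _ ≤ 2 ^ ((4 * b + 2) * j + 1) * (2 ^ (4 * b + 1) * |T^[k] n|) := mul_le_mul_of_nonneg_left h5 (by positivity)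
        _ = 2 ^ ((4 * b + 2) * (j + 1)) * |T^[k] n| := by rw [e, pow_add _ ((4 * b + 2) * j + 1)]; ring

end Pool.Agent.MP81cdd9.NR
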