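import Pool.Agent.Lib.MP_81cdd9_nt.NR.D

/-! Almost all trajectories do not return to much smaller numbers. -/

set_option autoImplicit false

namespace Pool.Agent.MP81cdd9.NR

open Finset Pool.Agent.MP81cdd9.HZ

theorem iter_ne_zero {n : ℤ} (hn : n ≠ 0) (k : ℕ) : T^[k] n ≠ 0 := by
  induction k with
  | zero => simpa using hn
  | succ k ih =>
    rw [Function.iterate_succ_apply']
    intro h0
    have h := half_step (T^[k] n)
    rw [h0] at h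
    simp at h
    exact ih h

/-- The parameter: dips of `4 * bb K` binary digits. -/
def bb (K : ℕ) : ℕ := 10 * (Nat.log 2 K + 1)

theorem pow_bb (K : ℕ) : (K : ℝ) ^ 10 ≤ 2 ^ bb K := by
  have h1 : K < 2 ^ (Nat.log 2 K + 1) := Nat.lt_pow_succ_log_self (by norm_num) K
  have h2 : (K : ℝ) ≤ 2 ^ (Nat.log 2 K + 1) := by exact_mod_cast h1.le
  calc (K : ℝ) ^ 10 ≤ (2 ^ (Nat.log 2 K + 1)) ^ 10 := pow_le_pow_left₀ (by positivity) h2 10
    _ = 2 ^ bb K := by rw [← pow_mul, bb, mul_comm]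

/-- The conditions on the parameters for large `K`. -/
theorem params : ∃ K0 : ℕ, 8 ≤ K0 ∧ ∀ K ≥ K0, ((K ^ 2 : ℕ) : ℝ) ≤ 2 ^ (K / 2) ∧ (K / 2) * 2 ^ (4 * bb K) ≤ 2 ^ (K / 2) := by
  have h1 : Filter.Tendsto (fun m : ℕ => (m : ℝ) ^ 100 / (2 : ℝ) ^ m) Filter.atTop (nhds 0) :=
    tendsto_pow_const_div_const_pow_of_one_lt 100 (by norm_num)
  have h2 : ∀ᶠ m : ℕ in Filter.atTop, (m : ℝ) ^ 100 / (2 : ℝ) ^ m < 1 := h1.eventually (gt_mem_nhds one_pos)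
  obtain ⟨m0, hm0⟩ := Filter.eventually_atTop.1 h2
  refine ⟨max (2 ^ 4) (2 * m0 + 2), by norm_num, fun K hK => ?_⟩
  have hK1 : 2 ^ 4 ≤ K := (le_max_left _ _).trans hK
  have hK2 : 2 * m0 + 2 ≤ K := (le_max_right _ _).trans hK
  obtain ⟨h, hh⟩ : ∃ h, h = K / 2 := ⟨_, rfl⟩
  rw [← hh]
  have hm : m0 ≤ h := by omega
  have h8 : 8 ≤ h := by omega
  have hKh : K ≤ h ^ 2 := by nlinarith [(by omega : K ≤ 2 * h + 1)]
  have h3 := hm0 h hm
  rw [div_lt_one (by positivity)] at h3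
  have h3' : h ^ 100 < 2 ^ h := by exact_mod_cast h3
  constructor
  · have h4 : K ^ 2 ≤ h ^ 100 := by
      calc K ^ 2 ≤ (h ^ 2) ^ 2 := Nat.pow_le_pow_left hKh 2
        _ = h ^ 4 := by ring
        _ ≤ h ^ 100 := Nat.pow_le_pow_right (by omega) (by norm_num)
    exact_mod_cast h4.trans h3'.le
  · have h4 : 2 ^ (4 * bb K) = (2 ^ (Nat.log 2 K + 1)) ^ 40 := by rw [← pow_mul, bb]; congr 1; ring
    have h5 : 2 ^ (Nat.log 2 K + 1) ≤ 2 * K := by
      rw [pow_succ]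
      have := Nat.pow_log_le_self 2 (show K ≠ 0 by omega)
      omega
    have h6 : 2 * K ≤ h ^ 2 := by nlinarith [(by omega : K ≤ 2 * h + 1)]
    calc h * 2 ^ (4 * bb K) = h * (2 ^ (Nat.log 2 K + 1)) ^ 40 := by rw [h4]
      _ ≤ h * (h ^ 2) ^ 40 := Nat.mul_le_mul_left _ (Nat.pow_le_pow_left (h5.trans h6) 40)
      _ = h ^ 81 := by ring
      _ ≤ h ^ 100 := Nat.pow_le_pow_right (by omega) (by norm_num)
      _ ≤ 2 ^ h := h3'.le

/-- The trivial lower bound. -/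
theorem one_le_iter {n : ℤ} (hn : n ≠ 0) (k : ℕ) : 1 ≤ |T^[k] n| := Int.one_le_abs (iter_ne_zero hn k)

/-- Good `n`: at every time. -/
theorem good_all {K : ℕ} (hK : 16 ≤ K) (hb : (K / 2) * 2 ^ (4 * bb K) ≤ 2 ^ (K / 2)) {n : ℤ} (h1 : 2 ^ K ≤ |n|)
    (h2 : |n| < 2 ^ (K + 1)) (hn : n ∉ Bad K (K ^ 2) (bb K) (K / 2)) (k : ℕ) :
    |n| ≤ 2 ^ (3 * (4 * bb K + 2) * (k / (K / 2) + 1)) * |T^[k] n| := by
  have hn0 : n ≠ 0 := by
    rintro rfl
    rw [abs_zero] at h1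
    have : (0 : ℤ) < 2 ^ K := by positivity
    omega
  obtain ⟨h, hh⟩ : ∃ h, h = K / 2 := ⟨_, rfl⟩
  rw [← hh] at hb hn ⊢
  obtain ⟨j, hj⟩ : ∃ j, j = k / h + 1 := ⟨_, rfl⟩
  rw [← hj]
  have hm : 42 ≤ 4 * bb K + 2 := by unfold bb; omega
  obtain ⟨m, hm'⟩ : ∃ m, m = 4 * bb K + 2 := ⟨_, rfl⟩
  have hkj : k ≤ j * h := by
    rw [hj, mul_comm]
    exact (Nat.lt_mul_div_succ k (by omega)).le
  have htriv : K + 1 ≤ 3 * m * j → |n| ≤ 2 ^ (3 * m * j) * |T^[k] n| := by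
    intro h3
    calc |n| ≤ 2 ^ (K + 1) * 1 := by linarith
      _ ≤ 2 ^ (3 * m * j) * |T^[k] n| :=
        mul_le_mul (pow_le_pow_right₀ (by norm_num) h3) (one_le_iter hn0 k) (by norm_num) (by positivity)
  rw [← hm'] at hm ⊢
  by_cases hkH : k ≤ K ^ 2
  · by_cases hmj : m * j ≤ K - h + (4 * bb K + 1)
    · have h3 := descend hb h1 h2 hn j (by rw [← hm']; exact hmj) (by omega) k hkj hkH
      refine h3.trans ?_
      rw [← hm']
      apply mul_le_mul_of_nonneg_right _ (abs_nonneg _)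
      apply pow_le_pow_right₀ (by norm_num)
      nlinarith
    · apply htriv
      have : K / 2 ≤ K - h := by omega
      have h4 : K - h + m ≤ m * j := by omega
      have : 3 * m * j = 3 * (m * j) := by ring
      omega
  · apply htriv
    push Not at hkH
    have h3 : K ≤ k / h := by
      rw [Nat.le_div_iff_mul_le (by omega)]
      nlinarith [(by omega : h ≤ K)]
    have : 3 * m * j = 3 * (m * j) := by ring
    have : 42 * (K + 1) ≤ m * j := Nat.mul_le_mul hm (by omega)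
    omega

/-- From powers of two to powers of the logarithm. -/
theorem pow_le_log {K : ℕ} (hK : 16 ≤ K) {x : ℝ} (h1 : 2 ^ K ≤ x) (h2 : x ≤ 2 ^ (K + 1)) (k : ℕ) :
    (2 : ℝ) ^ (3 * (4 * bb K + 2) * (k / (K / 2) + 1)) ≤ Real.log x ^ (2000 * (1 + k / Real.log x)) := by
  have hK' : (16 : ℝ) ≤ K := by exact_mod_cast hK
  have hx0 : 0 < x := lt_of_lt_of_le (by positivity) h1
  have hl1 : K * Real.log 2 ≤ Real.log x := by
    rw [← Real.log_pow]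
    exact Real.log_le_log (by positivity) h1
  have hl2 : Real.log x ≤ (K + 1) * Real.log 2 := by
    have := Real.log_le_log hx0 h2
    rw [Real.log_pow] at this
    push_cast at this
    exact this
  have hln2 := Real.log_two_gt_d9
  have hln2' := Real.log_two_lt_d9
  obtain ⟨l, hl⟩ : ∃ l, l = Real.log x := ⟨_, rfl⟩
  rw [← hl] at hl1 hl2 ⊢
  have hl3 : 0.69 * K ≤ l := by nlinarith
  have hl4 : l ≤ 0.7 * (K + 1) := by nlinarith
  have hl10 : 10 ≤ l := by linarith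
  have hKl : (K : ℝ) ≤ l ^ 2 := by nlinarith
  -- the power 2 ^ (4 b + 2)
  have h5 : 2 ^ (Nat.log 2 K + 1) ≤ 2 * K := by
    rw [pow_succ]
    have := Nat.pow_log_le_self 2 (show K ≠ 0 by omega)
    omega
  have h5' : (2 : ℝ) ^ (Nat.log 2 K + 1) ≤ 2 * K := by exact_mod_cast h5
  have h6 : (2 : ℝ) ^ (4 * bb K + 2) ≤ K ^ 81 := by
    have e : (2 : ℝ) ^ (4 * bb K + 2) = 4 * (2 ^ (Nat.log 2 K + 1)) ^ 40 := by
      rw [← pow_mul, bb, pow_add]
      rw [show 4 * (10 * (Nat.log 2 K + 1)) = (Nat.log 2 K + 1) * 40 by ring]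
      ring
    rw [e]
    calc (4 : ℝ) * ((2 : ℝ) ^ (Nat.log 2 K + 1)) ^ 40 ≤ (K : ℝ) * ((K : ℝ) ^ 2) ^ 40 := by
          apply mul_le_mul (by linarith) _ (by positivity) (by positivity)
          exact pow_le_pow_left₀ (by positivity) (h5'.trans (by nlinarith)) 40
      _ = (K : ℝ) ^ 81 := by ring
  have h7 : (2 : ℝ) ^ (4 * bb K + 2) ≤ l ^ 162 := by
    calc (2 : ℝ) ^ (4 * bb K + 2) ≤ K ^ 81 := h6
      _ ≤ (l ^ 2) ^ 81 := pow_le_pow_left₀ (by positivity) hKl 81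
      _ = l ^ 162 := by ring
  obtain ⟨j, hj⟩ : ∃ j, j = k / (K / 2) + 1 := ⟨_, rfl⟩
  rw [← hj]
  have hj1 : (j : ℝ) ≤ 4 * (1 + k / l) := by
    have h8 : ((k / (K / 2) : ℕ) : ℝ) ≤ k / ((K / 2 : ℕ) : ℝ) := Nat.cast_div_le
    have h9 : l / 4 ≤ ((K / 2 : ℕ) : ℝ) := by
      have h10 : K ≤ 2 * (K / 2) + 1 := by omega
      have h11 : (K : ℝ) ≤ 2 * ((K / 2 : ℕ) : ℝ) + 1 := by exact_mod_cast h10
      linarith
    have h12 : (k : ℝ) / ((K / 2 : ℕ) : ℝ) ≤ k / (l / 4) :=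
      div_le_div_of_nonneg_left (by positivity) (by linarith) h9
    rw [hj]
    push_cast
    have h13 : (k : ℝ) / (l / 4) = 4 * (k / l) := by field_simp
    rw [h13] at h12
    linarith
  calc (2 : ℝ) ^ (3 * (4 * bb K + 2) * j) = ((2 : ℝ) ^ (4 * bb K + 2)) ^ (3 * j) := by
        rw [← pow_mul]; congr 1; ring
    _ ≤ (l ^ 162) ^ (3 * j) := pow_le_pow_left₀ (by positivity) h7 _
    _ = l ^ ((486 * j : ℕ) : ℝ) := by
        rw [Real.rpow_natCast, ← pow_mul]; congr 1; ring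
    _ ≤ l ^ (2000 * (1 + k / l)) := by
        apply Real.rpow_le_rpow_of_exponent_le (by linarith)
        push_cast
        have : 0 ≤ (k : ℝ) / l := by positivity
        linarith

/-- The bad integers of a dyadic block are few. -/
theorem bad_small (δ : ℝ) (hδ : 0 < δ) : ∃ K0 : ℕ, ∀ K ≥ K0, ((K ^ 2 : ℕ) : ℝ) ≤ 2 ^ (K / 2) →
    ((Bad K (K ^ 2) (bb K) (K / 2)).card : ℝ) ≤ δ * 2 ^ K := by
  obtain ⟨K1, hK1⟩ := exists_nat_gt (216 / δ)
  refine ⟨max K1 2, fun K hK hH => ?_⟩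
  have h1 : K1 ≤ K := (le_max_left _ _).trans hK
  have h2 : 2 ≤ K := (le_max_right _ _).trans hK
  have h1' : 216 / δ < K := lt_of_lt_of_le hK1 (by exact_mod_cast h1)
  have h2' : (2 : ℝ) ≤ K := by exact_mod_cast h2
  have hK0 : (0 : ℝ) < K := by linarith
  rw [div_lt_iff₀ hδ] at h1'
  have h3 := card_Bad K (K ^ 2) (bb K) (K / 2) hH
  have h4 := pow_bb K
  have h5 : ((Bad K (K ^ 2) (bb K) (K / 2)).card : ℝ) * K ^ 10 ≤ 216 * K ^ 8 * 2 ^ K := by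
    have e1 : (2 : ℝ) * (K + 1) ^ 2 * (((K ^ 2 : ℕ) : ℝ) + 2) ^ 3 ≤ 216 * K ^ 8 := by
      push_cast
      have f1 : (K : ℝ) + 1 ≤ 2 * K := by linarith
      have f2 : (K : ℝ) ^ 2 + 2 ≤ 3 * K ^ 2 := by nlinarith
      calc (2 : ℝ) * ((K : ℝ) + 1) ^ 2 * ((K : ℝ) ^ 2 + 2) ^ 3 ≤ 2 * (2 * (K : ℝ)) ^ 2 * (3 * (K : ℝ) ^ 2) ^ 3 := by
            apply mul_le_mul _ (pow_le_pow_left₀ (by positivity) f2 3) (by positivity) (by positivity)
            apply mul_le_mul_of_nonneg_left _ (by norm_num)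
            exact pow_le_pow_left₀ (by positivity) f1 2
        _ = 216 * (K : ℝ) ^ 8 := by ring
    calc ((Bad K (K ^ 2) (bb K) (K / 2)).card : ℝ) * K ^ 10
        ≤ ((Bad K (K ^ 2) (bb K) (K / 2)).card : ℝ) * 2 ^ bb K := mul_le_mul_of_nonneg_left h4 (by positivity)
      _ ≤ 2 * (K + 1) ^ 2 * (((K ^ 2 : ℕ) : ℝ) + 2) ^ 3 * 2 ^ K := h3
      _ ≤ 216 * K ^ 8 * 2 ^ K := mul_le_mul_of_nonneg_right e1 (by positivity)
  have h6 : (216 : ℝ) * K ^ 8 * 2 ^ K ≤ (δ * 2 ^ K) * K ^ 10 := by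
    have e2 : (216 : ℝ) ≤ δ * K ^ 2 := by nlinarith
    calc (216 : ℝ) * K ^ 8 * 2 ^ K ≤ (δ * K ^ 2) * K ^ 8 * 2 ^ K := by
          apply mul_le_mul_of_nonneg_right _ (by positivity)
          exact mul_le_mul_of_nonneg_right e2 (by positivity)
      _ = (δ * 2 ^ K) * K ^ 10 := by ring
  exact le_of_mul_le_mul_right (h5.trans h6) (by positivity)

/-- For almost all integers `n`: no later value is much smaller than `n`. -/
theorem no_return : DensityOne {n : ℤ | ∀ k : ℕ,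
    (|n| : ℝ) ≤ |((T^[k] n : ℤ) : ℝ)| * Real.log |(n : ℝ)| ^ (2000 * (1 + k / Real.log |(n : ℝ)|))} := by
  classical
  obtain ⟨K0, h8, hK0⟩ := params
  refine density_of_events (fun K n => n ∉ Bad K (K ^ 2) (bb K) (K / 2)) _ ⟨max K0 16, ?_⟩ ?_
  · intro K hK n h1 h2 hn k
    have hK0' := hK0 K ((le_max_left _ _).trans hK)
    have h16 : 16 ≤ K := (le_max_right _ _).trans hK
    have h3 := good_all h16 hK0'.2 h1 h2 hn k
    have h1' : (2 : ℝ) ^ K ≤ |(n : ℝ)| := by exact_mod_cast h1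
    have h2' : |(n : ℝ)| ≤ 2 ^ (K + 1) := by exact_mod_cast h2.le
    have h4 := pow_le_log h16 h1' h2' k
    have h3' : |(n : ℝ)| ≤ 2 ^ (3 * (4 * bb K + 2) * (k / (K / 2) + 1)) * |((T^[k] n : ℤ) : ℝ)| := by exact_mod_cast h3
    rw [mul_comm]
    exact h3'.trans (mul_le_mul_of_nonneg_right h4 (abs_nonneg _))
  · intro δ hδ
    obtain ⟨K1, hK1⟩ := bad_small δ hδ
    refine ⟨max K0 K1, fun K hK k0 => ?_⟩
    have h1 := hK0 K ((le_max_left _ _).trans hK)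
    have h2 := hK1 K ((le_max_right _ _).trans hK) h1.1
    refine le_trans ?_ h2
    have h3 : {n : ℤ | n ∈ Ico (k0 * 2 ^ K) ((k0 + 1) * 2 ^ K) ∧ ¬ (n ∉ Bad K (K ^ 2) (bb K) (K / 2))} ⊆
        (Bad K (K ^ 2) (bb K) (K / 2) : Set ℤ) := by
      intro n hn
      exact not_not.1 hn.2
    have h4 := Set.ncard_le_ncard h3 (Finset.finite_toSet _)
    rw [Set.ncard_coe_finset] at h4
    exact_mod_cast h4

end Pool.Agent.MP81cdd9.NR
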