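import Pool.Agent.Lib.MP_81cdd9_nt.NR.E

/-! Few integers come down by a power within `O(log x)` steps. -/

set_option autoImplicit false

namespace Pool.Agent.MP81cdd9.NR

open Finset Pool.Agent.MP81cdd9.HZ

theorem le_two_pow_half {h : ℕ} (hh : 6 ≤ h) : h ≤ 2 ^ (h / 2) := by
  have h1 : ∀ m : ℕ, 3 ≤ m → 2 * m + 1 ≤ 2 ^ m := by
    intro m hm
    induction m, hm using Nat.le_induction with
    | base => norm_num
    | succ m hm ih => rw [pow_succ]; omega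
  have := h1 (h / 2) (by omega)
  omega

theorem sq_le_two_pow {h : ℕ} (hh : 6 ≤ h) : h ^ 2 ≤ 2 ^ h := by
  calc h ^ 2 ≤ (2 ^ (h / 2)) ^ 2 := Nat.pow_le_pow_left (le_two_pow_half hh) 2
    _ = 2 ^ (h / 2 * 2) := by rw [pow_mul]
    _ ≤ 2 ^ h := Nat.pow_le_pow_right (by norm_num) (by omega)

/-- The conditions on the parameters. -/
theorem params2 {c q M b h : ℕ} (hc : 1 ≤ c) (hq : 1 ≤ q) (hM : 24 * (c * q) ≤ M) (hb : b = M / (48 * (c * q)))
    (hh : h = 2 * M / 5) :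
    24 ≤ M ∧ 48 * b ≤ M ∧ 48 * (c * q) * b ≤ M ∧ h * 2 ^ (4 * b) ≤ 2 ^ h ∧ c * (M + 1) ≤ 2 ^ h ∧ M + 1 ≤ 3 * h := by
  have hcq : 1 ≤ c * q := Nat.mul_pos hc hq
  have h1 : 24 ≤ M := by omega
  have h2 : 48 * (c * q) * b ≤ M := by rw [hb]; exact Nat.mul_div_le _ _
  have h3 : 48 * b ≤ M := by
    refine le_trans ?_ h2
    exact Nat.mul_le_mul_right b (by omega)
  have h9 : 9 ≤ h := by omega
  have hcM : 24 * c ≤ M := by
    refine le_trans ?_ hM
    exact Nat.mul_le_mul_left _ (Nat.le_mul_of_pos_right c hq)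
  refine ⟨h1, h3, h2, ?_, ?_, by omega⟩
  · calc h * 2 ^ (4 * b) ≤ 2 ^ (h / 2) * 2 ^ (h / 2) :=
          Nat.mul_le_mul (le_two_pow_half (by omega)) (Nat.pow_le_pow_right (by norm_num) (by omega))
      _ = 2 ^ (h / 2 + h / 2) := by rw [pow_add]
      _ ≤ 2 ^ h := Nat.pow_le_pow_right (by norm_num) (by omega)
  · have h4 : c * (M + 1) ≤ h ^ 2 := by
      have h5 : M + 1 ≤ 3 * h := by omega
      have h6 : c ≤ h / 3 := by omega
      calc c * (M + 1) ≤ (h / 3) * (3 * h) := Nat.mul_le_mul h6 h5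
        _ = (h / 3 * 3) * h := by ring
        _ ≤ h * h := Nat.mul_le_mul_right _ (Nat.div_mul_le_self h 3)
        _ = h ^ 2 := by ring
    exact h4.trans (sq_le_two_pow (by omega))

/-- An integer which comes down within `c (M + 1)` steps is small or bad. -/
theorem low_bad {c q M b h : ℕ} (hc : 1 ≤ c) (hq : 1 ≤ q) (hM : 24 * (c * q) ≤ M) (hb : b = M / (48 * (c * q)))
    (hh : h = 2 * M / 5) {n : ℤ} (hn : |n| < 2 ^ (M + 1)) {k : ℕ} (hk : k ≤ c * (M + 1))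
    (hlow : |T^[k] n| ^ q ≤ 2 ^ ((M + 1) * (q - 1))) :
    |n| < 2 ^ (M - b) ∨ ∃ K ∈ Finset.Icc (M - b) M, n ∈ Bad K (c * (M + 1)) b h := by
  obtain ⟨h1, h2, h3, h4, h5, h6⟩ := params2 hc hq hM hb hh
  by_contra hcon
  push Not at hcon
  obtain ⟨hbig, hgood⟩ := hcon
  have hn0 : n ≠ 0 := by
    rintro rfl
    rw [abs_zero] at hbig
    have : (0 : ℤ) < 2 ^ (M - b) := by positivity
    omega
  obtain ⟨K, hK⟩ : ∃ K, K = Nat.log 2 n.natAbs := ⟨_, rfl⟩
  have hK1 : (2 : ℤ) ^ K ≤ |n| := by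
    rw [← Int.natCast_natAbs]
    have := Nat.pow_log_le_self 2 (Int.natAbs_ne_zero.2 hn0)
    rw [← hK] at this
    exact_mod_cast this
  have hK2 : |n| < 2 ^ (K + 1) := by
    rw [← Int.natCast_natAbs]
    have := Nat.lt_pow_succ_log_self (b := 2) (by norm_num) n.natAbs
    rw [← hK] at this
    exact_mod_cast this
  have hKM : K ≤ M := by
    by_contra hcon
    push Not at hcon
    have : (2 : ℤ) ^ (M + 1) ≤ 2 ^ K := pow_le_pow_right₀ (by norm_num) hcon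
    linarith
  have hKb : M - b ≤ K := by
    by_contra hcon
    push Not at hcon
    have : (2 : ℤ) ^ (K + 1) ≤ 2 ^ (M - b) := pow_le_pow_right₀ (by norm_num) hcon
    linarith
  have hnb := hgood K (Finset.mem_Icc.2 ⟨hKb, hKM⟩)
  have hqD : 2 * (q * ((4 * b + 2) * (3 * c))) ≤ M := by
    have e : 2 * (q * ((4 * b + 2) * (3 * c))) = 24 * (c * q) * b + 12 * (c * q) := by ring
    have e2 : 48 * (c * q) * b = 2 * (24 * (c * q) * b) := by ring
    omega
  obtain ⟨D, hD⟩ : ∃ D, D = (4 * b + 2) * (3 * c) := ⟨_, rfl⟩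
  rw [← hD] at hqD
  have hDM : 2 * D ≤ M := by
    refine le_trans ?_ hqD
    exact Nat.mul_le_mul_left _ (Nat.le_mul_of_pos_left D hq)
  have hdes := descend h4 hK1 hK2 hnb (3 * c) (by rw [← hD]; omega) (by omega) k (by
    calc k ≤ c * (M + 1) := hk
      _ ≤ c * (3 * h) := Nat.mul_le_mul_left _ h6
      _ = 3 * c * h := by ring) hk
  rw [← hD] at hdes
  -- the lower bound for the q-th power
  have hbD : b + D ≤ M := by omega
  have hlow2 : (2 : ℤ) ^ (M - b - D) ≤ |T^[k] n| := by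
    have h7 : (2 : ℤ) ^ D * 2 ^ (M - b - D) ≤ 2 ^ D * |T^[k] n| := by
      rw [← pow_add, show D + (M - b - D) = M - b by omega]
      exact hbig.trans hdes
    exact le_of_mul_le_mul_left h7 (by positivity)
  have h8 : ((2 : ℤ) ^ (M - b - D)) ^ q ≤ 2 ^ ((M + 1) * (q - 1)) :=
    (pow_le_pow_left₀ (by positivity) hlow2 q).trans hlow
  rw [← pow_mul] at h8
  have h9 : (M - b - D) * q ≤ (M + 1) * (q - 1) := by
    by_contra hcon
    push Not at hcon
    have : (2 : ℤ) ^ ((M + 1) * (q - 1)) < 2 ^ ((M - b - D) * q) := pow_lt_pow_right₀ (by norm_num) hcon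
    linarith
  obtain ⟨r, rfl⟩ : ∃ r, q = r + 1 := ⟨q - 1, by omega⟩
  obtain ⟨z, hz⟩ : ∃ z, M = b + D + z := ⟨M - b - D, by omega⟩
  have e1 : M - b - D = z := by omega
  rw [e1, Nat.add_sub_cancel] at h9
  -- z (r+1) ≤ (M+1) r
  have h10 : (r + 1) * b ≤ M / 48 := by
    rw [Nat.le_div_iff_mul_le (by norm_num)]
    have : (r + 1) * b * 48 ≤ 48 * (c * (r + 1)) * b := by
      have : (r + 1) * b * 48 = 48 * (1 * (r + 1)) * b := by ring
      rw [this]
      exact Nat.mul_le_mul_right _ (Nat.mul_le_mul_left _ (Nat.mul_le_mul_right _ hc))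
    omega
  have h11 : 24 * (r + 1) ≤ M := by
    refine le_trans ?_ hM
    exact Nat.mul_le_mul_left _ (Nat.le_mul_of_pos_left _ hc)
  have h12 : z * (r + 1) = M * (r + 1) - (r + 1) * b - (r + 1) * D := by
    rw [hz]
    have : (b + D + z) * (r + 1) = (r + 1) * b + (r + 1) * D + z * (r + 1) := by ring
    omega
  have h13 : (M + 1) * r = M * (r + 1) - M + r := by
    have : M * (r + 1) = M * r + M := by ring
    have : (M + 1) * r = M * r + r := by ring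
    omega
  have h14 : M ≤ M * (r + 1) := Nat.le_mul_of_pos_right _ (by omega)
  have h15 : 2 * ((r + 1) * D) ≤ M := by
    have : 2 * ((r + 1) * D) = 2 * ((r + 1) * D) := rfl
    omega
  omega

open Classical in
/-- The integers of `[-(2^(M+1) - 1), 2^(M+1) - 1]` which come down within `c (M + 1)` steps. -/
noncomputable def Low (c q M : ℕ) : Finset ℤ :=
  (Ioo (-(2 : ℤ) ^ (M + 1)) (2 ^ (M + 1))).filter (fun n => ∃ k ≤ c * (M + 1), |T^[k] n| ^ q ≤ 2 ^ ((M + 1) * (q - 1)))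

theorem card_Low {c q M b : ℕ} (hc : 1 ≤ c) (hq : 1 ≤ q) (hM : 24 * (c * q) ≤ M) (hb : b = M / (48 * (c * q))) :
    ((Low c q M).card : ℝ) * 2 ^ b ≤ (2 + 4 * (M + 1) ^ 2 * (c * (M + 1) + 2) ^ 3) * 2 ^ M := by
  classical
  obtain ⟨h, hh⟩ : ∃ h, h = 2 * M / 5 := ⟨_, rfl⟩
  obtain ⟨h1, h2, h3, h4, h5, h6⟩ := params2 hc hq hM hb hh
  have hsub : Low c q M ⊆ Ioo (-(2 : ℤ) ^ (M - b)) (2 ^ (M - b)) ∪
      (Finset.Icc (M - b) M).biUnion (fun K => Bad K (c * (M + 1)) b h) := by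
    intro n hn
    unfold Low at hn
    rw [Finset.mem_filter, Finset.mem_Ioo, ← abs_lt] at hn
    obtain ⟨h7, k, hk, hlow⟩ := hn
    rw [Finset.mem_union, Finset.mem_Ioo, ← abs_lt, Finset.mem_biUnion]
    exact low_bad hc hq hM hb hh h7 hk hlow
  have hcard := (Finset.card_le_card hsub).trans (Finset.card_union_le _ _)
  have hI : ((Ioo (-(2 : ℤ) ^ (M - b)) (2 ^ (M - b))).card : ℝ) ≤ 2 * 2 ^ (M - b) := by
    rw [Int.card_Ioo]
    have e : (2 : ℤ) ^ (M - b) - -2 ^ (M - b) - 1 = ((2 * 2 ^ (M - b) - 1 : ℕ) : ℤ) := by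
      have : 1 ≤ 2 * 2 ^ (M - b) := by
        have := Nat.one_le_two_pow (n := M - b)
        omega
      push_cast [Nat.cast_sub this]
      ring
    rw [e, Int.toNat_natCast]
    have : 2 * 2 ^ (M - b) - 1 ≤ 2 * 2 ^ (M - b) := Nat.sub_le _ _
    exact_mod_cast this
  have hbM : b ≤ M := by omega
  have hI2 : (2 : ℝ) * 2 ^ (M - b) * 2 ^ b = 2 * 2 ^ M := by
    rw [mul_assoc, ← pow_add, Nat.sub_add_cancel hbM]
  have hK : ∀ K ∈ Finset.Icc (M - b) M, ((Bad K (c * (M + 1)) b h).card : ℝ) * 2 ^ b ≤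
      2 * (M + 1) ^ 2 * (c * (M + 1) + 2) ^ 3 * 2 ^ K := by
    intro K hK
    have hKM : (K : ℝ) ≤ M := by exact_mod_cast (Finset.mem_Icc.1 hK).2
    have h7 := card_Bad K (c * (M + 1)) b h (by exact_mod_cast h5)
    refine h7.trans ?_
    push_cast
    apply mul_le_mul_of_nonneg_right _ (by positivity)
    apply mul_le_mul_of_nonneg_right _ (by positivity)
    apply mul_le_mul_of_nonneg_left _ (by norm_num)
    exact pow_le_pow_left₀ (by positivity) (by linarith) 2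
  have hsum : (((Finset.Icc (M - b) M).biUnion (fun K => Bad K (c * (M + 1)) b h)).card : ℝ) * 2 ^ b ≤
      4 * (M + 1) ^ 2 * (c * (M + 1) + 2) ^ 3 * 2 ^ M := by
    have h8 : (((Finset.Icc (M - b) M).biUnion (fun K => Bad K (c * (M + 1)) b h)).card : ℝ) ≤
        ∑ K ∈ Finset.Icc (M - b) M, ((Bad K (c * (M + 1)) b h).card : ℝ) := by
      exact_mod_cast Finset.card_biUnion_le
    have h9 : ∑ K ∈ Finset.Icc (M - b) M, (2 : ℝ) ^ K ≤ 2 * 2 ^ M := by
      have h10 : Finset.Icc (M - b) M ⊆ range (M + 1) := by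
        intro K hK
        rw [Finset.mem_range]
        have := (Finset.mem_Icc.1 hK).2
        omega
      have h11 : ∑ K ∈ range (M + 1), (2 : ℝ) ^ K = 2 * 2 ^ M - 1 := by
        rw [geom_sum_eq (by norm_num), pow_succ]
        ring
      have h12 : ∑ K ∈ Finset.Icc (M - b) M, (2 : ℝ) ^ K ≤ ∑ K ∈ range (M + 1), (2 : ℝ) ^ K :=
        Finset.sum_le_sum_of_subset_of_nonneg h10 (fun K _ _ => by positivity)
      linarith
    calc (((Finset.Icc (M - b) M).biUnion (fun K => Bad K (c * (M + 1)) b h)).card : ℝ) * 2 ^ b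
        ≤ (∑ K ∈ Finset.Icc (M - b) M, ((Bad K (c * (M + 1)) b h).card : ℝ)) * 2 ^ b :=
          mul_le_mul_of_nonneg_right h8 (by positivity)
      _ = ∑ K ∈ Finset.Icc (M - b) M, ((Bad K (c * (M + 1)) b h).card : ℝ) * 2 ^ b := by rw [Finset.sum_mul]
      _ ≤ ∑ K ∈ Finset.Icc (M - b) M, (2 : ℝ) * (M + 1) ^ 2 * (c * (M + 1) + 2) ^ 3 * 2 ^ K := Finset.sum_le_sum hK
      _ = 2 * (M + 1) ^ 2 * (c * (M + 1) + 2) ^ 3 * ∑ K ∈ Finset.Icc (M - b) M, (2 : ℝ) ^ K := by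
          rw [Finset.mul_sum]
      _ ≤ 2 * (M + 1) ^ 2 * (c * (M + 1) + 2) ^ 3 * (2 * 2 ^ M) := mul_le_mul_of_nonneg_left h9 (by positivity)
      _ = 4 * (M + 1) ^ 2 * (c * (M + 1) + 2) ^ 3 * 2 ^ M := by ring
  have hcard' : ((Low c q M).card : ℝ) ≤ ((Ioo (-(2 : ℤ) ^ (M - b)) (2 ^ (M - b))).card : ℝ) +
      (((Finset.Icc (M - b) M).biUnion (fun K => Bad K (c * (M + 1)) b h)).card : ℝ) := by exact_mod_cast hcard
  calc ((Low c q M).card : ℝ) * 2 ^ b
      ≤ (((Ioo (-(2 : ℤ) ^ (M - b)) (2 ^ (M - b))).card : ℝ) +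
      (((Finset.Icc (M - b) M).biUnion (fun K => Bad K (c * (M + 1)) b h)).card : ℝ)) * 2 ^ b :=
        mul_le_mul_of_nonneg_right hcard' (by positivity)
    _ ≤ 2 * 2 ^ M + 4 * (M + 1) ^ 2 * (c * (M + 1) + 2) ^ 3 * 2 ^ M := by
        rw [add_mul]
        apply add_le_add _ hsum
        rw [← hI2]
        exact mul_le_mul_of_nonneg_right hI (by positivity)
    _ = (2 + 4 * (M + 1) ^ 2 * (c * (M + 1) + 2) ^ 3) * 2 ^ M := by ring

end Pool.Agent.MP81cdd9.NR
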