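import Pool.Agent.Lib.MP_81cdd9_nt.NR.F

/-! The real form of the count. -/

set_option autoImplicit false

namespace Pool.Agent.MP81cdd9.NR

open Finset Pool.Agent.MP81cdd9.HZ

/-- The integers up to `x` which reach the size `x ^ (1 - ε)` within `τ log x` steps. -/
def LowR (τ ε x : ℝ) : Set ℤ :=
  {n : ℤ | |(n : ℝ)| ≤ x ∧ ∃ k : ℕ, (k : ℝ) ≤ τ * Real.log x ∧ |((T^[k] n : ℤ) : ℝ)| ≤ x ^ (1 - ε)}

theorem lowR_sub {τ ε x : ℝ} (hε : 0 < ε) (hx : 1 ≤ x) {c q M : ℕ} (hc : τ ≤ c) (hq : 1 ≤ q)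
    (hqε : 1 / ε ≤ q) (hM : x < 2 ^ (M + 1)) : LowR τ ε x ⊆ (Low c q M : Set ℤ) := by
  classical
  rintro n ⟨h1, k, hk, h2⟩
  have hl : Real.log x ≤ M + 1 := by
    have h3 : Real.log x ≤ Real.log (2 ^ (M + 1)) := Real.log_le_log (by linarith) hM.le
    rw [Real.log_pow] at h3
    push_cast at h3
    have := Real.log_two_lt_d9
    nlinarith
  have hl0 : 0 ≤ Real.log x := Real.log_nonneg hx
  unfold Low
  rw [Finset.mem_coe, Finset.mem_filter, Finset.mem_Ioo, ← abs_lt]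
  refine ⟨?_, k, ?_, ?_⟩
  · have h4 : |(n : ℝ)| < 2 ^ (M + 1) := lt_of_le_of_lt h1 hM
    exact_mod_cast h4
  · have h4 : (k : ℝ) ≤ c * (M + 1) := by
      calc (k : ℝ) ≤ τ * Real.log x := hk
        _ ≤ c * Real.log x := mul_le_mul_of_nonneg_right hc hl0
        _ ≤ c * (M + 1) := mul_le_mul_of_nonneg_left hl (by positivity)
    exact_mod_cast h4
  · have h5 : |((T^[k] n : ℤ) : ℝ)| ^ q ≤ (2 ^ (M + 1)) ^ (q - 1) := by
      have hqε' : 1 ≤ ε * q := by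
        rw [div_le_iff₀ hε] at hqε
        linarith
      calc |((T^[k] n : ℤ) : ℝ)| ^ q ≤ (x ^ (1 - ε)) ^ q := pow_le_pow_left₀ (abs_nonneg _) h2 q
        _ = x ^ ((1 - ε) * q) := by rw [← Real.rpow_natCast, ← Real.rpow_mul (by linarith)]
        _ ≤ x ^ (((q - 1 : ℕ) : ℝ)) := by
            apply Real.rpow_le_rpow_of_exponent_le hx
            rw [Nat.cast_sub hq]
            push_cast
            linarith
        _ = x ^ (q - 1) := Real.rpow_natCast _ _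
        _ ≤ (2 ^ (M + 1)) ^ (q - 1) := pow_le_pow_left₀ (by linarith) hM.le _
    rw [← pow_mul] at h5
    exact_mod_cast h5

theorem card_Low_trivial (c q M : ℕ) : ((Low c q M).card : ℝ) ≤ 4 * 2 ^ M := by
  classical
  have h1 : (Low c q M).card ≤ (Ioo (-(2 : ℤ) ^ (M + 1)) (2 ^ (M + 1))).card := Finset.card_filter_le _ _
  have hI : (Ioo (-(2 : ℤ) ^ (M + 1)) (2 ^ (M + 1))).card ≤ 2 * 2 ^ (M + 1) := by
    rw [Int.card_Ioo]
    have e : (2 : ℤ) ^ (M + 1) - -2 ^ (M + 1) - 1 ≤ ((2 * 2 ^ (M + 1) : ℕ) : ℤ) := by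
      push_cast
      linarith
    have := Int.toNat_le_toNat e
    rwa [Int.toNat_natCast] at this
  have h2 : ((Low c q M).card : ℝ) ≤ 2 * 2 ^ (M + 1) := by exact_mod_cast h1.trans hI
  rw [pow_succ] at h2
  linarith

/-- Few integers come down by the power `1 - ε` within `τ log x` steps. -/
theorem count_low {τ ε x : ℝ} (hτ : 1 ≤ τ) (hε : 0 < ε) (hε1 : ε ≤ 1) (hx : 2 ≤ x) :
    ((LowR τ ε x).ncard : ℝ) ≤ 100000 * (τ * Real.log x) ^ 5 * x ^ (1 - ε / (200 * τ)) := by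
  classical
  have hx0 : 0 < x := by linarith
  obtain ⟨M, hMdef⟩ : ∃ M, M = Nat.log 2 ⌊x⌋₊ := ⟨_, rfl⟩
  have hX : 2 ≤ ⌊x⌋₊ := Nat.le_floor (by exact_mod_cast hx)
  have hM1 : 2 ^ M ≤ ⌊x⌋₊ := by
    rw [hMdef]
    exact Nat.pow_log_le_self 2 (by omega)
  have hM2 : ⌊x⌋₊ < 2 ^ (M + 1) := by
    rw [hMdef]
    exact Nat.lt_pow_succ_log_self (by norm_num) _
  have hMx : (2 : ℝ) ^ M ≤ x := by
    have h1 : ((2 ^ M : ℕ) : ℝ) ≤ ⌊x⌋₊ := by exact_mod_cast hM1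
    push_cast at h1
    exact h1.trans (Nat.floor_le hx0.le)
  have hxM : x < 2 ^ (M + 1) := by
    have h1 : ((⌊x⌋₊ + 1 : ℕ) : ℝ) ≤ ((2 ^ (M + 1) : ℕ) : ℝ) := by exact_mod_cast hM2
    push_cast at h1
    exact lt_of_lt_of_le (Nat.lt_floor_add_one x) h1
  have hM0 : 1 ≤ M := by
    by_contra hcon
    have : M = 0 := by omega
    rw [this] at hM2
    omega
  obtain ⟨c, hcdef⟩ : ∃ c, c = ⌈τ⌉₊ := ⟨_, rfl⟩
  obtain ⟨q, hqdef⟩ : ∃ q, q = ⌈1 / ε⌉₊ := ⟨_, rfl⟩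
  have hc1 : τ ≤ c := by rw [hcdef]; exact Nat.le_ceil τ
  have hc2 : (c : ℝ) ≤ 2 * τ := by
    have := Nat.ceil_lt_add_one (show 0 ≤ τ by linarith)
    rw [← hcdef] at this
    linarith
  have hc : 1 ≤ c := by
    have : (1 : ℝ) ≤ c := hτ.trans hc1
    exact_mod_cast this
  have hε' : 1 ≤ 1 / ε := by rwa [le_div_iff₀ hε, one_mul]
  have hq1 : 1 / ε ≤ q := by rw [hqdef]; exact Nat.le_ceil _
  have hq2 : (q : ℝ) ≤ 2 * (1 / ε) := by
    have := Nat.ceil_lt_add_one (show 0 ≤ 1 / ε by linarith)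
    rw [← hqdef] at this
    linarith
  have hq : 1 ≤ q := by
    have : (1 : ℝ) ≤ q := hε'.trans hq1
    exact_mod_cast this
  have hcq : (c : ℝ) * q ≤ 4 * (τ / ε) := by
    calc (c : ℝ) * q ≤ (2 * τ) * (2 * (1 / ε)) := mul_le_mul hc2 hq2 (by positivity) (by linarith)
      _ = 4 * (τ / ε) := by ring
  have hcq1 : (1 : ℝ) ≤ (c : ℝ) * q := by
    have : 1 ≤ c * q := Nat.mul_pos hc hq
    exact_mod_cast this
  have hsub := lowR_sub (τ := τ) hε (by linarith) hc1 hq hq1 hxM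
  have hcard : ((LowR τ ε x).ncard : ℝ) ≤ ((Low c q M).card : ℝ) := by
    have h1 := Set.ncard_le_ncard hsub (Finset.finite_toSet _)
    rw [Set.ncard_coe_finset] at h1
    exact_mod_cast h1
  refine hcard.trans ?_
  -- the logarithm
  obtain ⟨l, hl⟩ : ∃ l, l = Real.log x := ⟨_, rfl⟩
  rw [← hl]
  have hln2 := Real.log_two_gt_d9
  have hln2' := Real.log_two_lt_d9
  have hMr : (1 : ℝ) ≤ M := by exact_mod_cast hM0
  have hl1 : M * Real.log 2 ≤ l := by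
    rw [hl, ← Real.log_pow]
    exact Real.log_le_log (by positivity) hMx
  have hMl : (M : ℝ) + 1 ≤ 3 * l := by nlinarith
  have hl0 : 0.69 ≤ l := by nlinarith
  have hτl : l ≤ τ * l := by nlinarith
  have hτl0 : 0.69 ≤ τ * l := hl0.trans hτl
  have h5 : 0.15 ≤ (τ * l) ^ 5 := by
    calc (0.15 : ℝ) ≤ 0.69 ^ 5 := by norm_num
      _ ≤ (τ * l) ^ 5 := pow_le_pow_left₀ (by norm_num) hτl0 5
  obtain ⟨δ, hδ⟩ : ∃ δ, δ = ε / (200 * τ) := ⟨_, rfl⟩
  rw [← hδ]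
  have hδ0 : 0 < δ := by rw [hδ]; positivity
  have hδcq : δ * (c * q) ≤ 1 / 50 := by
    calc δ * (c * q) ≤ δ * (4 * (τ / ε)) := mul_le_mul_of_nonneg_left hcq hδ0.le
      _ = 1 / 50 := by
          rw [hδ]
          field_simp
          norm_num
  have hsplit : x = x ^ (1 - δ) * x ^ δ := by
    rw [← Real.rpow_add hx0]
    norm_num
  have hxd0 : 0 < x ^ (1 - δ) := Real.rpow_pos_of_pos hx0 _
  by_cases hcase : 24 * (c * q) ≤ M
  · obtain ⟨b, hb⟩ : ∃ b, b = M / (48 * (c * q)) := ⟨_, rfl⟩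
    have h6 := card_Low hc hq hcase hb
    -- 2 ^ b
    have hb1 : M + 1 ≤ (b + 1) * (48 * (c * q)) := by
      have := Nat.lt_mul_div_succ M (show 0 < 48 * (c * q) by
        have := Nat.mul_pos hc hq
        omega)
      rw [← hb, mul_comm] at this
      omega
    have h7 : x ^ δ ≤ 2 * 2 ^ b := by
      have h8 : x ≤ (2 : ℝ) ^ (((b + 1) * (48 * (c * q)) : ℕ)) := hxM.le.trans (pow_le_pow_right₀ (by norm_num) hb1)
      calc x ^ δ ≤ ((2 : ℝ) ^ (((b + 1) * (48 * (c * q)) : ℕ))) ^ δ := Real.rpow_le_rpow hx0.le h8 hδ0.le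
        _ = (2 : ℝ) ^ ((((b + 1) * (48 * (c * q)) : ℕ) : ℝ) * δ) := by
            rw [← Real.rpow_natCast, ← Real.rpow_mul (by norm_num)]
        _ ≤ (2 : ℝ) ^ (((b + 1 : ℕ) : ℝ)) := by
            apply Real.rpow_le_rpow_of_exponent_le (by norm_num)
            push_cast
            have h9 : 48 * ((c : ℝ) * q) * δ ≤ 1 := by linarith
            have h10 : (0 : ℝ) ≤ b + 1 := by positivity
            calc ((b : ℝ) + 1) * (48 * (c * q)) * δ = (b + 1) * (48 * (c * q) * δ) := by ring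
              _ ≤ (b + 1) * 1 := mul_le_mul_of_nonneg_left h9 h10
              _ = b + 1 := by ring
        _ = 2 * 2 ^ b := by rw [Real.rpow_natCast, pow_succ]; ring
    have hpoly : (2 : ℝ) + 4 * (M + 1) ^ 2 * (c * (M + 1) + 2) ^ 3 ≤ 26300 * (τ * l) ^ 5 := by
      have f1 : ((M : ℝ) + 1) ^ 2 ≤ (3 * (τ * l)) ^ 2 := pow_le_pow_left₀ (by positivity) (by linarith) 2
      have f2 : (c : ℝ) * (M + 1) ≤ (2 * τ) * (3 * l) := mul_le_mul hc2 hMl (by positivity) (by linarith)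
      have f3 : ((c : ℝ) * (M + 1) + 2) ^ 3 ≤ (9 * (τ * l)) ^ 3 := pow_le_pow_left₀ (by positivity) (by linarith) 3
      have f4 : (4 : ℝ) * (M + 1) ^ 2 * (c * (M + 1) + 2) ^ 3 ≤ 4 * (3 * (τ * l)) ^ 2 * (9 * (τ * l)) ^ 3 :=
        mul_le_mul (mul_le_mul_of_nonneg_left f1 (by norm_num)) f3 (by positivity) (by positivity)
      have f5 : (4 : ℝ) * (3 * (τ * l)) ^ 2 * (9 * (τ * l)) ^ 3 = 26244 * (τ * l) ^ 5 := by ring
      linarith
    have h2b : (0 : ℝ) < 2 ^ b := by positivity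
    have h11 : ((Low c q M).card : ℝ) * 2 ^ b ≤ (100000 * (τ * l) ^ 5 * x ^ (1 - δ)) * 2 ^ b := by
      calc ((Low c q M).card : ℝ) * 2 ^ b ≤ (2 + 4 * (M + 1) ^ 2 * (c * (M + 1) + 2) ^ 3) * 2 ^ M := h6
        _ ≤ (26300 * (τ * l) ^ 5) * x := mul_le_mul hpoly hMx (by positivity) (by positivity)
        _ = (26300 * (τ * l) ^ 5) * (x ^ (1 - δ) * x ^ δ) := by rw [← hsplit]
        _ ≤ (26300 * (τ * l) ^ 5) * (x ^ (1 - δ) * (2 * 2 ^ b)) := by
            apply mul_le_mul_of_nonneg_left _ (by positivity)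
            exact mul_le_mul_of_nonneg_left h7 hxd0.le
        _ = 52600 * ((τ * l) ^ 5 * x ^ (1 - δ) * 2 ^ b) := by ring
        _ ≤ 100000 * ((τ * l) ^ 5 * x ^ (1 - δ) * 2 ^ b) := by
            apply mul_le_mul_of_nonneg_right (by norm_num)
            positivity
        _ = (100000 * (τ * l) ^ 5 * x ^ (1 - δ)) * 2 ^ b := by ring
    exact le_of_mul_le_mul_right h11 h2b
  · push Not at hcase
    have h6 := card_Low_trivial c q M
    have h7 : x ^ δ ≤ 2 := by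
      have h8 : x ≤ (2 : ℝ) ^ ((24 * (c * q) : ℕ)) := hxM.le.trans (pow_le_pow_right₀ (by norm_num) hcase)
      calc x ^ δ ≤ ((2 : ℝ) ^ ((24 * (c * q) : ℕ))) ^ δ := Real.rpow_le_rpow hx0.le h8 hδ0.le
        _ = (2 : ℝ) ^ (((24 * (c * q) : ℕ) : ℝ) * δ) := by
            rw [← Real.rpow_natCast, ← Real.rpow_mul (by norm_num)]
        _ ≤ (2 : ℝ) ^ (1 : ℝ) := by
            apply Real.rpow_le_rpow_of_exponent_le (by norm_num)
            push_cast
            linarith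
        _ = 2 := Real.rpow_one _
    calc ((Low c q M).card : ℝ) ≤ 4 * 2 ^ M := h6
      _ ≤ 4 * x := by linarith
      _ = 4 * (x ^ (1 - δ) * x ^ δ) := by rw [← hsplit]
      _ ≤ 4 * (x ^ (1 - δ) * 2) := by
          apply mul_le_mul_of_nonneg_left _ (by norm_num)
          exact mul_le_mul_of_nonneg_left h7 hxd0.le
      _ = 8 * x ^ (1 - δ) := by ring
      _ ≤ (100000 * (τ * l) ^ 5) * x ^ (1 - δ) := by
          apply mul_le_mul_of_nonneg_right _ hxd0.le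
          linarith

end Pool.Agent.MP81cdd9.NR
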