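import Pool.Agent.Lib.MP_81cdd9_nt.NR.E

/-! Few integers stay small for a whole period: entropy. -/

set_option autoImplicit false

namespace Pool.Agent.MP81cdd9.NR

open Finset Pool.Agent.MP81cdd9.HZ

/-- Parity words with few odd terms. -/
def Few (m L : ℕ) (S : Finset ℕ) : Prop := 5 ^ cnt S L ≤ 2 ^ m

open Classical in
theorem card_few (L m : ℕ) :
    (((range L).powerset.filter (Few m L)).card : ℝ) ≤ (1.7648 : ℝ) ^ L * 1.1225 ^ m := by
  set A := (range L).powerset.filter (Few m L) with hA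
  have hw : ∀ S ∈ A, (1 : ℝ) ≤ 1.1225 ^ m * 0.7648 ^ cnt S L := by
    intro S hS
    have h1 : 5 ^ cnt S L ≤ 2 ^ m := (Finset.mem_filter.1 hS).2
    have h2 : (5 : ℝ) ^ cnt S L ≤ 2 ^ m := by exact_mod_cast h1
    have h3 : (1 : ℝ) ^ 6 ≤ ((1.1225 : ℝ) ^ m * 0.7648 ^ cnt S L) ^ 6 := by
      have h5 : ((1.1225 : ℝ) ^ m * 0.7648 ^ cnt S L) ^ 6 = ((1.1225 : ℝ) ^ 6) ^ m * ((0.7648 : ℝ) ^ 6) ^ cnt S L := by
        rw [mul_pow, ← pow_mul, ← pow_mul, ← pow_mul, ← pow_mul, mul_comm m, mul_comm (cnt S L)]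
      have h6 : (2 : ℝ) ^ m ≤ ((1.1225 : ℝ) ^ 6) ^ m := pow_le_pow_left₀ (by norm_num) (by norm_num) _
      have h7 : (1 / 5 : ℝ) ^ cnt S L ≤ ((0.7648 : ℝ) ^ 6) ^ cnt S L := pow_le_pow_left₀ (by norm_num) (by norm_num) _
      have h8 : (1 : ℝ) ≤ 2 ^ m * (1 / 5) ^ cnt S L := by
        rw [one_div, inv_pow, ← div_eq_mul_inv, le_div_iff₀ (by positivity)]
        linarith
      rw [one_pow, h5]
      exact h8.trans (mul_le_mul h6 h7 (by positivity) (by positivity))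
    exact le_of_pow_le_pow_left₀ (by norm_num) (by positivity) h3
  calc (A.card : ℝ) = ∑ S ∈ A, (1 : ℝ) := by simp
    _ ≤ ∑ S ∈ A, (1.1225 : ℝ) ^ m * 0.7648 ^ cnt S L := Finset.sum_le_sum hw
    _ ≤ ∑ S ∈ (range L).powerset, (1.1225 : ℝ) ^ m * 0.7648 ^ cnt S L :=
      Finset.sum_le_sum_of_subset_of_nonneg (Finset.filter_subset _ _) (fun S _ _ => by positivity)
    _ = (1.7648 : ℝ) ^ L * 1.1225 ^ m := by
      rw [← Finset.mul_sum, sum_weight L L le_rfl]
      norm_num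
      ring

open Classical in
/-- The integers of size about `2 ^ L` whose next `L` parities have few odd terms. -/
noncomputable def FlatY (m L : ℕ) : Finset ℤ :=
  (Ioo (-(2 : ℤ) ^ (L + 1)) (2 ^ (L + 1))).filter (fun y => 2 ^ L ≤ |y| ∧ Few m L (par L y))

open Classical in
theorem mem_FlatY {m L : ℕ} {y : ℤ} : y ∈ FlatY m L ↔ 2 ^ L ≤ |y| ∧ |y| < 2 ^ (L + 1) ∧ Few m L (par L y) := by
  unfold FlatY
  rw [Finset.mem_filter, Finset.mem_Ioo, abs_lt]
  tauto

theorem card_FlatY {m L : ℕ} (hL : L ≤ m) : ((FlatY m L).card : ℝ) ≤ 2 * 1.981 ^ m := by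
  classical
  have h1 : FlatY m L ⊆ (Ico ((2 : ℤ) ^ L) (2 ^ L + 2 ^ L)).filter (fun n => Few m L (par L n)) ∪
      (Ico (-(2 : ℤ) ^ (L + 1) + 1) (-(2 : ℤ) ^ (L + 1) + 1 + 2 ^ L)).filter (fun n => Few m L (par L n)) := by
    intro y hy
    obtain ⟨h1, h2, h3⟩ := mem_FlatY.1 hy
    rw [Finset.mem_union, Finset.mem_filter, Finset.mem_filter, Finset.mem_Ico, Finset.mem_Ico]
    have h4 : (2 : ℤ) ^ (L + 1) = 2 * 2 ^ L := by ring
    rw [abs_lt] at h2
    rcases le_abs.1 h1 with h5 | h5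
    · left; exact ⟨⟨h5, by linarith [h2.2]⟩, h3⟩
    · right; exact ⟨⟨by linarith [h2.1], by linarith⟩, h3⟩
  have h2 := (Finset.card_le_card h1).trans (Finset.card_union_le _ _)
  have h3 := h2.trans (add_le_add (transfer' L _ (Few m L)) (transfer' L _ (Few m L)))
  have h4 : ((FlatY m L).card : ℝ) ≤ 2 * (((range L).powerset.filter (Few m L)).card : ℝ) := by
    have h5 : (FlatY m L).card ≤ 2 * ((range L).powerset.filter (Few m L)).card := by
      rw [two_mul]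
      exact h3
    exact_mod_cast h5
  have h5 := card_few L m
  have h6 : (1.7648 : ℝ) ^ L * 1.1225 ^ m ≤ 1.981 ^ m := by
    calc (1.7648 : ℝ) ^ L * 1.1225 ^ m ≤ 1.7648 ^ m * 1.1225 ^ m :=
          mul_le_mul_of_nonneg_right (pow_le_pow_right₀ (by norm_num) hL) (by positivity)
      _ = (1.7648 * 1.1225) ^ m := by rw [mul_pow]
      _ ≤ 1.981 ^ m := pow_le_pow_left₀ (by norm_num) (by norm_num) m
  linarith

open Classical in
/-- The `n` which have always been large and have the value `Y` at time `t` after `o` odd terms. -/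
noncomputable def AtG (K D t o : ℕ) (Y : ℤ) : Finset ℤ :=
  (Ioo (-(2 : ℤ) ^ (K + 1)) (2 ^ (K + 1))).filter (fun n => T^[t] n = Y ∧ cc n t = o ∧ ∀ l < t, 2 ^ (K - D) ≤ |T^[l] n|)

theorem card_AtG {K D t : ℕ} (o : ℕ) (Y : ℤ) (hD : D ≤ K) (ht : (t : ℝ) ≤ 2 ^ (K - D)) :
    ((AtG K D t o Y).card : ℝ) ≤ (t + 1) * 2 ^ D := by
  classical
  have hM : (0 : ℝ) < 2 ^ (K - D) := by positivity
  have e : (2 : ℝ) ^ (K + 1) = 2 * 2 ^ D * 2 ^ (K - D) := by
    rw [mul_assoc, ← pow_add, show D + (K - D) = K by omega, pow_succ]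
    ring
  have h1 := card_interval (AtG K D t o Y) (2 ^ t * (Y : ℝ) / 5 ^ o) (t / (4 * 2 ^ (K - D)) * 2 ^ (K + 1)) (by positivity) (by
    intro n hn
    unfold AtG at hn
    rw [Finset.mem_filter, Finset.mem_Ioo, ← abs_lt] at hn
    obtain ⟨h1, h3, h4, h5⟩ := hn
    have hk := key n t
    rw [h3, h4] at hk
    have hx : 2 ^ t * (Y : ℝ) / 5 ^ o = n + GG n t := by
      rw [hk]; field_simp
    have hG0 := GG_nonneg n t
    have hG := GG_le n t hM (fun l hl => by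
      have := h5 l hl
      exact_mod_cast this) ht
    have hn1 : |(n : ℝ)| ≤ 2 ^ (K + 1) := by
      have : (|n| : ℤ) ≤ 2 ^ (K + 1) := h1.le
      exact_mod_cast this
    have hG' : GG n t ≤ t / (4 * 2 ^ (K - D)) * 2 ^ (K + 1) :=
      hG.trans (mul_le_mul_of_nonneg_left hn1 (by positivity))
    rw [hx]
    constructor <;> linarith)
  have h2 : (t : ℝ) / (4 * 2 ^ (K - D)) * 2 ^ (K + 1) = t / 2 * 2 ^ D := by
    rw [e]
    field_simp
    ring
  rw [h2] at h1
  have h3 : (1 : ℝ) ≤ 2 ^ D := one_le_pow₀ (by norm_num)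
  have h4 : (0 : ℝ) ≤ t * 2 ^ D := by positivity
  linarith

open Classical in
/-- The `n` which are always large until time `H` and are flat at some time. -/
noncomputable def Flat (K D H m : ℕ) : Finset ℤ :=
  (Ioo (-(2 : ℤ) ^ (K + 1)) (2 ^ (K + 1))).filter (fun n => (∀ l ≤ H, 2 ^ (K - D) ≤ |T^[l] n|) ∧
    ∃ t ≤ H, ∃ L ≤ m, T^[t] n ∈ FlatY m L)

theorem card_Flat {K D H m : ℕ} (hD : D ≤ K) (hH : (H : ℝ) ≤ 2 ^ (K - D)) :
    ((Flat K D H m).card : ℝ) ≤ 2 * (H + 1) ^ 3 * (m + 1) * 1.981 ^ m * 2 ^ D := by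
  classical
  have hsub : Flat K D H m ⊆ (range (H + 1)).biUnion (fun t => (range (H + 1)).biUnion (fun o =>
      (range (m + 1)).biUnion (fun L => (FlatY m L).biUnion (fun Y => AtG K D t o Y)))) := by
    intro n hn
    unfold Flat at hn
    rw [Finset.mem_filter] at hn
    obtain ⟨h1, h2, t, ht, L, hL, hY⟩ := hn
    refine Finset.mem_biUnion.2 ⟨t, Finset.mem_range.2 (by omega), Finset.mem_biUnion.2 ⟨cc n t, ?_,
      Finset.mem_biUnion.2 ⟨L, Finset.mem_range.2 (by omega), Finset.mem_biUnion.2 ⟨T^[t] n, hY, ?_⟩⟩⟩⟩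
    · have := cc_le n t
      exact Finset.mem_range.2 (by omega)
    · unfold AtG
      rw [Finset.mem_filter]
      exact ⟨h1, rfl, rfl, fun l hl => h2 l (by omega)⟩
  have hsum : ∀ {ι : Type} (s : Finset ι) (f : ι → Finset ℤ) (M : ℝ), (∀ i ∈ s, ((f i).card : ℝ) ≤ M) →
      ((s.biUnion f).card : ℝ) ≤ s.card * M := by
    intro ι s f M hf
    have h1 : ((s.biUnion f).card : ℝ) ≤ ∑ i ∈ s, ((f i).card : ℝ) := by exact_mod_cast Finset.card_biUnion_le
    refine h1.trans ((Finset.sum_le_sum hf).trans ?_)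
    rw [Finset.sum_const, nsmul_eq_mul]
  have hP : (0 : ℝ) ≤ 1.981 ^ m := by positivity
  have h1 : ∀ t ∈ range (H + 1), ∀ o ∈ range (H + 1), ∀ L ∈ range (m + 1),
      (((FlatY m L).biUnion (fun Y => AtG K D t o Y)).card : ℝ) ≤ (2 * 1.981 ^ m) * ((H + 1) * 2 ^ D) := by
    intro t ht o _ L hL
    have htH : (t : ℝ) ≤ H := by
      have := Finset.mem_range.1 ht
      exact_mod_cast (by omega : t ≤ H)
    have hLm : L ≤ m := by
      have := Finset.mem_range.1 hL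
      omega
    refine (hsum (FlatY m L) _ ((H + 1) * 2 ^ D) ?_).trans ?_
    · intro Y _
      refine (card_AtG o Y hD (htH.trans hH)).trans ?_
      apply mul_le_mul_of_nonneg_right _ (by positivity)
      linarith
    · exact mul_le_mul_of_nonneg_right (card_FlatY hLm) (by positivity)
  have h2 : ∀ t ∈ range (H + 1), ∀ o ∈ range (H + 1),
      (((range (m + 1)).biUnion (fun L => (FlatY m L).biUnion (fun Y => AtG K D t o Y))).card : ℝ) ≤
        (m + 1) * ((2 * 1.981 ^ m) * ((H + 1) * 2 ^ D)) := by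
    intro t ht o ho
    have := hsum (range (m + 1)) _ _ (h1 t ht o ho)
    rwa [Finset.card_range, Nat.cast_add_one] at this
  have h3 : ∀ t ∈ range (H + 1), (((range (H + 1)).biUnion (fun o => (range (m + 1)).biUnion
      (fun L => (FlatY m L).biUnion (fun Y => AtG K D t o Y)))).card : ℝ) ≤
        (H + 1) * ((m + 1) * ((2 * 1.981 ^ m) * ((H + 1) * 2 ^ D))) := by
    intro t ht
    have := hsum (range (H + 1)) _ _ (h2 t ht)
    rwa [Finset.card_range, Nat.cast_add_one] at this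
  have h4 := hsum (range (H + 1)) _ _ h3
  rw [Finset.card_range, Nat.cast_add_one] at h4
  have h5 : ((Flat K D H m).card : ℝ) ≤ (((range (H + 1)).biUnion (fun t => (range (H + 1)).biUnion (fun o =>
      (range (m + 1)).biUnion (fun L => (FlatY m L).biUnion (fun Y => AtG K D t o Y))))).card : ℝ) := by
    exact_mod_cast Finset.card_le_card hsub
  refine h5.trans (h4.trans (le_of_eq ?_))
  ring

/-- If `n` is not flat then some value within the next `m` steps is at least `2 ^ (m - 2)`. -/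
theorem rise {K D H m : ℕ} {n : ℤ} (hK : |n| < 2 ^ (K + 1)) (hn : n ∉ Flat K D (H + m) m)
    (hbig : ∀ l ≤ H + m, 2 ^ (K - D) ≤ |T^[l] n|) (hm : (m : ℝ) ≤ 2 ^ (K - D)) (h2m : 2 ≤ m) (t : ℕ) (ht : t ≤ H) :
    ∃ s ≤ m, 2 ^ (m - 2) ≤ |T^[t + s] n| := by
  classical
  by_contra hcon
  push Not at hcon
  obtain ⟨y, hy⟩ : ∃ y, y = T^[t] n := ⟨_, rfl⟩
  have hit : ∀ s, T^[s] y = T^[t + s] n := by
    intro s
    rw [hy, ← Function.iterate_add_apply, add_comm]
  have hp : (0 : ℤ) < 2 ^ (K - D) := by positivity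
  have hy1 : 2 ^ (K - D) ≤ |y| := by rw [hy]; exact hbig t (by omega)
  have hy0 : y ≠ 0 := by
    rintro rfl
    rw [abs_zero] at hy1
    omega
  obtain ⟨L, hL⟩ : ∃ L, L = Nat.log 2 y.natAbs := ⟨_, rfl⟩
  have hL1 : (2 : ℤ) ^ L ≤ |y| := by
    rw [← Int.natCast_natAbs]
    have := Nat.pow_log_le_self 2 (Int.natAbs_ne_zero.2 hy0)
    rw [← hL] at this
    exact_mod_cast this
  have hL2 : |y| < 2 ^ (L + 1) := by
    rw [← Int.natCast_natAbs]
    have := Nat.lt_pow_succ_log_self (b := 2) (by norm_num) y.natAbs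
    rw [← hL] at this
    exact_mod_cast this
  have hLm : L < m - 2 := by
    have h3 := hcon 0 (Nat.zero_le _)
    rw [add_zero, ← hy] at h3
    by_contra hcon2
    push Not at hcon2
    have : (2 : ℤ) ^ (m - 2) ≤ 2 ^ L := pow_le_pow_right₀ (by norm_num) hcon2
    linarith
  have hTL := hcon L (by omega)
  rw [← hit L] at hTL
  have hM : (0 : ℝ) < 2 ^ (K - D) := by positivity
  have hLr : (L : ℝ) ≤ 2 ^ (K - D) := by
    have : (L : ℝ) ≤ m := by exact_mod_cast (by omega : L ≤ m)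
    linarith
  have hG := GG_le y L hM (fun l hl => by
    rw [hit l]
    have := hbig (t + l) (by omega)
    exact_mod_cast this) hLr
  have hG0 := GG_nonneg y L
  have hG2 : GG y L ≤ |(y : ℝ)| / 2 := by
    have h3 : (L : ℝ) / (4 * 2 ^ (K - D)) ≤ 1 / 2 := by
      rw [div_le_div_iff₀ (by positivity) (by norm_num)]
      linarith
    have h4 := mul_le_mul_of_nonneg_right h3 (abs_nonneg (y : ℝ))
    linarith
  have h5 : |(y : ℝ)| / 2 ≤ |(y : ℝ) + GG y L| := by
    have h6 : |(y : ℝ)| ≤ |(y : ℝ) + GG y L| + |GG y L| := by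
      have := abs_add_le ((y : ℝ) + GG y L) (-GG y L)
      rwa [add_neg_cancel_right, abs_neg] at this
    rw [abs_of_nonneg hG0] at h6
    linarith
  have h6 : (2 : ℝ) ^ L * |((T^[L] y : ℤ) : ℝ)| = 5 ^ cc y L * |(y : ℝ) + GG y L| := by
    rw [← abs_of_pos (show (0 : ℝ) < 2 ^ L by positivity), ← abs_mul, key y L, abs_mul,
      abs_of_pos (show (0 : ℝ) < 5 ^ cc y L by positivity)]
  have hL1' : (2 : ℝ) ^ L ≤ |(y : ℝ)| := by exact_mod_cast hL1
  have hTL' : |((T^[L] y : ℤ) : ℝ)| ≤ 2 ^ (m - 2) := by exact_mod_cast hTL.le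
  have h7 : (5 : ℝ) ^ cc y L ≤ 2 ^ m := by
    have h8 : (5 : ℝ) ^ cc y L * 2 ^ L ≤ (2 * 2 ^ (m - 2)) * 2 ^ L := by
      calc (5 : ℝ) ^ cc y L * 2 ^ L ≤ 5 ^ cc y L * |(y : ℝ)| := mul_le_mul_of_nonneg_left hL1' (by positivity)
        _ = 2 * (5 ^ cc y L * (|(y : ℝ)| / 2)) := by ring
        _ ≤ 2 * (5 ^ cc y L * |(y : ℝ) + GG y L|) := by
            apply mul_le_mul_of_nonneg_left _ (by norm_num)
            exact mul_le_mul_of_nonneg_left h5 (by positivity)
        _ = 2 * (2 ^ L * |((T^[L] y : ℤ) : ℝ)|) := by rw [← h6]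
        _ ≤ 2 * (2 ^ L * 2 ^ (m - 2)) := by
            apply mul_le_mul_of_nonneg_left _ (by norm_num)
            exact mul_le_mul_of_nonneg_left hTL' (by positivity)
        _ = (2 * 2 ^ (m - 2)) * 2 ^ L := by ring
    have h9 : (5 : ℝ) ^ cc y L ≤ 2 * 2 ^ (m - 2) := le_of_mul_le_mul_right h8 (by positivity)
    refine h9.trans ?_
    rw [← pow_succ']
    exact pow_le_pow_right₀ (by norm_num) (by omega)
  apply hn
  unfold Flat
  rw [Finset.mem_filter, Finset.mem_Ioo, ← abs_lt]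
  refine ⟨hK, hbig, t, by omega, L, by omega, ?_⟩
  rw [← hy]
  refine mem_FlatY.2 ⟨hL1, hL2, ?_⟩
  have h10 : 5 ^ cc y L ≤ 2 ^ m := by exact_mod_cast h7
  exact h10

end Pool.Agent.MP81cdd9.NR
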