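import Pool.Agent.Lib.MP_81cdd9_nt.NR.H

/-! For almost all integers: no return, and excursions again and again. -/

set_option autoImplicit false

namespace Pool.Agent.MP81cdd9.NR

open Finset Pool.Agent.MP81cdd9.HZ

/-- The number of binary digits of `K`. -/
def lam (K : ℕ) : ℕ := Nat.log 2 K + 1

/-- The time up to which excursions are guaranteed. -/
def HH (K : ℕ) : ℕ := K ^ 2 / (10 ^ 6 * lam K)

/-- The length of the window. -/
def mm (K : ℕ) : ℕ := K + K / 100 + 4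

/-- The loss in binary digits. -/
def DD (K : ℕ) : ℕ := 3 * (4 * bb K + 2) * ((HH K + mm K) / (K / 2) + 1)

theorem lam_small {K : ℕ} (hK : 2 ^ 25 ≤ K) : 10 ^ 6 * lam K ≤ K := by
  have h1 : ∀ l : ℕ, 26 ≤ l → 10 ^ 6 * l ≤ 2 ^ (l - 1) := by
    intro l hl
    induction l, hl using Nat.le_induction with
    | base => norm_num
    | succ l hl ih =>
      have e : l + 1 - 1 = (l - 1) + 1 := by omega
      rw [e, pow_succ]
      omega
  have h2 : 25 ≤ Nat.log 2 K := by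
    have := Nat.log_mono_right (b := 2) hK
    rwa [Nat.log_pow (by norm_num)] at this
  have h3 := h1 (lam K) (by unfold lam; omega)
  have h4 : 2 ^ (lam K - 1) ≤ K := by
    unfold lam
    rw [Nat.add_sub_cancel]
    exact Nat.pow_log_le_self 2 (by omega)
  exact h3.trans h4

theorem DD_small {K : ℕ} (hK : 2 ^ 25 ≤ K) : 1000 * DD K ≤ K := by
  have hlam := lam_small hK
  obtain ⟨h, hh⟩ : ∃ h, h = K / 2 := ⟨_, rfl⟩
  have hK2 : K ≤ 2 * h + 1 := by omega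
  have hh3 : 3 ≤ h := by omega
  have hHH : 10 ^ 6 * lam K * HH K ≤ K ^ 2 := Nat.mul_div_le _ _
  have hlamp : 1 ≤ lam K := by unfold lam; omega
  unfold DD
  rw [← hh]
  obtain ⟨q, hq⟩ : ∃ q, q = (HH K + mm K) / h + 1 := ⟨_, rfl⟩
  rw [← hq]
  have hqh : q * h ≤ HH K + mm K + h := by
    rw [hq, add_mul, one_mul]
    exact Nat.add_le_add_right (Nat.div_mul_le_self _ _) _
  have hA : 3 * (4 * bb K + 2) ≤ 126 * lam K := by
    unfold bb
    unfold lam at *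
    omega
  have hmm : mm K ≤ K + K / 100 + 4 := le_rfl
  have h1 : 10 ^ 6 * lam K * (mm K + h) ≤ K * (mm K + h) := Nat.mul_le_mul_right _ hlam
  have h2 : 126 * (K ^ 2 + K * (mm K + h)) ≤ 1000 * K * h := by
    have h3 : 126 * (K + (mm K + h)) ≤ 1000 * h := by omega
    calc 126 * (K ^ 2 + K * (mm K + h)) = K * (126 * (K + (mm K + h))) := by ring
      _ ≤ K * (1000 * h) := Nat.mul_le_mul_left _ h3
      _ = 1000 * K * h := by ring
  have h4 : 10 ^ 3 * (1000 * (3 * (4 * bb K + 2) * q) * h) ≤ 10 ^ 3 * (K * h) := by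
    calc 10 ^ 3 * (1000 * (3 * (4 * bb K + 2) * q) * h) = (3 * (4 * bb K + 2)) * (10 ^ 6 * (q * h)) := by ring
      _ ≤ (126 * lam K) * (10 ^ 6 * (HH K + mm K + h)) :=
        Nat.mul_le_mul hA (Nat.mul_le_mul_left _ hqh)
      _ = 126 * (10 ^ 6 * lam K * HH K + 10 ^ 6 * lam K * (mm K + h)) := by ring
      _ ≤ 126 * (K ^ 2 + K * (mm K + h)) := Nat.mul_le_mul_left _ (Nat.add_le_add hHH h1)
      _ ≤ 1000 * K * h := h2
      _ = 10 ^ 3 * (K * h) := by ring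
  have h5 : 1000 * (3 * (4 * bb K + 2) * q) * h ≤ K * h := Nat.le_of_mul_le_mul_left h4 (by norm_num)
  exact Nat.le_of_mul_le_mul_right h5 (by omega)

theorem HH_small {K : ℕ} (hK : 2 ^ 25 ≤ K) : HH K + mm K ≤ K ^ 2 := by
  have hlamp : 1 ≤ lam K := by unfold lam; omega
  have h1 : HH K ≤ K ^ 2 / 10 ^ 6 := Nat.div_le_div_left (by omega) (by norm_num)
  have h2 : mm K ≤ 2 * K := by unfold mm; omega
  have h3 : 4 * K ≤ K ^ 2 := by nlinarith
  have h4 : K ^ 2 / 10 ^ 6 * 10 ^ 6 ≤ K ^ 2 := Nat.div_mul_le_self _ _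
  omega

/-- For a good `n` all values until the time `HH + mm` are large. -/
theorem good_big {K : ℕ} (hK : 2 ^ 25 ≤ K) (hb : (K / 2) * 2 ^ (4 * bb K) ≤ 2 ^ (K / 2)) {n : ℤ} (h1 : 2 ^ K ≤ |n|)
    (h2 : |n| < 2 ^ (K + 1)) (hn : n ∉ Bad K (K ^ 2) (bb K) (K / 2)) (l : ℕ) (hl : l ≤ HH K + mm K) :
    2 ^ (K - DD K) ≤ |T^[l] n| := by
  have h3 := good_all (by omega) hb h1 h2 hn l
  have hD := DD_small hK
  have h4 : 3 * (4 * bb K + 2) * (l / (K / 2) + 1) ≤ DD K := by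
    unfold DD
    apply Nat.mul_le_mul_left
    exact Nat.add_le_add_right (Nat.div_le_div_right hl) 1
  have h5 : |n| ≤ 2 ^ DD K * |T^[l] n| :=
    h3.trans (mul_le_mul_of_nonneg_right (pow_le_pow_right₀ (by norm_num) h4) (abs_nonneg _))
  have h6 : (2 : ℤ) ^ DD K * 2 ^ (K - DD K) ≤ 2 ^ DD K * |T^[l] n| := by
    rw [← pow_add, show DD K + (K - DD K) = K by omega]
    exact h1.trans h5
  exact le_of_mul_le_mul_left h6 (by positivity)

theorem num_bound : (1.981 : ℝ) ^ 505 ≤ 2 ^ 499 := by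
  have h1 : (1.981 : ℝ) ^ 5 ≤ 30.509 := by norm_num
  have h2 : (30.509 : ℝ) ^ 10 ≤ 6.99 * 10 ^ 14 := by norm_num
  calc (1.981 : ℝ) ^ 505 = ((1.981 : ℝ) ^ 5) ^ 101 := by rw [← pow_mul]
    _ ≤ (30.509 : ℝ) ^ 101 := pow_le_pow_left₀ (by positivity) h1 _
    _ = ((30.509 : ℝ) ^ 10) ^ 10 * 30.509 := by rw [← pow_mul, ← pow_succ]
    _ ≤ (6.99 * 10 ^ 14) ^ 10 * 30.509 :=
      mul_le_mul_of_nonneg_right (pow_le_pow_left₀ (by positivity) h2 _) (by norm_num)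
    _ ≤ 2 ^ 250 * 2 ^ 249 := by norm_num
    _ = 2 ^ 499 := by rw [← pow_add]

theorem flat_pow {K : ℕ} (hK : 2 ^ 25 ≤ K) (ρ : ℝ) (hρ0 : 0 ≤ ρ) (hρ : ρ ^ 1000 = 2) :
    (1.981 : ℝ) ^ mm K * 2 ^ DD K * ρ ^ K ≤ 16 * 2 ^ K := by
  have hD := DD_small hK
  have hm : 1000 * mm K ≤ 1010 * K + 4000 := by unfold mm; omega
  have h1 : ((1.981 : ℝ) ^ mm K * 2 ^ DD K * ρ ^ K) ^ 1000 ≤ (16 * 2 ^ K) ^ 1000 := by
    have e1 : ((1.981 : ℝ) ^ mm K * 2 ^ DD K * ρ ^ K) ^ 1000 =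
        1.981 ^ (1000 * mm K) * 2 ^ (1000 * DD K) * (ρ ^ 1000) ^ K := by
      rw [mul_pow, mul_pow, ← pow_mul, ← pow_mul, ← pow_mul, ← pow_mul, mul_comm (mm K), mul_comm (DD K), mul_comm K]
    have e2 : ((16 : ℝ) * 2 ^ K) ^ 1000 = (2 ^ (998 * K) * 2 ^ 4000) * 2 ^ K * 2 ^ K := by
      rw [mul_pow, ← pow_mul, show (16 : ℝ) = 2 ^ 4 by norm_num, ← pow_mul, ← pow_add, ← pow_add, ← pow_add, ← pow_add]
      congr 1
      ring
    rw [e1, e2, hρ]
    apply mul_le_mul_of_nonneg_right _ (by positivity)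
    apply mul_le_mul _ (pow_le_pow_right₀ (by norm_num) hD) (by positivity) (by positivity)
    calc (1.981 : ℝ) ^ (1000 * mm K) ≤ 1.981 ^ (1010 * K + 4000) := pow_le_pow_right₀ (by norm_num) hm
      _ = ((1.981 : ℝ) ^ 505) ^ (2 * K) * 1.981 ^ 4000 := by
          rw [pow_add, ← pow_mul]
          congr 2
          ring
      _ ≤ ((2 : ℝ) ^ 499) ^ (2 * K) * 2 ^ 4000 := by
          apply mul_le_mul (pow_le_pow_left₀ (by positivity) num_bound _)
            (pow_le_pow_left₀ (by norm_num) (by norm_num) _) (by positivity) (by positivity)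
      _ = 2 ^ (998 * K) * 2 ^ 4000 := by
          rw [← pow_mul]
          congr 2
          ring
  exact le_of_pow_le_pow_left₀ (by norm_num) (by positivity) h1

/-- Flat integers are few. -/
theorem flat_small (δ : ℝ) (hδ : 0 < δ) : ∃ K0 : ℕ, ∀ K ≥ K0, ((K ^ 2 : ℕ) : ℝ) ≤ 2 ^ (K / 2) →
    ((Flat K (DD K) (HH K + mm K) (mm K)).card : ℝ) ≤ δ * 2 ^ K := by
  obtain ⟨ρ, hρdef⟩ : ∃ ρ : ℝ, ρ = (2 : ℝ) ^ ((1 : ℝ) / 1000) := ⟨_, rfl⟩
  have hρ1 : 1 < ρ := by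
    rw [hρdef]
    exact Real.one_lt_rpow (by norm_num) (by norm_num)
  have hρ : ρ ^ 1000 = 2 := by
    rw [hρdef, ← Real.rpow_natCast, ← Real.rpow_mul (by norm_num)]
    norm_num
  have h1 : Filter.Tendsto (fun K : ℕ => (K : ℝ) ^ 7 / ρ ^ K) Filter.atTop (nhds 0) :=
    tendsto_pow_const_div_const_pow_of_one_lt 7 hρ1
  have h2 : ∀ᶠ K : ℕ in Filter.atTop, (K : ℝ) ^ 7 / ρ ^ K < δ / 512 := h1.eventually (gt_mem_nhds (by positivity))
  obtain ⟨K0, hK0⟩ := Filter.eventually_atTop.1 h2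
  refine ⟨max K0 (2 ^ 25), fun K hK hH => ?_⟩
  have hKa := hK0 K ((le_max_left _ _).trans hK)
  have hKb : 2 ^ 25 ≤ K := (le_max_right _ _).trans hK
  have hK1 : (1 : ℝ) ≤ K := by exact_mod_cast (by omega : 1 ≤ K)
  have hρK : 0 < ρ ^ K := by positivity
  rw [div_lt_iff₀ hρK] at hKa
  have hD := DD_small hKb
  have hHH := HH_small hKb
  have hHH' : (((HH K + mm K : ℕ)) : ℝ) ≤ (K : ℝ) ^ 2 := by exact_mod_cast hHH
  have h3 : (((HH K + mm K : ℕ)) : ℝ) ≤ 2 ^ (K - DD K) := by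
    have h4 : (2 : ℝ) ^ (K / 2) ≤ 2 ^ (K - DD K) := pow_le_pow_right₀ (by norm_num) (by omega)
    push_cast at hH
    linarith
  have h5 := card_Flat (m := mm K) (show DD K ≤ K by omega) h3
  have h6 := flat_pow hKb ρ (by linarith) hρ
  have hmm : (mm K : ℝ) + 1 ≤ 2 * K := by
    have : mm K + 1 ≤ 2 * K := by unfold mm; omega
    exact_mod_cast this
  obtain ⟨A, hA⟩ : ∃ A : ℝ, A = (((HH K + mm K : ℕ)) : ℝ) := ⟨_, rfl⟩
  obtain ⟨B, hB⟩ : ∃ B : ℝ, B = (mm K : ℝ) := ⟨_, rfl⟩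
  have hA0 : 0 ≤ A := by rw [hA]; exact Nat.cast_nonneg _
  have hB0 : 0 ≤ B := by rw [hB]; exact Nat.cast_nonneg _
  rw [← hA] at hHH' h5
  rw [← hB] at hmm h5
  have h7 : (2 : ℝ) * (A + 1) ^ 3 * (B + 1) ≤ 32 * K ^ 7 := by
    have f1 : A + 1 ≤ 2 * K ^ 2 := by nlinarith
    calc (2 : ℝ) * (A + 1) ^ 3 * (B + 1) ≤ 2 * (2 * (K : ℝ) ^ 2) ^ 3 * (2 * K) := by
          apply mul_le_mul _ hmm (by linarith) (by positivity)
          apply mul_le_mul_of_nonneg_left _ (by norm_num)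
          exact pow_le_pow_left₀ (by linarith) f1 3
      _ = 32 * (K : ℝ) ^ 7 := by ring
  have h8 : ((Flat K (DD K) (HH K + mm K) (mm K)).card : ℝ) * ρ ^ K ≤ (δ * 2 ^ K) * ρ ^ K := by
    have f2 : 0 ≤ (1.981 : ℝ) ^ mm K * 2 ^ DD K * ρ ^ K :=
      mul_nonneg (mul_nonneg (pow_nonneg (by norm_num) _) (pow_nonneg (by norm_num) _)) hρK.le
    calc ((Flat K (DD K) (HH K + mm K) (mm K)).card : ℝ) * ρ ^ K
        ≤ (2 * (A + 1) ^ 3 * (B + 1) * 1.981 ^ mm K * 2 ^ DD K) * ρ ^ K :=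
          mul_le_mul_of_nonneg_right h5 hρK.le
      _ = (2 * (A + 1) ^ 3 * (B + 1)) * (1.981 ^ mm K * 2 ^ DD K * ρ ^ K) := by ring
      _ ≤ (32 * (K : ℝ) ^ 7) * (16 * 2 ^ K) := mul_le_mul h7 h6 f2 (by positivity)
      _ = 512 * (K : ℝ) ^ 7 * 2 ^ K := by ring
      _ ≤ 512 * (δ / 512 * ρ ^ K) * 2 ^ K := by
          apply mul_le_mul_of_nonneg_right _ (by positivity)
          apply mul_le_mul_of_nonneg_left hKa.le (by norm_num)
      _ = (δ * 2 ^ K) * ρ ^ K := by ring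
  exact le_of_mul_le_mul_right h8 hρK

/-- From the condition on the time to the time bound of the block. -/
theorem time_le {K : ℕ} (hK : 2 ^ 25 ≤ K) {x : ℝ} (h1 : 2 ^ K ≤ x) (h2 : x ≤ 2 ^ (K + 1)) {k : ℕ}
    (hk : k * Real.log (Real.log x) ≤ 1 / (2 * 10 ^ 6) * Real.log x ^ 2) : k ≤ HH K := by
  have hKr : (2 : ℝ) ^ 25 ≤ K := by exact_mod_cast hK
  have hK' : (1000 : ℝ) ≤ K := le_trans (by norm_num) hKr
  have hx0 : 0 < x := lt_of_lt_of_le (by positivity) h1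
  have hl1 : K * Real.log 2 ≤ Real.log x := by
    rw [← Real.log_pow]
    exact Real.log_le_log (by positivity) h1
  have hl2 : Real.log x ≤ (K + 1) * Real.log 2 := by
    have := Real.log_le_log hx0 h2
    rw [Real.log_pow] at this
    push_cast at this
    exact this
  have hln2 := Real.log_two_gt_d9
  have hln2' := Real.log_two_lt_d9
  obtain ⟨l, hl⟩ : ∃ l, l = Real.log x := ⟨_, rfl⟩
  rw [← hl] at hl1 hl2 hk
  have hl3 : 0.69 * K ≤ l := by nlinarith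
  have hl4 : l ≤ 0.7 * (K + 1) := by nlinarith
  -- lam K ≤ 3 log l
  have hlogK : (2 : ℝ) ≤ Real.log K := by
    rw [Real.le_log_iff_exp_le (by linarith)]
    have h3 : Real.exp 2 ≤ 9 := by
      have h4 : Real.exp 2 = Real.exp 1 ^ 2 := by rw [← Real.exp_nat_mul]; norm_num
      rw [h4]
      have := Real.exp_one_lt_d9
      have h5 := Real.exp_pos 1
      nlinarith
    linarith
  have hloglog : Real.log K - 1 / 2 ≤ Real.log l := by
    have h3 : Real.log (0.69 * K) ≤ Real.log l := Real.log_le_log (by positivity) hl3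
    rw [Real.log_mul (by norm_num) (by linarith)] at h3
    have h4 : -(1 / 2 : ℝ) ≤ Real.log 0.69 := by
      rw [Real.le_log_iff_exp_le (by norm_num), Real.exp_neg]
      have h5 : 1.5 ≤ Real.exp (1 / 2) := by
        have := Real.add_one_le_exp (1 / 2 : ℝ)
        linarith
      have h6 : (Real.exp (1 / 2))⁻¹ ≤ (1.5)⁻¹ := inv_anti₀ (by norm_num) h5
      refine h6.trans (by norm_num)
    linarith
  have hlam : (lam K : ℝ) ≤ 3 * Real.log l := by
    have h3 : (Nat.log 2 K : ℝ) * Real.log 2 ≤ Real.log K := by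
      rw [← Real.log_pow]
      apply Real.log_le_log (by positivity)
      exact_mod_cast Nat.pow_log_le_self 2 (show K ≠ 0 by omega)
    have h4 : (Nat.log 2 K : ℝ) ≤ 1.5 * Real.log K := by
      have h5 : (0 : ℝ) ≤ Nat.log 2 K := by positivity
      nlinarith
    unfold lam
    push_cast
    linarith
  have h5 : (k : ℝ) * (10 ^ 6 * lam K) ≤ K ^ 2 := by
    have h6 : (k : ℝ) * lam K ≤ k * (3 * Real.log l) := mul_le_mul_of_nonneg_left hlam (by positivity)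
    have h7 : l ^ 2 ≤ (0.7 * (K + 1)) ^ 2 := pow_le_pow_left₀ (by linarith) hl4 2
    nlinarith
  unfold HH
  rw [Nat.le_div_iff_mul_le (by unfold lam; omega)]
  exact_mod_cast h5

/-- For almost all integers `n`: no later value is much smaller than `n`, and for a long time there is a larger value in every
window of length `(3/2) log |n|`. -/
theorem main : DensityOne {n : ℤ |
    (∀ k : ℕ, |(n : ℝ)| ≤ |((T^[k] n : ℤ) : ℝ)| * Real.log |(n : ℝ)| ^ (2000 * (1 + k / Real.log |(n : ℝ)|))) ∧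
    (∀ k : ℕ, k * Real.log (Real.log |(n : ℝ)|) ≤ 1 / (2 * 10 ^ 6) * Real.log |(n : ℝ)| ^ 2 →
      ∃ j : ℕ, (j : ℝ) ≤ 3 / 2 * Real.log |(n : ℝ)| ∧ |(n : ℝ)| ^ (1.01 : ℝ) ≤ |((T^[k + j] n : ℤ) : ℝ)|)} := by
  classical
  obtain ⟨K0, h8, hK0⟩ := params
  refine density_of_events (fun K n => n ∉ Bad K (K ^ 2) (bb K) (K / 2) ∧
    n ∉ Flat K (DD K) (HH K + mm K) (mm K)) _ ⟨max K0 (2 ^ 25), ?_⟩ ?_
  · rintro K hK n h1 h2 ⟨hn, hflat⟩
    have hK0' := hK0 K ((le_max_left _ _).trans hK)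
    have h25 : 2 ^ 25 ≤ K := (le_max_right _ _).trans hK
    have h1' : (2 : ℝ) ^ K ≤ |(n : ℝ)| := by exact_mod_cast h1
    have h2' : |(n : ℝ)| ≤ 2 ^ (K + 1) := by exact_mod_cast h2.le
    constructor
    · intro k
      have h3 := good_all (by omega) hK0'.2 h1 h2 hn k
      have h4 := pow_le_log (by omega) h1' h2' k
      have h3' : |(n : ℝ)| ≤ 2 ^ (3 * (4 * bb K + 2) * (k / (K / 2) + 1)) * |((T^[k] n : ℤ) : ℝ)| := by exact_mod_cast h3
      rw [mul_comm]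
      exact h3'.trans (mul_le_mul_of_nonneg_right h4 (abs_nonneg _))
    · intro k hk
      have hkH := time_le h25 h1' h2' hk
      have hD := DD_small h25
      have hHH := HH_small h25
      have hm2 : (mm K : ℝ) ≤ 2 ^ (K - DD K) := by
        have h3 : (mm K : ℝ) ≤ ((K ^ 2 : ℕ) : ℝ) := by exact_mod_cast (by omega : mm K ≤ K ^ 2)
        have h4 : (2 : ℝ) ^ (K / 2) ≤ 2 ^ (K - DD K) := pow_le_pow_right₀ (by norm_num) (by omega)
        exact h3.trans (hK0'.1.trans h4)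
      obtain ⟨s, hs, hrise⟩ := rise h2 hflat (fun l hl => good_big h25 hK0'.2 h1 h2 hn l hl) hm2
        (by unfold mm; omega) k hkH
      refine ⟨s, ?_, ?_⟩
      · have hl1 : K * Real.log 2 ≤ Real.log |(n : ℝ)| := by
          rw [← Real.log_pow]
          exact Real.log_le_log (by positivity) h1'
        have hln2 := Real.log_two_gt_d9
        have h3 : s ≤ K + K / 100 + 4 := hs
        have h4 : 100 * s ≤ 101 * K + 400 := by omega
        have h5 : (100 : ℝ) * s ≤ 101 * K + 400 := by exact_mod_cast h4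
        have h6 : (2 : ℝ) ^ 25 ≤ K := by exact_mod_cast h25
        have h7 : (1000 : ℝ) ≤ K := le_trans (by norm_num) h6
        nlinarith
      · have h3 : (2 : ℝ) ^ (mm K - 2) ≤ |((T^[k + s] n : ℤ) : ℝ)| := by exact_mod_cast hrise
        refine le_trans ?_ h3
        have hn0 : (0 : ℝ) ≤ |(n : ℝ)| := abs_nonneg _
        calc |(n : ℝ)| ^ (1.01 : ℝ) ≤ ((2 : ℝ) ^ (K + 1)) ^ (1.01 : ℝ) := Real.rpow_le_rpow hn0 h2' (by norm_num)
          _ = (2 : ℝ) ^ (((K + 1 : ℕ) : ℝ) * 1.01) := by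
              rw [← Real.rpow_natCast, ← Real.rpow_mul (by norm_num)]
          _ ≤ (2 : ℝ) ^ (((mm K - 2 : ℕ)) : ℝ) := by
              apply Real.rpow_le_rpow_of_exponent_le (by norm_num)
              have h4 : 101 * (K + 1) ≤ 100 * (mm K - 2) := by unfold mm; omega
              have h5 : (101 : ℝ) * (((K + 1 : ℕ)) : ℝ) ≤ 100 * (((mm K - 2 : ℕ)) : ℝ) := by exact_mod_cast h4
              linarith
          _ = 2 ^ (mm K - 2) := Real.rpow_natCast _ _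
  · intro δ hδ
    obtain ⟨K1, hK1⟩ := bad_small (δ / 2) (by positivity)
    obtain ⟨K2, hK2⟩ := flat_small (δ / 2) (by positivity)
    refine ⟨max K0 (max K1 K2), fun K hK k0 => ?_⟩
    have h1 := hK0 K ((le_max_left _ _).trans hK)
    have h2 := hK1 K ((le_max_left _ _).trans ((le_max_right _ _).trans hK)) h1.1
    have h3 := hK2 K ((le_max_right _ _).trans ((le_max_right _ _).trans hK)) h1.1
    have h4 : {n : ℤ | n ∈ Ico (k0 * 2 ^ K) ((k0 + 1) * 2 ^ K) ∧ ¬ (n ∉ Bad K (K ^ 2) (bb K) (K / 2) ∧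
        n ∉ Flat K (DD K) (HH K + mm K) (mm K))} ⊆
        ((Bad K (K ^ 2) (bb K) (K / 2) ∪ Flat K (DD K) (HH K + mm K) (mm K) : Finset ℤ) : Set ℤ) := by
      intro n hn
      rw [Finset.coe_union]
      by_cases h5 : n ∈ Bad K (K ^ 2) (bb K) (K / 2)
      · exact Or.inl h5
      · right
        by_contra h6
        exact hn.2 ⟨h5, h6⟩
    have h5 := Set.ncard_le_ncard h4 (Finset.finite_toSet _)
    rw [Set.ncard_coe_finset] at h5
    have h6 := h5.trans (Finset.card_union_le _ _)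
    have h7 : (({n : ℤ | n ∈ Ico (k0 * 2 ^ K) ((k0 + 1) * 2 ^ K) ∧ ¬ (n ∉ Bad K (K ^ 2) (bb K) (K / 2) ∧
        n ∉ Flat K (DD K) (HH K + mm K) (mm K))}.ncard : ℕ) : ℝ) ≤ ((Bad K (K ^ 2) (bb K) (K / 2)).card : ℝ) +
        ((Flat K (DD K) (HH K + mm K) (mm K)).card : ℝ) := by exact_mod_cast h6
    linarith

end Pool.Agent.MP81cdd9.NR
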