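import Pool.Agent.Lib.MP_81cdd9_nt.NR.G

/-! Inverse orbits within `O(log x)` steps are small. -/

set_option autoImplicit false

namespace Pool.Agent.MP81cdd9.NR

open Finset Pool.Agent.MP81cdd9.HZ

open Classical in
/-- The `n` up to `x` with the value `a` at time `t`, `o` odd terms before, and all earlier values at least `y`. -/
noncomputable def AtR (x y : ℝ) (t o : ℕ) (a : ℤ) : Finset ℤ :=
  (Finset.Icc (-⌊x⌋) ⌊x⌋).filter (fun n => T^[t] n = a ∧ cc n t = o ∧ ∀ l < t, y ≤ |((T^[l] n : ℤ) : ℝ)|)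

theorem abs_le_of_mem {x : ℝ} {n : ℤ} : n ∈ Finset.Icc (-⌊x⌋) ⌊x⌋ ↔ |(n : ℝ)| ≤ x := by
  rw [Finset.mem_Icc, ← abs_le]
  constructor
  · intro h
    have h1 : ((|n| : ℤ) : ℝ) ≤ ⌊x⌋ := by exact_mod_cast h
    have h2 := Int.floor_le x
    push_cast at h1
    linarith
  · intro h
    rw [Int.le_floor]
    push_cast
    exact h

theorem card_AtR {x y : ℝ} (hx : 0 ≤ x) (hy : 0 < y) {t : ℕ} (ht : (t : ℝ) ≤ y) (o : ℕ) (a : ℤ) :
    ((AtR x y t o a).card : ℝ) ≤ t / (4 * y) * x + 1 := by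
  classical
  refine card_interval (AtR x y t o a) (2 ^ t * (a : ℝ) / 5 ^ o) (t / (4 * y) * x) (by positivity) ?_
  intro n hn
  unfold AtR at hn
  rw [Finset.mem_filter, abs_le_of_mem] at hn
  obtain ⟨h1, h3, h4, h5⟩ := hn
  have hk := key n t
  rw [h3, h4] at hk
  have hx' : 2 ^ t * (a : ℝ) / 5 ^ o = n + GG n t := by
    rw [hk]; field_simp
  have hG0 := GG_nonneg n t
  have hG := GG_le n t hy (fun l hl => by
    have := h5 l hl
    exact_mod_cast this) ht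
  have hG' : GG n t ≤ t / (4 * y) * x := hG.trans (mul_le_mul_of_nonneg_left h1 (by positivity))
  rw [hx']
  constructor <;> linarith

/-- The integers up to `x` outside of `LowR` which reach `a` within `τ log x` steps. -/
def Fib (τ ε x : ℝ) (a : ℤ) : Set ℤ :=
  {n : ℤ | |(n : ℝ)| ≤ x ∧ n ∉ LowR τ ε x ∧ ∃ k : ℕ, (k : ℝ) ≤ τ * Real.log x ∧ T^[k] n = a}

theorem fin_abs (x : ℝ) (S : Set ℤ) (h : ∀ n ∈ S, |(n : ℝ)| ≤ x) : S ⊆ (Finset.Icc (-⌊x⌋) ⌊x⌋ : Finset ℤ) := by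
  intro n hn
  rw [Finset.mem_coe, abs_le_of_mem]
  exact h n hn

theorem card_Icc_le {x : ℝ} (hx : 1 ≤ x) : ((Finset.Icc (-⌊x⌋) ⌊x⌋).card : ℝ) ≤ 3 * x := by
  rw [Int.card_Icc]
  have h0 : 0 ≤ ⌊x⌋ := Int.floor_nonneg.2 (by linarith)
  have h1 : ((⌊x⌋ + 1 - -⌊x⌋).toNat : ℝ) = ((⌊x⌋ + 1 - -⌊x⌋ : ℤ) : ℝ) := by
    exact_mod_cast Int.toNat_of_nonneg (by omega)
  rw [h1]
  push_cast
  have h2 := Int.floor_le x
  linarith

theorem count_fib {τ ε x : ℝ} (hτ : 1 ≤ τ) (hε : 0 < ε) (hx : 2 ≤ x) (a : ℤ) :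
    ((Fib τ ε x a).ncard : ℝ) ≤ 15 * (τ * Real.log x) ^ 3 * x ^ ε := by
  classical
  have hx0 : 0 < x := by linarith
  obtain ⟨l, hl⟩ : ∃ l, l = Real.log x := ⟨_, rfl⟩
  have hl0 : 0.69 ≤ l := by
    rw [hl]
    have h1 := Real.log_le_log (by norm_num) hx
    have := Real.log_two_gt_d9
    linarith
  have hτl0 : 0.69 ≤ τ * l := by nlinarith
  have hsplit : x = x ^ (1 - ε) * x ^ ε := by
    rw [← Real.rpow_add hx0]
    norm_num
  have hxe : 0 < x ^ ε := Real.rpow_pos_of_pos hx0 _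
  have hye : 0 < x ^ (1 - ε) := Real.rpow_pos_of_pos hx0 _
  have hfin : Fib τ ε x a ⊆ (Finset.Icc (-⌊x⌋) ⌊x⌋ : Finset ℤ) := fin_abs x _ (fun n hn => hn.1)
  rw [← hl]
  by_cases hcase : τ * l ≤ x ^ (1 - ε)
  · obtain ⟨H, hH⟩ : ∃ H, H = ⌊τ * l⌋₊ := ⟨_, rfl⟩
    have hHle : (H : ℝ) ≤ τ * l := by rw [hH]; exact Nat.floor_le (by linarith)
    have hsub : Fib τ ε x a ⊆ (((range (H + 1)).biUnion (fun t => (range (H + 1)).biUnion (fun o =>
        AtR x (x ^ (1 - ε)) t o a)) : Finset ℤ) : Set ℤ) := by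
      rintro n ⟨h1, h2, k, hk, h3⟩
      rw [← hl] at hk
      have hkH : k ≤ H := by rw [hH]; exact Nat.le_floor hk
      refine Finset.mem_coe.2 (Finset.mem_biUnion.2 ⟨k, Finset.mem_range.2 (by omega), Finset.mem_biUnion.2 ⟨cc n k, ?_, ?_⟩⟩)
      · have := cc_le n k
        exact Finset.mem_range.2 (by omega)
      · unfold AtR
        rw [Finset.mem_filter, abs_le_of_mem]
        refine ⟨h1, h3, rfl, fun j hj => ?_⟩
        by_contra hcon
        push Not at hcon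
        refine h2 ⟨h1, j, ?_, hcon.le⟩
        have : (j : ℝ) ≤ k := by exact_mod_cast hj.le
        rw [← hl]
        linarith
    have h1 : ((Fib τ ε x a).ncard : ℝ) ≤ (((range (H + 1)).biUnion (fun t => (range (H + 1)).biUnion (fun o =>
        AtR x (x ^ (1 - ε)) t o a))).card : ℝ) := by
      have := Set.ncard_le_ncard hsub (Finset.finite_toSet _)
      rw [Set.ncard_coe_finset] at this
      exact_mod_cast this
    have hsum : ∀ (s : Finset ℕ) (f : ℕ → Finset ℤ) (M : ℝ), (∀ i ∈ s, ((f i).card : ℝ) ≤ M) →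
        ((s.biUnion f).card : ℝ) ≤ s.card * M := by
      intro s f M hf
      have h1 : ((s.biUnion f).card : ℝ) ≤ ∑ i ∈ s, ((f i).card : ℝ) := by exact_mod_cast Finset.card_biUnion_le
      refine h1.trans ((Finset.sum_le_sum hf).trans ?_)
      rw [Finset.sum_const, nsmul_eq_mul]
    have hx1 : 1 ≤ x ^ ε := Real.one_le_rpow (by linarith) hε.le
    have hxx : x / x ^ (1 - ε) = x ^ ε := by
      rw [div_eq_iff hye.ne', mul_comm]
      exact hsplit
    have h2 : ∀ t ∈ range (H + 1), ∀ o ∈ range (H + 1), ((AtR x (x ^ (1 - ε)) t o a).card : ℝ) ≤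
        (τ * l) / 4 * x ^ ε + 1 := by
      intro t ht o _
      have htH : (t : ℝ) ≤ H := by
        have := Finset.mem_range.1 ht
        exact_mod_cast (by omega : t ≤ H)
      refine (card_AtR hx0.le hye (htH.trans (hHle.trans hcase)) o a).trans ?_
      have e : (t : ℝ) / (4 * x ^ (1 - ε)) * x = t / 4 * x ^ ε := by
        rw [← hxx]
        ring
      rw [e]
      have h3 : (t : ℝ) / 4 * x ^ ε ≤ (τ * l) / 4 * x ^ ε := by
        apply mul_le_mul_of_nonneg_right _ hxe.le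
        linarith
      linarith
    have h3 : ∀ t ∈ range (H + 1), (((range (H + 1)).biUnion (fun o => AtR x (x ^ (1 - ε)) t o a)).card : ℝ) ≤
        (H + 1) * ((τ * l) / 4 * x ^ ε + 1) := by
      intro t ht
      have := hsum (range (H + 1)) _ _ (h2 t ht)
      rwa [Finset.card_range, Nat.cast_add_one] at this
    have h4 := hsum (range (H + 1)) _ _ h3
    rw [Finset.card_range, Nat.cast_add_one] at h4
    have h5 : (H : ℝ) + 1 ≤ 2.45 * (τ * l) := by linarith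
    have h6 : (τ * l) / 4 * x ^ ε + 1 ≤ 1.7 * (τ * l) * x ^ ε := by
      have h7 : 1 ≤ 1.45 * (τ * l) * x ^ ε := by
        have h8 : 1 ≤ 1.45 * (τ * l) := by linarith
        calc (1 : ℝ) = 1 * 1 := by ring
          _ ≤ (1.45 * (τ * l)) * x ^ ε := mul_le_mul h8 hx1 (by norm_num) (by linarith)
      have h9 : (τ * l) / 4 * x ^ ε = 0.25 * (τ * l) * x ^ ε := by ring
      rw [h9]
      linarith
    have h0 : 0 ≤ (τ * l) / 4 * x ^ ε + 1 := by positivity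
    calc ((Fib τ ε x a).ncard : ℝ) ≤ _ := h1
      _ ≤ (H + 1) * ((H + 1) * ((τ * l) / 4 * x ^ ε + 1)) := h4
      _ ≤ (2.45 * (τ * l)) * ((2.45 * (τ * l)) * (1.7 * (τ * l) * x ^ ε)) := by
          apply mul_le_mul h5 _ (by positivity) (by linarith)
          exact mul_le_mul h5 h6 h0 (by linarith)
      _ = (2.45 * 2.45 * 1.7) * ((τ * l) ^ 3 * x ^ ε) := by ring
      _ ≤ 15 * ((τ * l) ^ 3 * x ^ ε) := by
          apply mul_le_mul_of_nonneg_right (by norm_num)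
          positivity
      _ = 15 * (τ * l) ^ 3 * x ^ ε := by ring
  · push Not at hcase
    have h1 : ((Fib τ ε x a).ncard : ℝ) ≤ 3 * x := by
      have := Set.ncard_le_ncard hfin (Finset.finite_toSet _)
      rw [Set.ncard_coe_finset] at this
      have h2 : ((Fib τ ε x a).ncard : ℝ) ≤ ((Finset.Icc (-⌊x⌋) ⌊x⌋).card : ℝ) := by exact_mod_cast this
      exact h2.trans (card_Icc_le (by linarith))
    have h2 : x ≤ (τ * l) * x ^ ε := by
      conv_lhs => rw [hsplit]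
      exact mul_le_mul_of_nonneg_right hcase.le hxe.le
    have h3 : 3 * (τ * l) ≤ 15 * (τ * l) ^ 3 := by
      have h4 : 0.2 ≤ (τ * l) ^ 2 := by nlinarith
      have h5 : 15 * (τ * l) ^ 3 = 15 * (τ * l) ^ 2 * (τ * l) := by ring
      nlinarith
    calc ((Fib τ ε x a).ncard : ℝ) ≤ 3 * x := h1
      _ ≤ 3 * ((τ * l) * x ^ ε) := by linarith
      _ = (3 * (τ * l)) * x ^ ε := by ring
      _ ≤ (15 * (τ * l) ^ 3) * x ^ ε := mul_le_mul_of_nonneg_right h3 hxe.le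

/-- Few integers reach a given integer within `τ log x` steps. -/
theorem count_reach {τ x : ℝ} (hτ : 1 ≤ τ) (hx : 2 ≤ x) (a : ℤ) :
    (({n : ℤ | |(n : ℝ)| ≤ x ∧ ∃ k : ℕ, (k : ℝ) ≤ τ * Real.log x ∧ T^[k] n = a}.ncard : ℕ) : ℝ) ≤
      200000 * (τ * Real.log x) ^ 5 * x ^ (1 - 1 / (400 * τ)) := by
  have hx0 : 0 < x := by linarith
  have h1 := count_low (ε := 1 / 2) hτ (by norm_num) (by norm_num) hx
  have h2 := count_fib (ε := 1 / 2) hτ (by norm_num) hx a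
  have hsub : {n : ℤ | |(n : ℝ)| ≤ x ∧ ∃ k : ℕ, (k : ℝ) ≤ τ * Real.log x ∧ T^[k] n = a} ⊆
      LowR τ (1 / 2) x ∪ Fib τ (1 / 2) x a := by
    rintro n ⟨h3, h4⟩
    by_cases h5 : n ∈ LowR τ (1 / 2) x
    · exact Or.inl h5
    · exact Or.inr ⟨h3, h5, h4⟩
  have hfin1 : (LowR τ (1 / 2) x).Finite := (Finset.finite_toSet _).subset (fin_abs x _ (fun n hn => hn.1))
  have hfin2 : (Fib τ (1 / 2) x a).Finite := (Finset.finite_toSet _).subset (fin_abs x _ (fun n hn => hn.1))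
  have h3 := (Set.ncard_le_ncard hsub (hfin1.union hfin2)).trans (Set.ncard_union_le _ _)
  have h3' : (({n : ℤ | |(n : ℝ)| ≤ x ∧ ∃ k : ℕ, (k : ℝ) ≤ τ * Real.log x ∧ T^[k] n = a}.ncard : ℕ) : ℝ) ≤
      ((LowR τ (1 / 2) x).ncard : ℝ) + ((Fib τ (1 / 2) x a).ncard : ℝ) := by exact_mod_cast h3
  obtain ⟨l, hl⟩ : ∃ l, l = Real.log x := ⟨_, rfl⟩
  have hl0 : 0.69 ≤ l := by
    rw [hl]
    have h1 := Real.log_le_log (by norm_num) hx
    have := Real.log_two_gt_d9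
    linarith
  rw [← hl] at h1 h2 h3' ⊢
  have hτl0 : 0.69 ≤ τ * l := by nlinarith
  have e : 1 - 1 / 2 / (200 * τ) = 1 - 1 / (400 * τ) := by
    have : τ ≠ 0 := by linarith
    field_simp
    ring
  rw [e] at h1
  have hpow : x ^ (1 / 2 : ℝ) ≤ x ^ (1 - 1 / (400 * τ)) := by
    apply Real.rpow_le_rpow_of_exponent_le (by linarith)
    have h4 : 1 / (400 * τ) ≤ 1 / 400 := by
      apply one_div_le_one_div_of_le (by norm_num)
      linarith
    linarith
  have hp : 0 < x ^ (1 - 1 / (400 * τ)) := Real.rpow_pos_of_pos hx0 _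
  have h5 : 15 * (τ * l) ^ 3 ≤ 100000 * (τ * l) ^ 5 := by
    have h6 : 0.4 ≤ (τ * l) ^ 2 := by nlinarith
    have h7 : 100000 * (τ * l) ^ 5 = 100000 * (τ * l) ^ 2 * (τ * l) ^ 3 := by ring
    have h8 : 0 ≤ (τ * l) ^ 3 := by positivity
    nlinarith
  have h6 : 15 * (τ * l) ^ 3 * x ^ (1 / 2 : ℝ) ≤ 100000 * (τ * l) ^ 5 * x ^ (1 - 1 / (400 * τ)) :=
    mul_le_mul h5 hpow (Real.rpow_nonneg hx0.le _) (by positivity)
  have h7 : 200000 * (τ * l) ^ 5 * x ^ (1 - 1 / (400 * τ)) =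
      100000 * (τ * l) ^ 5 * x ^ (1 - 1 / (400 * τ)) + 100000 * (τ * l) ^ 5 * x ^ (1 - 1 / (400 * τ)) := by ring
  rw [h7]
  exact h3'.trans (add_le_add h1 (h2.trans h6))

end Pool.Agent.MP81cdd9.NR
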