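import Pool.Agent.Lib.MP_81cdd9_nt.NR.I

/-! For almost all integers the later values avoid every prescribed thin set. -/

set_option autoImplicit false

namespace Pool.Agent.MP81cdd9.NR

open Finset Pool.Agent.MP81cdd9.HZ

open Classical in
/-- The `n` which are large until time `H` and hit `Y t` at some time `t ≤ H`. -/
noncomputable def Hit (K D H : ℕ) (Y : ℕ → Finset ℤ) : Finset ℤ :=
  (Ioo (-(2 : ℤ) ^ (K + 1)) (2 ^ (K + 1))).filter (fun n => (∀ l ≤ H, 2 ^ (K - D) ≤ |T^[l] n|) ∧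
    ∃ t ≤ H, T^[t] n ∈ Y t)

theorem card_Hit {K D H : ℕ} {Y : ℕ → Finset ℤ} {M : ℝ} (hY : ∀ t ≤ H, ((Y t).card : ℝ) ≤ M)
    (hD : D ≤ K) (hH : (H : ℝ) ≤ 2 ^ (K - D)) :
    ((Hit K D H Y).card : ℝ) ≤ (H + 1) ^ 3 * M * 2 ^ D := by
  classical
  have hsub : Hit K D H Y ⊆ (range (H + 1)).biUnion (fun t => (range (H + 1)).biUnion (fun o =>
      (Y t).biUnion (fun y => AtG K D t o y))) := by
    intro n hn
    unfold Hit at hn
    rw [Finset.mem_filter] at hn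
    obtain ⟨h1, h2, t, ht, hy⟩ := hn
    refine Finset.mem_biUnion.2 ⟨t, Finset.mem_range.2 (by omega), Finset.mem_biUnion.2 ⟨cc n t, ?_,
      Finset.mem_biUnion.2 ⟨T^[t] n, hy, ?_⟩⟩⟩
    · have := cc_le n t
      exact Finset.mem_range.2 (by omega)
    · unfold AtG
      rw [Finset.mem_filter]
      exact ⟨h1, rfl, rfl, fun l hl => h2 l (by omega)⟩
  have hsum : ∀ {ι : Type} (s : Finset ι) (f : ι → Finset ℤ) (M : ℝ), (∀ i ∈ s, ((f i).card : ℝ) ≤ M) →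
      ((s.biUnion f).card : ℝ) ≤ s.card * M := by
    intro ι s f M hf
    have h1 : ((s.biUnion f).card : ℝ) ≤ ∑ i ∈ s, ((f i).card : ℝ) := by exact_mod_cast Finset.card_biUnion_le
    refine h1.trans ((Finset.sum_le_sum hf).trans ?_)
    rw [Finset.sum_const, nsmul_eq_mul]
  have h1 : ∀ t ∈ range (H + 1), ∀ o ∈ range (H + 1),
      (((Y t).biUnion (fun y => AtG K D t o y)).card : ℝ) ≤ M * ((H + 1) * 2 ^ D) := by
    intro t ht o _
    have htH : t ≤ H := by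
      have := Finset.mem_range.1 ht
      omega
    have htH' : (t : ℝ) ≤ H := by exact_mod_cast htH
    refine (hsum (Y t) _ ((H + 1) * 2 ^ D) ?_).trans ?_
    · intro y _
      refine (card_AtG o y hD (htH'.trans hH)).trans ?_
      apply mul_le_mul_of_nonneg_right _ (by positivity)
      linarith
    · exact mul_le_mul_of_nonneg_right (hY t htH) (by positivity)
  have h3 : ∀ t ∈ range (H + 1), (((range (H + 1)).biUnion (fun o =>
      (Y t).biUnion (fun y => AtG K D t o y))).card : ℝ) ≤ (H + 1) * (M * ((H + 1) * 2 ^ D)) := by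
    intro t ht
    have := hsum (range (H + 1)) _ _ (h1 t ht)
    rwa [Finset.card_range, Nat.cast_add_one] at this
  have h4 := hsum (range (H + 1)) _ _ h3
  rw [Finset.card_range, Nat.cast_add_one] at h4
  have h5 : ((Hit K D H Y).card : ℝ) ≤ (((range (H + 1)).biUnion (fun t => (range (H + 1)).biUnion (fun o =>
      (Y t).biUnion (fun y => AtG K D t o y)))).card : ℝ) := by
    exact_mod_cast Finset.card_le_card hsub
  refine h5.trans (h4.trans (le_of_eq ?_))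
  ring

/-- The time up to which thin sets are avoided. -/
def HC (C K : ℕ) : ℕ := K ^ 2 / (C * lam K)

/-- The loss in binary digits. -/
def DC (C K : ℕ) : ℕ := 3 * (4 * bb K + 2) * (HC C K / (K / 2) + 1)

theorem lam_le (K : ℕ) (hK : 1 ≤ K) : (lam K : ℝ) ≤ 2 * Real.log K + 1 := by
  have h3 : (Nat.log 2 K : ℝ) * Real.log 2 ≤ Real.log K := by
    rw [← Real.log_pow]
    apply Real.log_le_log (by positivity)
    exact_mod_cast Nat.pow_log_le_self 2 (show K ≠ 0 by omega)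
  have hln2 := Real.log_two_gt_d9
  have h5 : (0 : ℝ) ≤ Nat.log 2 K := by positivity
  unfold lam
  push_cast
  nlinarith

theorem dc_small (κ : ℝ) (hκ : 0 < κ) : ∃ C : ℕ, 1 ≤ C ∧ ∃ K0 : ℕ, ∀ K ≥ K0, (DC C K : ℝ) ≤ κ * K := by
  obtain ⟨C, hC⟩ := exists_nat_ge (max 1 (756 / κ))
  have hC1 : (1 : ℝ) ≤ C := (le_max_left _ _).trans hC
  have hC2 : 756 / κ ≤ C := (le_max_right _ _).trans hC
  rw [div_le_iff₀ hκ] at hC2
  have hlim : Filter.Tendsto (fun x : ℝ => Real.log x ^ 1 / (1 * x + 0)) Filter.atTop (nhds 0) :=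
    Real.tendsto_pow_log_div_mul_add_atTop 1 0 1 one_ne_zero
  have hlim2 := hlim.comp tendsto_natCast_atTop_atTop
  have hev : ∀ᶠ K : ℕ in Filter.atTop, Real.log (K : ℝ) ^ 1 / (1 * (K : ℝ) + 0) < κ / 1008 :=
    hlim2.eventually (gt_mem_nhds (by positivity))
  obtain ⟨K0, hK0⟩ := Filter.eventually_atTop.1 hev
  obtain ⟨K1, hK1⟩ := exists_nat_ge (504 / κ)
  refine ⟨C, by exact_mod_cast hC1, max K0 (max K1 6), fun K hK => ?_⟩
  have ha := hK0 K ((le_max_left _ _).trans hK)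
  have hb : K1 ≤ K := (le_max_left _ _).trans ((le_max_right _ _).trans hK)
  have hc : 6 ≤ K := (le_max_right _ _).trans ((le_max_right _ _).trans hK)
  have hc' : (6 : ℝ) ≤ K := by exact_mod_cast hc
  rw [pow_one, one_mul, add_zero, div_lt_iff₀ (by linarith)] at ha
  have hb' : 504 ≤ κ * K := by
    have : (K1 : ℝ) ≤ K := by exact_mod_cast hb
    have h1 : 504 / κ ≤ K := hK1.trans this
    rw [div_le_iff₀ hκ] at h1
    linarith
  have hlam := lam_le K (by omega)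
  have hlam1 : (1 : ℝ) ≤ lam K := by
    have : 1 ≤ lam K := by unfold lam; omega
    exact_mod_cast this
  have h126 : ((3 * (4 * bb K + 2) : ℕ) : ℝ) ≤ 126 * lam K := by
    have : 3 * (4 * bb K + 2) ≤ 126 * lam K := by
      unfold bb lam
      omega
    exact_mod_cast this
  have hh : (K : ℝ) / 3 ≤ ((K / 2 : ℕ) : ℝ) := by
    have : K ≤ 3 * (K / 2) := by omega
    have h1 : (K : ℝ) ≤ 3 * ((K / 2 : ℕ) : ℝ) := by exact_mod_cast this
    linarith
  have hHC : (HC C K : ℝ) * (C * lam K) ≤ (K : ℝ) ^ 2 := by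
    have : HC C K * (C * lam K) ≤ K ^ 2 := Nat.div_mul_le_self _ _
    exact_mod_cast this
  have hq : ((HC C K / (K / 2) : ℕ) : ℝ) * lam K * C ≤ 3 * K := by
    have h1 : ((HC C K / (K / 2) : ℕ) : ℝ) * ((K / 2 : ℕ) : ℝ) ≤ HC C K := by
      exact_mod_cast Nat.div_mul_le_self _ _
    have h2 : (0 : ℝ) ≤ ((HC C K / (K / 2) : ℕ) : ℝ) := Nat.cast_nonneg _
    have h3 : ((HC C K / (K / 2) : ℕ) : ℝ) * (K / 3) ≤ HC C K := (mul_le_mul_of_nonneg_left hh h2).trans h1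
    have h4 : (((HC C K / (K / 2) : ℕ) : ℝ) * lam K * C) * (K / 3) ≤ (3 * K) * (K / 3) := by
      calc (((HC C K / (K / 2) : ℕ) : ℝ) * lam K * C) * (K / 3)
          = (((HC C K / (K / 2) : ℕ) : ℝ) * (K / 3)) * (C * lam K) := by ring
        _ ≤ HC C K * (C * lam K) := mul_le_mul_of_nonneg_right h3 (by positivity)
        _ ≤ (K : ℝ) ^ 2 := hHC
        _ = (3 * K) * (K / 3) := by ring
    exact le_of_mul_le_mul_right h4 (by positivity)
  have h1 : (DC C K : ℝ) ≤ (126 * lam K) * (((HC C K / (K / 2) : ℕ) : ℝ) + 1) := by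
    unfold DC
    rw [Nat.cast_mul]
    have h2 : (((HC C K / (K / 2) + 1 : ℕ)) : ℝ) = ((HC C K / (K / 2) : ℕ) : ℝ) + 1 := by push_cast; ring
    rw [h2]
    exact mul_le_mul_of_nonneg_right h126 (by positivity)
  have h2 : 126 * (((HC C K / (K / 2) : ℕ) : ℝ) * lam K) ≤ κ / 2 * K := by
    have h3 : (126 * (((HC C K / (K / 2) : ℕ) : ℝ) * lam K)) * C ≤ (κ / 2 * K) * C := by
      calc (126 * (((HC C K / (K / 2) : ℕ) : ℝ) * lam K)) * C
          = 126 * (((HC C K / (K / 2) : ℕ) : ℝ) * lam K * C) := by ring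
        _ ≤ 126 * (3 * K) := by linarith
        _ ≤ (κ / 2 * K) * C := by nlinarith
    exact le_of_mul_le_mul_right h3 (by linarith)
  have h3 : 126 * (lam K : ℝ) ≤ κ / 2 * K := by nlinarith
  calc (DC C K : ℝ) ≤ (126 * lam K) * (((HC C K / (K / 2) : ℕ) : ℝ) + 1) := h1
    _ = 126 * (((HC C K / (K / 2) : ℕ) : ℝ) * lam K) + 126 * lam K := by ring
    _ ≤ κ / 2 * K + κ / 2 * K := add_le_add h2 h3
    _ = κ * K := by ring

/-- For a good `n` all values until the time `H` are large. -/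
theorem good_big' {K H D : ℕ} (hK : 16 ≤ K) (hb : (K / 2) * 2 ^ (4 * bb K) ≤ 2 ^ (K / 2)) {n : ℤ} (h1 : 2 ^ K ≤ |n|)
    (h2 : |n| < 2 ^ (K + 1)) (hn : n ∉ Bad K (K ^ 2) (bb K) (K / 2))
    (hD : 3 * (4 * bb K + 2) * (H / (K / 2) + 1) ≤ D) (hDK : D ≤ K) (l : ℕ) (hl : l ≤ H) :
    2 ^ (K - D) ≤ |T^[l] n| := by
  have h3 := good_all hK hb h1 h2 hn l
  have h4 : 3 * (4 * bb K + 2) * (l / (K / 2) + 1) ≤ D := by
    refine le_trans ?_ hD
    apply Nat.mul_le_mul_left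
    exact Nat.add_le_add_right (Nat.div_le_div_right hl) 1
  have h5 : |n| ≤ 2 ^ D * |T^[l] n| :=
    h3.trans (mul_le_mul_of_nonneg_right (pow_le_pow_right₀ (by norm_num) h4) (abs_nonneg _))
  have h6 : (2 : ℤ) ^ D * 2 ^ (K - D) ≤ 2 ^ D * |T^[l] n| := by
    rw [← pow_add, show D + (K - D) = K by omega]
    exact h1.trans h5
  exact le_of_mul_le_mul_left h6 (by positivity)

/-- From the condition on the time to the time bound of the block. -/
theorem time_le' {C K : ℕ} (hC : 1 ≤ C) (hK : 1000 ≤ K) {x : ℝ} (h1 : 2 ^ K ≤ x) (h2 : x ≤ 2 ^ (K + 1)) {k : ℕ}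
    (hk : k * Real.log (Real.log x) ≤ 1 / (2 * C) * Real.log x ^ 2) : k ≤ HC C K := by
  have hK' : (1000 : ℝ) ≤ K := by exact_mod_cast hK
  have hC' : (1 : ℝ) ≤ C := by exact_mod_cast hC
  have hx0 : 0 < x := lt_of_lt_of_le (by positivity) h1
  have hl1 : K * Real.log 2 ≤ Real.log x := by
    rw [← Real.log_pow]
    exact Real.log_le_log (by positivity) h1
  have hl2 : Real.log x ≤ (K + 1) * Real.log 2 := by
    have := Real.log_le_log hx0 h2
    rw [Real.log_pow] at this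
    push_cast at this
    exact this
  have hln2 := Real.log_two_gt_d9
  have hln2' := Real.log_two_lt_d9
  obtain ⟨l, hl⟩ : ∃ l, l = Real.log x := ⟨_, rfl⟩
  rw [← hl] at hl1 hl2 hk
  have hl3 : 0.69 * K ≤ l := by nlinarith
  have hl4 : l ≤ 0.7 * (K + 1) := by nlinarith
  have hlogK : (2 : ℝ) ≤ Real.log K := by
    rw [Real.le_log_iff_exp_le (by linarith)]
    have h3 : Real.exp 2 ≤ 9 := by
      have h4 : Real.exp 2 = Real.exp 1 ^ 2 := by rw [← Real.exp_nat_mul]; norm_num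
      rw [h4]
      have := Real.exp_one_lt_d9
      have h5 := Real.exp_pos 1
      nlinarith
    linarith
  have hloglog : Real.log K - 1 / 2 ≤ Real.log l := by
    have h3 : Real.log (0.69 * K) ≤ Real.log l := Real.log_le_log (by positivity) hl3
    rw [Real.log_mul (by norm_num) (by linarith)] at h3
    have h4 : -(1 / 2 : ℝ) ≤ Real.log 0.69 := by
      rw [Real.le_log_iff_exp_le (by norm_num), Real.exp_neg]
      have h5 : 1.5 ≤ Real.exp (1 / 2) := by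
        have := Real.add_one_le_exp (1 / 2 : ℝ)
        linarith
      have h6 : (Real.exp (1 / 2))⁻¹ ≤ (1.5)⁻¹ := inv_anti₀ (by norm_num) h5
      refine h6.trans (by norm_num)
    linarith
  have hlam : (lam K : ℝ) ≤ 3 * Real.log l := by
    have h3 : (Nat.log 2 K : ℝ) * Real.log 2 ≤ Real.log K := by
      rw [← Real.log_pow]
      apply Real.log_le_log (by positivity)
      exact_mod_cast Nat.pow_log_le_self 2 (show K ≠ 0 by omega)
    have h4 : (Nat.log 2 K : ℝ) ≤ 1.5 * Real.log K := by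
      have h5 : (0 : ℝ) ≤ Nat.log 2 K := by positivity
      nlinarith
    unfold lam
    push_cast
    linarith
  have h5 : (k : ℝ) * (C * lam K) ≤ K ^ 2 := by
    have h6 : (k : ℝ) * lam K ≤ k * (3 * Real.log l) := mul_le_mul_of_nonneg_left hlam (by positivity)
    have h7 : l ^ 2 ≤ (0.7 * (K + 1)) ^ 2 := pow_le_pow_left₀ (by linarith) hl4 2
    have h8 : (k * Real.log l) * C ≤ l ^ 2 / 2 := by
      calc (k * Real.log l) * C ≤ (1 / (2 * C) * l ^ 2) * C := mul_le_mul_of_nonneg_right hk (by linarith)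
        _ = l ^ 2 / 2 := by field_simp
    calc (k : ℝ) * (C * lam K) = (k * lam K) * C := by ring
      _ ≤ (k * (3 * Real.log l)) * C := mul_le_mul_of_nonneg_right h6 (by linarith)
      _ = 3 * ((k * Real.log l) * C) := by ring
      _ ≤ 3 * (l ^ 2 / 2) := by linarith
      _ ≤ K ^ 2 := by nlinarith
  unfold HC
  rw [Nat.le_div_iff_mul_le (by
    have : 1 ≤ lam K := by unfold lam; omega
    positivity)]
  exact_mod_cast h5

theorem log_eq {K : ℕ} {n : ℤ} (h1 : 2 ^ K ≤ |n|) (h2 : |n| < 2 ^ (K + 1)) : Nat.log 2 n.natAbs = K := by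
  rw [← Int.natCast_natAbs] at h1 h2
  have h1' : 2 ^ K ≤ n.natAbs := by exact_mod_cast h1
  have h2' : n.natAbs < 2 ^ (K + 1) := by exact_mod_cast h2
  exact (Nat.log_eq_iff (Or.inr ⟨by norm_num, by
    have : 0 < 2 ^ K := by positivity
    omega⟩)).2 ⟨h1', h2'⟩

/-- Few integers hit a thin set. -/
theorem hit_small (κ : ℝ) (hκ : 0 < κ) (hκ1 : κ ≤ 1) (C : ℕ) (K0 : ℕ)
    (hDC : ∀ K ≥ K0, (DC C K : ℝ) ≤ κ / 2 * K) (Y : ℕ → ℕ → Finset ℤ) (K1 : ℕ)
    (hY : ∀ K ≥ K1, ∀ k ≤ K ^ 2, ((Y K k).card : ℝ) ≤ 2 ^ ((1 - κ) * K)) (δ : ℝ) (hδ : 0 < δ) :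
    ∃ K2 : ℕ, ∀ K ≥ K2, ((K ^ 2 : ℕ) : ℝ) ≤ 2 ^ (K / 2) → ((Hit K (DC C K) (HC C K) (Y K)).card : ℝ) ≤ δ * 2 ^ K := by
  obtain ⟨ρ, hρdef⟩ : ∃ ρ : ℝ, ρ = (2 : ℝ) ^ (κ / 2) := ⟨_, rfl⟩
  have hρ1 : 1 < ρ := by
    rw [hρdef]
    exact Real.one_lt_rpow (by norm_num) (by linarith)
  have h1 : Filter.Tendsto (fun K : ℕ => (K : ℝ) ^ 6 / ρ ^ K) Filter.atTop (nhds 0) :=
    tendsto_pow_const_div_const_pow_of_one_lt 6 hρ1
  have h2 : ∀ᶠ K : ℕ in Filter.atTop, (K : ℝ) ^ 6 / ρ ^ K < δ / 8 := h1.eventually (gt_mem_nhds (by positivity))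
  obtain ⟨K2, hK2⟩ := Filter.eventually_atTop.1 h2
  refine ⟨max (max K0 K1) (max K2 1), fun K hK hH => ?_⟩
  have hKa : K0 ≤ K := (le_max_left _ _).trans ((le_max_left _ _).trans hK)
  have hKb : K1 ≤ K := (le_max_right _ _).trans ((le_max_left _ _).trans hK)
  have hKc := hK2 K ((le_max_left _ _).trans ((le_max_right _ _).trans hK))
  have hKd : 1 ≤ K := (le_max_right _ _).trans ((le_max_right _ _).trans hK)
  have hKr : (1 : ℝ) ≤ K := by exact_mod_cast hKd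
  have hρK : 0 < ρ ^ K := by positivity
  rw [div_lt_iff₀ hρK] at hKc
  have hD := hDC K hKa
  have hD2 : 2 * DC C K ≤ K := by
    have : (2 : ℝ) * DC C K ≤ K := by nlinarith
    exact_mod_cast this
  have hHC : HC C K ≤ K ^ 2 := Nat.div_le_self _ _
  have hHC' : (HC C K : ℝ) ≤ (K : ℝ) ^ 2 := by exact_mod_cast hHC
  have h3 : (HC C K : ℝ) ≤ 2 ^ (K - DC C K) := by
    have h4 : (2 : ℝ) ^ (K / 2) ≤ 2 ^ (K - DC C K) := pow_le_pow_right₀ (by norm_num) (by omega)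
    push_cast at hH
    linarith
  have h5 := card_Hit (K := K) (D := DC C K) (H := HC C K) (Y := Y K) (M := 2 ^ ((1 - κ) * K))
    (fun t ht => hY K hKb t (ht.trans hHC)) (by omega) h3
  have h6 : (2 : ℝ) ^ ((1 - κ) * K) * 2 ^ DC C K * ρ ^ K ≤ 2 ^ K := by
    rw [hρdef, ← Real.rpow_natCast 2 (DC C K), ← Real.rpow_natCast _ K, ← Real.rpow_mul (by norm_num),
      ← Real.rpow_natCast 2 K, ← Real.rpow_add (by norm_num), ← Real.rpow_add (by norm_num)]
    apply Real.rpow_le_rpow_of_exponent_le (by norm_num)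
    nlinarith
  have h7 : ((HC C K : ℝ) + 1) ^ 3 ≤ 8 * (K : ℝ) ^ 6 := by
    have hA0 : (0 : ℝ) ≤ (HC C K : ℝ) := Nat.cast_nonneg _
    generalize (HC C K : ℝ) = A at hA0 hHC' ⊢
    have h8 : A + 1 ≤ 2 * (K : ℝ) ^ 2 := by nlinarith
    calc (A + 1) ^ 3 ≤ (2 * (K : ℝ) ^ 2) ^ 3 := pow_le_pow_left₀ (by linarith) h8 3
      _ = 8 * (K : ℝ) ^ 6 := by ring
  have h8 : ((Hit K (DC C K) (HC C K) (Y K)).card : ℝ) * ρ ^ K ≤ (δ * 2 ^ K) * ρ ^ K := by
    calc ((Hit K (DC C K) (HC C K) (Y K)).card : ℝ) * ρ ^ K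
        ≤ (((HC C K : ℝ) + 1) ^ 3 * 2 ^ ((1 - κ) * K) * 2 ^ DC C K) * ρ ^ K :=
          mul_le_mul_of_nonneg_right h5 hρK.le
      _ = ((HC C K : ℝ) + 1) ^ 3 * ((2 : ℝ) ^ ((1 - κ) * K) * 2 ^ DC C K * ρ ^ K) := by ring
      _ ≤ (8 * (K : ℝ) ^ 6) * 2 ^ K := mul_le_mul h7 h6 (by positivity) (by positivity)
      _ ≤ (8 * (δ / 8 * ρ ^ K)) * 2 ^ K := by
          apply mul_le_mul_of_nonneg_right _ (by positivity)
          linarith
      _ = (δ * 2 ^ K) * ρ ^ K := by ring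
  exact le_of_mul_le_mul_right h8 hρK

/-- For almost all integers the values until the time `c (log |n|)^2 / log log |n|` avoid every prescribed thin set. -/
theorem avoid (κ : ℝ) (hκ : 0 < κ) : ∃ c : ℝ, 0 < c ∧ ∀ Y : ℕ → ℕ → Finset ℤ,
    (∃ K1 : ℕ, ∀ K ≥ K1, ∀ k ≤ K ^ 2, ((Y K k).card : ℝ) ≤ 2 ^ ((1 - κ) * K)) →
    DensityOne {n : ℤ | ∀ k : ℕ, k * Real.log (Real.log |(n : ℝ)|) ≤ c * Real.log |(n : ℝ)| ^ 2 →
      T^[k] n ∉ Y (Nat.log 2 n.natAbs) k} := by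
  classical
  obtain ⟨κ', hκ'⟩ : ∃ κ', κ' = min κ 1 := ⟨_, rfl⟩
  have hκ0 : 0 < κ' := by rw [hκ']; exact lt_min hκ one_pos
  have hκ1 : κ' ≤ 1 := by rw [hκ']; exact min_le_right _ _
  have hκκ : κ' ≤ κ := by rw [hκ']; exact min_le_left _ _
  obtain ⟨C, hC, K0, hDC⟩ := dc_small (κ' / 2) (by linarith)
  have hCr : (1 : ℝ) ≤ C := by exact_mod_cast hC
  refine ⟨1 / (2 * C), by positivity, ?_⟩
  rintro Y ⟨K1, hY⟩
  have hY' : ∀ K ≥ K1, ∀ k ≤ K ^ 2, ((Y K k).card : ℝ) ≤ 2 ^ ((1 - κ') * K) := by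
    intro K hK k hk
    refine (hY K hK k hk).trans ?_
    apply Real.rpow_le_rpow_of_exponent_le (by norm_num)
    apply mul_le_mul_of_nonneg_right _ (by positivity)
    linarith
  obtain ⟨Kp, h8, hKp⟩ := params
  refine density_of_events (fun K n => n ∉ Bad K (K ^ 2) (bb K) (K / 2) ∧
    n ∉ Hit K (DC C K) (HC C K) (Y K)) _ ⟨max (max Kp K0) 1000, ?_⟩ ?_
  · rintro K hK n h1 h2 ⟨hn, hhit⟩
    have hKp' := hKp K ((le_max_left _ _).trans ((le_max_left _ _).trans hK))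
    have hDC' := hDC K ((le_max_right _ _).trans ((le_max_left _ _).trans hK))
    have h1000 : 1000 ≤ K := (le_max_right _ _).trans hK
    have hKr : (1000 : ℝ) ≤ K := by exact_mod_cast h1000
    have h1' : (2 : ℝ) ^ K ≤ |(n : ℝ)| := by exact_mod_cast h1
    have h2' : |(n : ℝ)| ≤ 2 ^ (K + 1) := by exact_mod_cast h2.le
    intro k hk
    have hkH := time_le' hC h1000 h1' h2' hk
    rw [log_eq h1 h2]
    intro hmem
    apply hhit
    unfold Hit
    rw [Finset.mem_filter, Finset.mem_Ioo, ← abs_lt]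
    have hDK : DC C K ≤ K := by
      have : (DC C K : ℝ) ≤ K := by nlinarith
      exact_mod_cast this
    exact ⟨h2, fun l hl => good_big' (by omega) hKp'.2 h1 h2 hn (le_refl _) hDK l hl, k, hkH, hmem⟩
  · intro δ hδ
    obtain ⟨K2, hK2⟩ := bad_small (δ / 2) (by positivity)
    obtain ⟨K3, hK3⟩ := hit_small κ' hκ0 hκ1 C K0 hDC Y K1 hY' (δ / 2) (by positivity)
    refine ⟨max Kp (max K2 K3), fun K hK k0 => ?_⟩
    have h1 := hKp K ((le_max_left _ _).trans hK)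
    have h2 := hK2 K ((le_max_left _ _).trans ((le_max_right _ _).trans hK)) h1.1
    have h3 := hK3 K ((le_max_right _ _).trans ((le_max_right _ _).trans hK)) h1.1
    have h4 : {n : ℤ | n ∈ Ico (k0 * 2 ^ K) ((k0 + 1) * 2 ^ K) ∧ ¬ (n ∉ Bad K (K ^ 2) (bb K) (K / 2) ∧
        n ∉ Hit K (DC C K) (HC C K) (Y K))} ⊆
        ((Bad K (K ^ 2) (bb K) (K / 2) ∪ Hit K (DC C K) (HC C K) (Y K) : Finset ℤ) : Set ℤ) := by
      intro n hn
      rw [Finset.coe_union]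
      by_cases h5 : n ∈ Bad K (K ^ 2) (bb K) (K / 2)
      · exact Or.inl h5
      · right
        by_contra h6
        exact hn.2 ⟨h5, h6⟩
    have h5 := Set.ncard_le_ncard h4 (Finset.finite_toSet _)
    rw [Set.ncard_coe_finset] at h5
    have h6 := h5.trans (Finset.card_union_le _ _)
    have h7 : (({n : ℤ | n ∈ Ico (k0 * 2 ^ K) ((k0 + 1) * 2 ^ K) ∧ ¬ (n ∉ Bad K (K ^ 2) (bb K) (K / 2) ∧
        n ∉ Hit K (DC C K) (HC C K) (Y K))}.ncard : ℕ) : ℝ) ≤ ((Bad K (K ^ 2) (bb K) (K / 2)).card : ℝ) +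
        ((Hit K (DC C K) (HC C K) (Y K)).card : ℝ) := by exact_mod_cast h6
    linarith

theorem DensityOne.mono {A B : Set ℤ} (h : A ⊆ B) (hA : DensityOne A) : DensityOne B := by
  unfold DensityOne at *
  have hfin : ∀ N : ℕ, (Set.Icc (-(N : ℤ)) (N : ℤ) ∩ B).Finite := fun N => (Set.finite_Icc _ _).inter_of_left _
  refine tendsto_of_tendsto_of_tendsto_of_le_of_le hA tendsto_const_nhds ?_ ?_
  · intro N
    have h1 : (Set.Icc (-(N : ℤ)) (N : ℤ) ∩ A).ncard ≤ (Set.Icc (-(N : ℤ)) (N : ℤ) ∩ B).ncard :=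
      Set.ncard_le_ncard (Set.inter_subset_inter_right _ h) (hfin N)
    have h2 : ((Set.Icc (-(N : ℤ)) (N : ℤ) ∩ A).ncard : ℝ) ≤ ((Set.Icc (-(N : ℤ)) (N : ℤ) ∩ B).ncard : ℝ) := by
      exact_mod_cast h1
    exact div_le_div_of_nonneg_right h2 (by positivity)
  · intro N
    have h1 : (Set.Icc (-(N : ℤ)) (N : ℤ) ∩ B).ncard ≤ (Set.Icc (-(N : ℤ)) (N : ℤ)).ncard :=
      Set.ncard_le_ncard Set.inter_subset_left (Set.finite_Icc _ _)
    have h2 : (Set.Icc (-(N : ℤ)) (N : ℤ)).ncard = 2 * N + 1 := by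
      rw [← Finset.coe_Icc, Set.ncard_coe_finset, Int.card_Icc]
      omega
    rw [h2] at h1
    have h3 : ((Set.Icc (-(N : ℤ)) (N : ℤ) ∩ B).ncard : ℝ) ≤ 2 * N + 1 := by exact_mod_cast h1
    exact div_le_one_of_le₀ h3 (by positivity)

/-- Long excursions. -/
theorem excursions : DensityOne {n : ℤ | ∀ k : ℕ,
    k * Real.log (Real.log |(n : ℝ)|) ≤ 1 / (2 * 10 ^ 6) * Real.log |(n : ℝ)| ^ 2 →
      ∃ j : ℕ, (j : ℝ) ≤ 3 / 2 * Real.log |(n : ℝ)| ∧ |(n : ℝ)| ^ (1.01 : ℝ) ≤ |((T^[k + j] n : ℤ) : ℝ)|} :=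
  DensityOne.mono (fun _ hn => hn.2) main

theorem T_le (y : ℤ) : |T y| ≤ 4 * |y| := by
  have h := two_T y
  have h1 : |2 * T y| ≤ 8 * |y| := by
    rw [h]
    split_ifs with h2
    · have hy : 1 ≤ |y| := Int.one_le_abs (by rintro rfl; omega)
      calc |5 * y + 1| ≤ |5 * y| + |1| := abs_add_le _ _
        _ = 5 * |y| + 1 := by rw [abs_mul]; norm_num
        _ ≤ 8 * |y| := by linarith
    · have := abs_nonneg y
      linarith
  rw [abs_mul, show |(2 : ℤ)| = 2 by norm_num] at h1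
  linarith

theorem iter_le (n : ℤ) (k : ℕ) : |T^[k] n| ≤ 4 ^ k * |n| := by
  induction k with
  | zero => simp
  | succ k ih =>
    rw [Function.iterate_succ_apply', pow_succ]
    have := T_le (T^[k] n)
    linarith

theorem transferF (L : ℕ) (m : ℤ) (F : Finset (Finset ℕ)) :
    ((Ico m (m + 2 ^ L)).filter (fun n => par L n ∈ F)).card ≤ F.card := by
  have h1 := transfer' L m (fun S => S ∈ F)
  have h2 : (@Finset.filter (Finset ℕ) (fun S => S ∈ F) (fun _ => Classical.propDecidable _)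
      (range L).powerset).card ≤ F.card := by
    apply Finset.card_le_card
    intro S hS
    exact (@Finset.mem_filter _ _ (fun _ => Classical.propDecidable _) _ _).1 hS |>.2
  refine le_trans (le_of_eq ?_) (h1.trans h2)
  congr 1
  ext y
  simp only [Finset.mem_filter]

open Classical in
/-- The integers below `2 ^ R` whose parity word (up to their own logarithm) is prescribed. -/
noncomputable def WordY (R : ℕ) (F : ℕ → Finset (Finset ℕ)) : Finset ℤ :=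
  (Ioo (-(2 : ℤ) ^ R) (2 ^ R)).filter (fun y => par (Nat.log 2 y.natAbs) y ∈ F (Nat.log 2 y.natAbs))

theorem card_WordY (R : ℕ) (F : ℕ → Finset (Finset ℕ)) (M : ℝ) (hF : ∀ m < R, ((F m).card : ℝ) ≤ M) :
    ((WordY R F).card : ℝ) ≤ 1 + R * (2 * M) := by
  classical
  have hsub : WordY R F ⊆ {0} ∪ (range R).biUnion (fun m =>
      (Ico ((2 : ℤ) ^ m) (2 ^ m + 2 ^ m)).filter (fun y => par m y ∈ F m) ∪
      (Ico (-(2 : ℤ) ^ (m + 1) + 1) (-(2 : ℤ) ^ (m + 1) + 1 + 2 ^ m)).filter (fun y => par m y ∈ F m)) := by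
    intro y hy
    unfold WordY at hy
    rw [Finset.mem_filter, Finset.mem_Ioo, ← abs_lt] at hy
    obtain ⟨h1, h2⟩ := hy
    by_cases hy0 : y = 0
    · rw [hy0]
      exact Finset.mem_union_left _ (Finset.mem_singleton_self _)
    apply Finset.mem_union_right
    obtain ⟨m, hm⟩ : ∃ m, m = Nat.log 2 y.natAbs := ⟨_, rfl⟩
    have hL1 : (2 : ℤ) ^ m ≤ |y| := by
      rw [← Int.natCast_natAbs]
      have := Nat.pow_log_le_self 2 (Int.natAbs_ne_zero.2 hy0)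
      rw [← hm] at this
      exact_mod_cast this
    have hL2 : |y| < 2 ^ (m + 1) := by
      rw [← Int.natCast_natAbs]
      have := Nat.lt_pow_succ_log_self (b := 2) (by norm_num) y.natAbs
      rw [← hm] at this
      exact_mod_cast this
    rw [← hm] at h2
    have hmR : m < R := by
      by_contra hcon
      push Not at hcon
      have : (2 : ℤ) ^ R ≤ 2 ^ m := pow_le_pow_right₀ (by norm_num) hcon
      linarith
    rw [Finset.mem_biUnion]
    refine ⟨m, Finset.mem_range.2 hmR, ?_⟩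
    rw [Finset.mem_union, Finset.mem_filter, Finset.mem_filter, Finset.mem_Ico, Finset.mem_Ico]
    have h4 : (2 : ℤ) ^ (m + 1) = 2 * 2 ^ m := by ring
    rw [abs_lt] at hL2
    rcases le_abs.1 hL1 with h5 | h5
    · left; exact ⟨⟨h5, by linarith [hL2.2]⟩, h2⟩
    · right; exact ⟨⟨by linarith [hL2.1], by linarith⟩, h2⟩
  have hone : ∀ m ∈ range R, (((Ico ((2 : ℤ) ^ m) (2 ^ m + 2 ^ m)).filter (fun y => par m y ∈ F m) ∪
      (Ico (-(2 : ℤ) ^ (m + 1) + 1) (-(2 : ℤ) ^ (m + 1) + 1 + 2 ^ m)).filter (fun y => par m y ∈ F m)).card : ℝ) ≤ 2 * M := by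
    intro m hm
    have h1 := Finset.card_union_le ((Ico ((2 : ℤ) ^ m) (2 ^ m + 2 ^ m)).filter (fun y => par m y ∈ F m))
      ((Ico (-(2 : ℤ) ^ (m + 1) + 1) (-(2 : ℤ) ^ (m + 1) + 1 + 2 ^ m)).filter (fun y => par m y ∈ F m))
    have h2 := transferF m ((2 : ℤ) ^ m) (F m)
    have h3 := transferF m (-(2 : ℤ) ^ (m + 1) + 1) (F m)
    have h5 : (((Ico ((2 : ℤ) ^ m) (2 ^ m + 2 ^ m)).filter (fun y => par m y ∈ F m) ∪
      (Ico (-(2 : ℤ) ^ (m + 1) + 1) (-(2 : ℤ) ^ (m + 1) + 1 + 2 ^ m)).filter (fun y => par m y ∈ F m)).card) ≤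
        2 * (F m).card := by
      rw [two_mul]
      exact h1.trans (add_le_add h2 h3)
    have h6 := hF m (Finset.mem_range.1 hm)
    have h7 : (((Ico ((2 : ℤ) ^ m) (2 ^ m + 2 ^ m)).filter (fun y => par m y ∈ F m) ∪
      (Ico (-(2 : ℤ) ^ (m + 1) + 1) (-(2 : ℤ) ^ (m + 1) + 1 + 2 ^ m)).filter (fun y => par m y ∈ F m)).card : ℝ) ≤
        2 * ((F m).card : ℝ) := by exact_mod_cast h5
    linarith
  have h1 := (Finset.card_le_card hsub).trans (Finset.card_union_le _ _)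
  rw [Finset.card_singleton] at h1
  have h2 : (((range R).biUnion (fun m =>
      (Ico ((2 : ℤ) ^ m) (2 ^ m + 2 ^ m)).filter (fun y => par m y ∈ F m) ∪
      (Ico (-(2 : ℤ) ^ (m + 1) + 1) (-(2 : ℤ) ^ (m + 1) + 1 + 2 ^ m)).filter (fun y => par m y ∈ F m))).card : ℝ) ≤
      R * (2 * M) := by
    have h3 : (((range R).biUnion (fun m =>
      (Ico ((2 : ℤ) ^ m) (2 ^ m + 2 ^ m)).filter (fun y => par m y ∈ F m) ∪
      (Ico (-(2 : ℤ) ^ (m + 1) + 1) (-(2 : ℤ) ^ (m + 1) + 1 + 2 ^ m)).filter (fun y => par m y ∈ F m))).card : ℝ) ≤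
      ∑ m ∈ range R, (((Ico ((2 : ℤ) ^ m) (2 ^ m + 2 ^ m)).filter (fun y => par m y ∈ F m) ∪
      (Ico (-(2 : ℤ) ^ (m + 1) + 1) (-(2 : ℤ) ^ (m + 1) + 1 + 2 ^ m)).filter (fun y => par m y ∈ F m)).card : ℝ) := by
      exact_mod_cast Finset.card_biUnion_le
    refine h3.trans ((Finset.sum_le_sum hone).trans ?_)
    rw [Finset.sum_const, Finset.card_range, nsmul_eq_mul]
  have h3 : ((WordY R F).card : ℝ) ≤ 1 + (((range R).biUnion (fun m =>
      (Ico ((2 : ℤ) ^ m) (2 ^ m + 2 ^ m)).filter (fun y => par m y ∈ F m) ∪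
      (Ico (-(2 : ℤ) ^ (m + 1) + 1) (-(2 : ℤ) ^ (m + 1) + 1 + 2 ^ m)).filter (fun y => par m y ∈ F m))).card : ℝ) := by
    exact_mod_cast h1
  linarith

/-- For almost all integers the parity words at all times until `c (log |n|)^2 / log log |n|` avoid every prescribed thin family. -/
theorem avoid_words (κ : ℝ) (hκ : 0 < κ) : ∃ c : ℝ, 0 < c ∧ ∀ F : ℕ → ℕ → ℕ → Finset (Finset ℕ),
    (∀ K k m : ℕ, ((F K k m).card : ℝ) ≤ 2 ^ ((1 - κ) * K)) →
    DensityOne {n : ℤ | ∀ k : ℕ, k * Real.log (Real.log |(n : ℝ)|) ≤ c * Real.log |(n : ℝ)| ^ 2 →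
      par (Nat.log 2 (T^[k] n).natAbs) (T^[k] n) ∉ F (Nat.log 2 n.natAbs) k (Nat.log 2 (T^[k] n).natAbs)} := by
  classical
  obtain ⟨κ', hκ'⟩ : ∃ κ', κ' = min κ 1 := ⟨_, rfl⟩
  have hκ0 : 0 < κ' := by rw [hκ']; exact lt_min hκ one_pos
  have hκ1 : κ' ≤ 1 := by rw [hκ']; exact min_le_right _ _
  have hκκ : κ' ≤ κ := by rw [hκ']; exact min_le_left _ _
  obtain ⟨c, hc, hav⟩ := avoid (κ' / 2) (by linarith)
  refine ⟨c, hc, ?_⟩
  intro F hF
  refine DensityOne.mono ?_ (hav (fun K k => WordY (K + 2 * k + 2) (F K k)) ?_)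
  · intro n hn k hk hmem
    refine hn k hk ?_
    unfold WordY
    rw [Finset.mem_filter, Finset.mem_Ioo, ← abs_lt]
    refine ⟨?_, hmem⟩
    have h1 := iter_le n k
    have h2 : |n| < 2 ^ (Nat.log 2 n.natAbs + 1) := by
      rw [← Int.natCast_natAbs]
      have := Nat.lt_pow_succ_log_self (b := 2) (by norm_num) n.natAbs
      exact_mod_cast this
    have h3 : (4 : ℤ) ^ k = 2 ^ (2 * k) := by rw [pow_mul]; norm_num
    rw [h3] at h1
    calc |T^[k] n| ≤ 2 ^ (2 * k) * |n| := h1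
      _ < 2 ^ (2 * k) * 2 ^ (Nat.log 2 n.natAbs + 1) := mul_lt_mul_of_pos_left h2 (by positivity)
      _ = 2 ^ (Nat.log 2 n.natAbs + 2 * k + 1) := by rw [← pow_add]; congr 1; omega
      _ ≤ 2 ^ (Nat.log 2 n.natAbs + 2 * k + 2) := pow_le_pow_right₀ (by norm_num) (by omega)
  · obtain ⟨ρ, hρdef⟩ : ∃ ρ : ℝ, ρ = (2 : ℝ) ^ (κ' / 2) := ⟨_, rfl⟩
    have hρ1 : 1 < ρ := by
      rw [hρdef]
      exact Real.one_lt_rpow (by norm_num) (by linarith)
    have h1 : Filter.Tendsto (fun K : ℕ => (K : ℝ) ^ 2 / ρ ^ K) Filter.atTop (nhds 0) :=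
      tendsto_pow_const_div_const_pow_of_one_lt 2 hρ1
    have h2 : ∀ᶠ K : ℕ in Filter.atTop, (K : ℝ) ^ 2 / ρ ^ K < 1 / 12 := h1.eventually (gt_mem_nhds (by norm_num))
    obtain ⟨K2, hK2⟩ := Filter.eventually_atTop.1 h2
    refine ⟨max K2 1, fun K hK k hk => ?_⟩
    have hKc := hK2 K ((le_max_left _ _).trans hK)
    have hKd : 1 ≤ K := (le_max_right _ _).trans hK
    have hKr : (1 : ℝ) ≤ K := by exact_mod_cast hKd
    have hρK : 0 < ρ ^ K := by positivity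
    rw [div_lt_iff₀ hρK] at hKc
    have h3 := card_WordY (K + 2 * k + 2) (F K k) (2 ^ ((1 - κ') * K)) (fun m _ => by
      refine (hF K k m).trans ?_
      apply Real.rpow_le_rpow_of_exponent_le (by norm_num)
      apply mul_le_mul_of_nonneg_right _ (by positivity)
      linarith)
    have hk' : (k : ℝ) ≤ (K : ℝ) ^ 2 := by exact_mod_cast hk
    have hM1 : (1 : ℝ) ≤ 2 ^ ((1 - κ') * K) := Real.one_le_rpow (by norm_num) (mul_nonneg (by linarith) (by positivity))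
    obtain ⟨M, hM⟩ : ∃ M, M = (2 : ℝ) ^ ((1 - κ') * K) := ⟨_, rfl⟩
    rw [← hM] at h3 hM1
    have hR : (((K + 2 * k + 2 : ℕ)) : ℝ) ≤ 5 * (K : ℝ) ^ 2 := by
      push_cast
      nlinarith
    have h4 : ((WordY (K + 2 * k + 2) (F K k)).card : ℝ) ≤ 12 * (K : ℝ) ^ 2 * M := by
      have h5 : (((K + 2 * k + 2 : ℕ)) : ℝ) * (2 * M) ≤ (5 * (K : ℝ) ^ 2) * (2 * M) :=
        mul_le_mul_of_nonneg_right hR (by linarith)
      have h6 : (1 : ℝ) ≤ (K : ℝ) ^ 2 * M := by nlinarith [one_le_pow₀ (n := 2) hKr]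
      linarith
    have h5 : M * ρ ^ K = 2 ^ ((1 - κ' / 2) * K) := by
      rw [hM, hρdef, ← Real.rpow_natCast _ K, ← Real.rpow_mul (by norm_num), ← Real.rpow_add (by norm_num)]
      congr 1
      ring
    calc ((WordY (K + 2 * k + 2) (F K k)).card : ℝ) ≤ 12 * (K : ℝ) ^ 2 * M := h4
      _ ≤ 12 * (1 / 12 * ρ ^ K) * M := by
          apply mul_le_mul_of_nonneg_right _ (by linarith)
          linarith
      _ = M * ρ ^ K := by ring
      _ = 2 ^ ((1 - κ' / 2) * K) := h5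

end Pool.Agent.MP81cdd9.NR
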